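import Pool.Agent.Helper7.PX.CBa

/-! # PX-CB: the weight in the good classes -/

set_option autoImplicit false

open Finset Filter Topology

open scoped Classical

namespace Pool.Agent.Helper7.PX

open Pool.Agent.Helper88.PP (pr Rg om QQ)
open Pool.Agent.Helper88.GM (NI XI In)
open Pool.Agent.Helper88.CG (pw)
open Pool.Agent.Helper88.TU (Su size choose3)
open Pool.Agent.Helper87.CG (pw_nonneg pw_of_not pw_le_one coprime_of_prime)

/-- the exponential beats constants -/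
theorem exp_small {c η : ℝ} (hc : 0 < c) (hη : 0 < η) : ∃ E0 : ℕ, ∀ E : ℕ, E0 ≤ E →
    Real.exp (-(c * E)) ≤ η := by
  have h1 : Tendsto (fun E : ℕ => Real.exp (-(c * (E : ℝ)))) atTop (𝓝 0) := by
    refine Real.tendsto_exp_neg_atTop_nhds_zero.comp ?_
    exact tendsto_natCast_atTop_atTop.const_mul_atTop hc
  obtain ⟨E0, h⟩ := eventually_atTop.1 (h1.eventually (gt_mem_nhds hη))
  exact ⟨E0, fun E hE => (h E hE).le⟩

/-- sizes of `x` -/
theorem size_x : ∃ x0 : ℕ, ∀ x : ℕ, x0 ≤ x → 64 ≤ x ∧ Real.log x / 20 ≤ (x / 32 : ℕ) ∧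
    1 ≤ Real.log x ∧ 1 ≤ Real.log (Real.log x) ∧
    Real.log (Real.log x) * Real.log x + 1 ≤ Real.log x ^ 2 := by
  have hlogN : Tendsto (fun x : ℕ => Real.log (x : ℝ)) atTop atTop :=
    Real.tendsto_log_atTop.comp tendsto_natCast_atTop_atTop
  have e5 : ∀ᶠ x : ℕ in atTop, Real.log (x : ℝ) ≤ 1 / 2 * x :=
    tendsto_natCast_atTop_atTop.eventually (Pool.Agent.Helper87.CG.log_le_eps (by norm_num))
  have e1 : ∀ᶠ x : ℕ in atTop, Real.log (Real.log x) ≤ 1 / 2 * Real.log x :=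
    hlogN.eventually (Pool.Agent.Helper87.CG.log_le_eps (by norm_num))
  have e6 : ∀ᶠ x : ℕ in atTop, 1 ≤ Real.log (Real.log x) :=
    (Real.tendsto_log_atTop.comp hlogN).eventually_ge_atTop _
  have e7 : ∀ᶠ x : ℕ in atTop, 2 ≤ Real.log x := hlogN.eventually_ge_atTop _
  obtain ⟨x0, h⟩ := eventually_atTop.1 ((e5.and (e1.and (e6.and e7))).and
    (eventually_ge_atTop 160))
  refine ⟨x0, fun x hx => ?_⟩
  obtain ⟨⟨a1, a2, a3, a4⟩, a5⟩ := h x hx
  refine ⟨by omega, ?_, by linarith, a3, ?_⟩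
  · have h1 : (x : ℝ) / 32 - 1 ≤ ((x / 32 : ℕ) : ℝ) := by
      have h2 : x < 32 * (x / 32 + 1) := by omega
      have h3 : (x : ℝ) < 32 * (((x / 32 : ℕ) : ℝ) + 1) := by exact_mod_cast h2
      linarith
    have h2 : (160 : ℝ) ≤ x := by exact_mod_cast a5
    linarith
  · nlinarith

/-- the final estimate -/
theorem exp_final {D0 lam η E : ℝ} (hD0 : 3 ≤ D0) (hlam : 3 ≤ lam) (hη : 0 < η)
    (hlamη : Real.log (4 / η) ≤ lam) (hE0 : 0 ≤ E) (hE : E ≤ 2 * Real.exp (D0 * lam)) :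
    Real.exp (-Real.exp ((2 * D0 + 2) * lam)) ≤ η / 4 * Real.exp (-E ^ 2) := by
  have f1 : E ^ 2 ≤ 4 * Real.exp (2 * (D0 * lam)) := by
    calc E ^ 2 ≤ (2 * Real.exp (D0 * lam)) ^ 2 := pow_le_pow_left₀ hE0 hE 2
      _ = 4 * Real.exp (2 * (D0 * lam)) := by
        rw [mul_pow, ← Real.exp_nat_mul]
        norm_num
  have f2 : Real.exp ((2 * D0 + 2) * lam) = Real.exp (2 * lam) * Real.exp (2 * (D0 * lam)) := by
    rw [← Real.exp_add]
    ring_nf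
  have f3 : 5 ≤ Real.exp (2 * lam) := by
    have := Real.add_one_le_exp (2 * lam)
    linarith
  have f4 : lam ≤ Real.exp (2 * (D0 * lam)) := by
    have := Real.add_one_le_exp (2 * (D0 * lam))
    nlinarith
  have f5 : E ^ 2 + Real.log (4 / η) ≤ Real.exp ((2 * D0 + 2) * lam) := by
    rw [f2]
    have : 5 * Real.exp (2 * (D0 * lam)) ≤ Real.exp (2 * lam) * Real.exp (2 * (D0 * lam)) :=
      mul_le_mul_of_nonneg_right f3 (Real.exp_pos _).le
    linarith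
  calc Real.exp (-Real.exp ((2 * D0 + 2) * lam)) ≤ Real.exp (-(E ^ 2 + Real.log (4 / η))) :=
        Real.exp_le_exp.2 (neg_le_neg f5)
    _ = η / 4 * Real.exp (-E ^ 2) := by
        rw [neg_add, Real.exp_add, Real.exp_neg (Real.log (4 / η)), Real.exp_log (by positivity),
          inv_div]
        ring

/-- the mean square of the weight from above -/
theorem ms_up {N : Finset ℕ} {f : ℕ → ℝ} {X Dn e η : ℝ} (hX0 : 0 ≤ X) (hD1 : 1 ≤ Dn) (hη : 0 ≤ η)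
    (h1 : |∑ n ∈ N, f n - X * Dn| ≤ e * X) (he : e ≤ η) : ∑ n ∈ N, f n ≤ (1 + η) * (X * Dn) := by
  have h3 := (abs_le.1 h1).2
  have h5 : e * X ≤ η * (X * Dn) := by
    calc e * X ≤ η * X := mul_le_mul_of_nonneg_right he hX0
      _ ≤ η * (X * Dn) := mul_le_mul_of_nonneg_left (le_mul_of_one_le_right hX0 hD1) hη
  linarith

theorem nlc1 {CP C1 t X Dn v ε : ℝ} (hCP : 1 ≤ CP) (hC1 : 1 ≤ C1) (hX : 0 ≤ X) (hD : 0 ≤ Dn)
    (hv0 : 0 ≤ v) (hv : v ≤ 2 * ε) : CP * (1 + t) ^ 4 * (X * Dn) * (C1 * v) ^ 2 ≤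
      4 * CP * C1 ^ 2 * ((1 + t) ^ 2 * ε) ^ 2 * (X * Dn) := by
  have h0 : 0 ≤ (1 + t) ^ 4 := by positivity
  have h2 : (C1 * v) ^ 2 ≤ (C1 * (2 * ε)) ^ 2 := by gcongr
  calc CP * (1 + t) ^ 4 * (X * Dn) * (C1 * v) ^ 2
      ≤ CP * (1 + t) ^ 4 * (X * Dn) * (C1 * (2 * ε)) ^ 2 :=
        mul_le_mul_of_nonneg_left h2 (by positivity)
    _ = 4 * CP * C1 ^ 2 * ((1 + t) ^ 2 * ε) ^ 2 * (X * Dn) := by ring

theorem nlc2 {CP C1 t X Dn v ε H d : ℝ} (hCP : 1 ≤ CP) (hC1 : 1 ≤ C1) (hX : 0 ≤ X) (hD : 0 ≤ Dn)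
    (hv0 : 0 ≤ v) (hv : v ≤ 2 * ε) (hH : 0 ≤ H) (hd : 0 ≤ d) :
    CP * (1 + t) ^ 4 * (X * Dn) * (C1 * (H * (v * d))) ≤
      4 * CP * C1 ^ 2 * (1 + t) ^ 4 * (H * (ε * d)) * (X * Dn) := by
  have h0 : 0 ≤ (1 + t) ^ 4 := by positivity
  have hε : 0 ≤ ε := by linarith
  have h2 : C1 * (H * (v * d)) ≤ C1 * (H * (2 * ε * d)) := by gcongr
  calc CP * (1 + t) ^ 4 * (X * Dn) * (C1 * (H * (v * d)))
      ≤ CP * (1 + t) ^ 4 * (X * Dn) * (C1 * (H * (2 * ε * d))) :=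
        mul_le_mul_of_nonneg_left h2 (by positivity)
    _ = (2 * CP * C1) * ((1 + t) ^ 4 * (H * (ε * d)) * (X * Dn)) := by ring
    _ ≤ (4 * CP * C1 ^ 2) * ((1 + t) ^ 4 * (H * (ε * d)) * (X * Dn)) := by
        refine mul_le_mul_of_nonneg_right ?_ (by positivity)
        have : C1 ≤ C1 ^ 2 := by nlinarith
        nlinarith
    _ = _ := by ring

theorem nlc3 {D lam : ℝ} (hD : 3 ≤ D) (h : 0 ≤ lam) : lam ≤ Real.exp (D * lam) := by
  have e2 := Real.add_one_le_exp (D * lam)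
  nlinarith

theorem nlc4 {D lam L : ℝ} (hD : 3 ≤ D) (h : 0 ≤ lam) (h1 : 8 * D * lam ≤ L) : lam ≤ L := by
  nlinarith

theorem nlc5 {ε L l : ℝ} (hε : ε ≤ 1 / 2) (hL : 0 ≤ L) (h : l ≤ 2 * ε * L) : l ≤ L := by
  nlinarith

theorem nlc6 {CP C1 : ℝ} (hCP : 1 ≤ CP) (hC1 : 1 ≤ C1) : 1 ≤ 4 * CP * C1 ^ 2 := by
  have h1 : 1 ≤ C1 ^ 2 := one_le_pow₀ hC1
  nlinarith

/-- the passage to the window -/
theorem win {N H' B P : Finset ℕ} {b l Y Q : ℕ} {Φ : ℕ → ℝ}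
    (hcop : ∀ n ∈ N, ∀ j, (n + j).Prime → Nat.Coprime (b + j) Q)
    (hB : B = H'.biUnion (fun h => jb Q b h l))
    (hP : P = (Icc 1 Y).filter (fun j => Nat.Coprime (b + j) Q)) :
    (N.filter (fun n => 0 < Φ n ∧ ∀ h ∈ P \ B, ¬ (n + h).Prime)).card ≤
      (N.filter (fun n => 0 < Φ n ∧ ∀ j ∈ Icc 1 Y, (n + j).Prime →
        ∃ h ∈ H', j ∈ Ioc h (h + l))).card := by
  refine card_le_card fun n hn => ?_
  rw [mem_filter] at hn ⊢
  obtain ⟨hnN, hn1, hn2⟩ := hn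
  refine ⟨hnN, hn1, fun j hj hpj => ?_⟩
  have hjP : j ∈ P := by
    rw [hP]
    exact mem_filter.2 ⟨hj, hcop n hnN j hpj⟩
  by_contra hcon
  have hjB' : j ∉ B := by
    intro hjB'
    rw [hB, mem_biUnion] at hjB'
    obtain ⟨h, hh, hjh⟩ := hjB'
    exact hcon ⟨h, hh, jb_sub hjh⟩
  exact hn2 j (mem_sdiff.2 ⟨hjP, hjB'⟩) hpj

/-- the number of amplified points is large -/
theorem root_le {c1 ε v o J B E om : ℝ} (hc1 : 0 < c1) (hε : 0 < ε) (hv : ε ≤ v) (hE : 0 < E)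
    (hEo : E * o = om) (hom : 0 ≤ om) (h1 : c1 * v ≤ o * J) (h2 : J ≤ B)
    (h3 : (1 / (c1 * ε)) ^ 2 ≤ E) : √E ≤ B * om := by
  have h4 : c1 * ε * E ≤ B * om := by
    calc c1 * ε * E ≤ c1 * v * E := by gcongr
      _ ≤ (o * J) * E := mul_le_mul_of_nonneg_right h1 hE.le
      _ = J * (E * o) := by ring
      _ ≤ B * (E * o) := mul_le_mul_of_nonneg_right h2 (by rw [hEo]; exact hom)
      _ = _ := by rw [hEo]
  refine le_trans ?_ h4
  rw [Real.sqrt_le_left (by positivity)]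
  have h5 : 1 ≤ (c1 * ε) ^ 2 * E := by
    calc (1 : ℝ) = (c1 * ε) ^ 2 * (1 / (c1 * ε)) ^ 2 := by field_simp
      _ ≤ (c1 * ε) ^ 2 * E := mul_le_mul_of_nonneg_left h3 (by positivity)
  calc E = 1 * E := (one_mul _).symm
    _ ≤ ((c1 * ε) ^ 2 * E) * E := mul_le_mul_of_nonneg_right h5 hE.le
    _ = (c1 * ε * E) ^ 2 := by ring

/-- the budget -/
theorem budget {P B t K C1 lam E cK D0 lE om : ℝ} (hP : P * om ≤ C1 * lam * E)
    (hB : B * om ≤ K * C1 * E) (ht : t ^ 2 * K ≤ lam) (hC1 : 0 ≤ C1) (hE : 0 ≤ E)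
    (hlam : 0 ≤ lam) (hcK : 0 ≤ cK) (hD : 2 * C1 ≤ cK * D0) (hl : D0 * lam ≤ lE) :
    (P + t ^ 2 * B) * om ≤ cK * (E * lE) := by
  have h1 : t ^ 2 * (B * om) ≤ t ^ 2 * (K * C1 * E) := mul_le_mul_of_nonneg_left hB (sq_nonneg t)
  have h2 : t ^ 2 * (K * C1 * E) ≤ C1 * lam * E := by
    calc t ^ 2 * (K * C1 * E) = (t ^ 2 * K) * (C1 * E) := by ring
      _ ≤ lam * (C1 * E) := mul_le_mul_of_nonneg_right ht (by positivity)
      _ = C1 * lam * E := by ring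
  calc (P + t ^ 2 * B) * om = P * om + t ^ 2 * (B * om) := by ring
    _ ≤ C1 * lam * E + C1 * lam * E := add_le_add hP (h1.trans h2)
    _ = (2 * C1) * (E * lam) := by ring
    _ ≤ (cK * D0) * (E * lam) := mul_le_mul_of_nonneg_right hD (by positivity)
    _ = cK * (E * (D0 * lam)) := by ring
    _ ≤ cK * (E * lE) := by gcongr

theorem cb (hCL : StmtCL) (hTL : StmtTL) (hMS : StmtMS) (hLB : StmtLB) (hPB : StmtPB)
    (hEX : StmtEX) : StmtCB := by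
  obtain ⟨κ, c1, C1, hκ, hκ1, hc1, hc11, hC1, E1, hCL⟩ := hCL
  obtain ⟨k2, hk2, -, hTL⟩ := hTL
  obtain ⟨c3, hc3, hMS⟩ := hMS
  obtain ⟨k4, hk4, -, hLB⟩ := hLB
  obtain ⟨k5, CP, hk5, -, hCP, hPB⟩ := hPB
  obtain ⟨k6, hk6, -, hEX⟩ := hEX
  obtain ⟨cK, hcK⟩ : ∃ cK : ℝ, cK = min (min k2 k4) (min (min k5 k6) 1) := ⟨_, rfl⟩
  have hcK0 : 0 < cK := by
    rw [hcK]
    exact lt_min (lt_min hk2 hk4) (lt_min (lt_min hk5 hk6) one_pos)
  have hcK2 : cK ≤ k2 := hcK ▸ (min_le_left _ _).trans (min_le_left _ _)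
  have hcK4 : cK ≤ k4 := hcK ▸ (min_le_left _ _).trans (min_le_right _ _)
  have hcK5 : cK ≤ k5 := hcK ▸ (min_le_right _ _).trans ((min_le_left _ _).trans (min_le_left _ _))
  have hcK6 : cK ≤ k6 := hcK ▸ (min_le_right _ _).trans ((min_le_left _ _).trans (min_le_right _ _))
  have hcK1 : cK ≤ 1 := hcK ▸ (min_le_right _ _).trans (min_le_right _ _)
  obtain ⟨D0, hD0⟩ : ∃ D0 : ℝ, D0 = max 3 (2 * C1 / cK) := ⟨_, rfl⟩
  have hD03 : 3 ≤ D0 := hD0 ▸ le_max_left _ _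
  have hD0c : 2 * C1 ≤ cK * D0 := by
    have : 2 * C1 / cK ≤ D0 := hD0 ▸ le_max_right _ _
    rw [div_le_iff₀ hcK0] at this
    linarith
  refine ⟨κ, c1 / 2, 4 * CP * C1 ^ 2, 1 / (8 * D0), 2 * D0 + 2, hκ, hκ1, by linarith,
    by linarith, ?_, by positivity, by linarith, fun t η ε K ht hη hε hε1 => ?_⟩
  · exact nlc6 hCP hC1
  obtain ⟨η', hη'⟩ : ∃ η' : ℝ, η' = min (1 / 4) (c1 / (4 * C1)) := ⟨_, rfl⟩
  have hη'0 : 0 < η' := by rw [hη']; exact lt_min (by norm_num) (by positivity)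
  have hη'1 : η' ≤ 1 / 4 := hη' ▸ min_le_left _ _
  have hη'2 : η' * C1 ≤ c1 / 4 := by
    have h1 : η' ≤ c1 / (4 * C1) := hη' ▸ min_le_right _ _
    rw [le_div_iff₀ (by positivity)] at h1
    linarith
  obtain ⟨E2, hTL⟩ := hTL t ht 1 one_pos
  obtain ⟨E3, hMS⟩ := hMS t ht
  obtain ⟨E4, hLB⟩ := hLB t ht η' hη'0
  obtain ⟨E5, hPB⟩ := hPB t ht
  obtain ⟨E6, hEX⟩ := hEX t ht η hη
  obtain ⟨E7, hsz⟩ := size
  obtain ⟨E8, hexp⟩ := exp_small hc3 hη
  obtain ⟨E9, hE9⟩ : ∃ E9 : ℕ, E9 = ⌈(1 / (c1 * ε)) ^ 2⌉₊ + 1 := ⟨_, rfl⟩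
  obtain ⟨EM, hEM⟩ : ∃ EM : ℕ, EM = max E1 (max E2 (max E3 (max E4 (max E5 (max E6 (max E7
    (max E8 E9))))))) := ⟨_, rfl⟩
  obtain ⟨x1, hx1⟩ := choose3 hD03
  obtain ⟨x2, hx2⟩ := size_x
  refine ⟨max (max 3 EM) (max (t ^ 2 * K) (Real.log (4 / η))), max x1 x2,
    fun x hx lam hlamA hlamB H l d hH hHK hl1 hl2 hd1 hd2 hHy hHd => ?_⟩
  have hlam3 : 3 ≤ lam := (le_max_left _ _).trans ((le_max_left _ _).trans hlamA)
  have hlamE : (EM : ℝ) ≤ lam := (le_max_right _ _).trans ((le_max_left _ _).trans hlamA)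
  have hlamt : t ^ 2 * K ≤ lam := (le_max_left _ _).trans ((le_max_right _ _).trans hlamA)
  have hlamη : Real.log (4 / η) ≤ lam := (le_max_right _ _).trans ((le_max_right _ _).trans hlamA)
  obtain ⟨s1, s2, s3, s4, s5⟩ := hx2 x ((le_max_right _ _).trans hx)
  have hlamB' : 8 * D0 * lam ≤ Real.log (Real.log x) := by
    have e1 : 8 * D0 * lam ≤ 8 * D0 * (1 / (8 * D0) * Real.log (Real.log x)) :=
      mul_le_mul_of_nonneg_left hlamB (by positivity)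
    have e2 : 8 * D0 * (1 / (8 * D0) * Real.log (Real.log x)) = Real.log (Real.log x) := by
      field_simp
    linarith
  obtain ⟨E, z, u2, u3, u8, u7, u6⟩ := hx1 x ((le_max_left _ _).trans hx) lam (by linarith) hlamB'
  have u1 : EM ≤ E := by
    have e1 : lam ≤ Real.exp (D0 * lam) := nlc3 hD03 (by linarith)
    have : (EM : ℝ) ≤ E := hlamE.trans (e1.trans u8)
    exact_mod_cast this
  rw [hEM] at u1
  simp only [max_le_iff] at u1
  obtain ⟨v1, v2, v3, v4, v5, v6, v7, v8, v9⟩ := u1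
  -- `y`
  have hlamlog : lam ≤ Real.log (Real.log x) := nlc4 hD03 (by linarith) hlamB'
  obtain ⟨y, hy⟩ : ∃ y : ℕ, y = ⌈lam * Real.log x⌉₊ := ⟨_, rfl⟩
  obtain ⟨Y, hY⟩ : ∃ Y : ℕ, Y = ⌊lam * Real.log x⌋₊ := ⟨_, rfl⟩
  have hll0 : 0 ≤ lam * Real.log x := by positivity
  have hYr : (Y : ℝ) ≤ lam * Real.log x := by rw [hY]; exact Nat.floor_le hll0
  have hyr : lam * Real.log x ≤ y := by rw [hy]; exact Nat.le_ceil _
  have hYy : Y ≤ y := by
    have : (Y : ℝ) ≤ y := hYr.trans hyr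
    exact_mod_cast this
  have hSu : Su E z x y := by
    refine u6 y ?_ ?_
    · have : Real.log x ≤ lam * Real.log x := le_mul_of_one_le_left (by linarith) (by linarith)
      linarith
    · have h1 := Nat.ceil_lt_add_one hll0
      rw [← hy] at h1
      have h2 : lam * Real.log x ≤ Real.log (Real.log x) * Real.log x :=
        mul_le_mul_of_nonneg_right hlamlog (by linarith)
      linarith
  obtain ⟨r1, r2, r3, r4, r5, r6, r7, r8, r9, r10, r11, r12, r13, r14⟩ := hsz E z x y v7 hSu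
  have hQ1 : 1 ≤ QQ x := primorial_pos _
  have hL0 : 0 < Real.log x := by linarith
  have hHY : ∀ h ∈ H, h + l ≤ Y := by
    intro h hh
    rw [hY]
    refine Nat.le_floor ?_
    push_cast
    exact hHy h hh
  have hlL : (l : ℝ) ≤ Real.log x := nlc5 hε1 hL0.le hl2
  have key := hCL E z x y v1 hSu H l d Y hH hd1 hd2 hlL hHY hYy
  refine ⟨_, filter_subset _ _, key, fun b hb => ?_⟩
  rw [mem_filter, mem_range] at hb
  obtain ⟨hbQ, hPc, hHc, hcp⟩ := hb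
  obtain ⟨X, hX⟩ : ∃ X : ℝ, X = XI (x / 32) x (QQ x) := ⟨_, rfl⟩
  have hX0 : 0 < X := by
    rw [hX]
    exact Pool.Agent.Helper88.GM.XI_pos (x := x) (b := b) (by omega) ⟨dvd_rfl, hbQ, by omega⟩
  have hcop : ∀ n ∈ NI (x / 32) x (QQ x) b, ∀ j, (n + j).Prime → Nat.Coprime (b + j) (QQ x) :=
    fun n hn j hp => coprime_of_prime s2 hn hp
  obtain ⟨o, ho⟩ : ∃ o : ℝ, o = om y z / E := ⟨_, rfl⟩
  have hom0 : 0 ≤ om y z := Pool.Agent.Helper88.PP.om_nonneg y z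
  have ho0 : 0 ≤ o := by rw [ho]; positivity
  obtain ⟨v, hv⟩ : ∃ v : ℝ, v = l / Real.log x := ⟨_, rfl⟩
  have hv1 : ε ≤ v := by rw [hv, le_div_iff₀ hL0]; exact hl1
  have hv2 : v ≤ 2 * ε := by rw [hv, div_le_iff₀ hL0]; exact hl2
  have hv0 : 0 < v := lt_of_lt_of_le hε hv1
  obtain ⟨H', hH'⟩ : ∃ H' : Finset ℕ, H' = H.filter (fun h => c1 * v ≤ rho x b h l ∧
    c1 * v ≤ o * (jb (QQ x) b h l).card ∧ o * (jb (QQ x) b h l).card ≤ C1 * v) := ⟨_, rfl⟩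
  rw [← ho, ← hv, ← hH'] at hHc
  have hH'm : ∀ h ∈ H', h ∈ H ∧ c1 * v ≤ rho x b h l ∧
      c1 * v ≤ o * (jb (QQ x) b h l).card ∧ o * (jb (QQ x) b h l).card ≤ C1 * v := by
    intro h hh
    rw [hH', mem_filter] at hh
    exact hh
  have hH'H : H' ⊆ H := fun h hh => (hH'm h hh).1
  have hH'ne : H'.Nonempty := by
    have h1 : 0 < κ * (H.card : ℝ) := by
      have : (0 : ℝ) < H.card := by exact_mod_cast card_pos.2 hH
      positivity
    have h2 : (0 : ℝ) < H'.card := lt_of_lt_of_le h1 hHc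
    exact card_pos.1 (by exact_mod_cast h2)
  obtain ⟨B, hB⟩ : ∃ B : Finset ℕ, B = H'.biUnion (fun h => jb (QQ x) b h l) := ⟨_, rfl⟩
  obtain ⟨P, hP⟩ : ∃ P : Finset ℕ, P = (Icc 1 Y).filter (fun j => Nat.Coprime (b + j) (QQ x)) :=
    ⟨_, rfl⟩
  have hjB : ∀ h ∈ H', jb (QQ x) b h l ⊆ B := fun h hh => by
    rw [hB]
    exact subset_biUnion_of_mem (fun h => jb (QQ x) b h l) hh
  have hBP : B ⊆ P := by
    intro j hj
    rw [hB, mem_biUnion] at hj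
    obtain ⟨h, hh, hj⟩ := hj
    unfold jb at hj
    rw [mem_filter, mem_Ioc] at hj
    have h1 := hHY h (hH'H hh)
    rw [hP, mem_filter, mem_Icc]
    exact ⟨⟨by omega, by omega⟩, hj.2⟩
  have hPy : P ⊆ Icc 1 y := by
    rw [hP]
    refine (filter_subset _ _).trans (Icc_subset_Icc le_rfl hYy)
  -- the budget
  have hEo : (E : ℝ) * o = om y z := by rw [ho]; field_simp
  have hPom : (P.card : ℝ) * om y z ≤ C1 * lam * E := by
    rw [hP]
    refine hPc.trans ?_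
    have h1 : (Y : ℝ) / Real.log x ≤ lam := by rw [div_le_iff₀ hL0]; exact hYr
    calc C1 * (E * (Y / Real.log x)) ≤ C1 * (E * lam) := by gcongr
      _ = C1 * lam * E := by ring
  have hBom : (B.card : ℝ) * om y z ≤ K * C1 * E := by
    have h1 : (B.card : ℝ) ≤ ∑ h ∈ H', ((jb (QQ x) b h l).card : ℝ) := by
      rw [hB]
      exact_mod_cast card_biUnion_le
    calc (B.card : ℝ) * om y z ≤ (∑ h ∈ H', ((jb (QQ x) b h l).card : ℝ)) * om y z :=
          mul_le_mul_of_nonneg_right h1 hom0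
      _ = E * ∑ h ∈ H', o * ((jb (QQ x) b h l).card : ℝ) := by
          rw [← mul_sum, ← mul_assoc, hEo]
          ring
      _ ≤ E * ∑ _h ∈ H', C1 := by
          refine mul_le_mul_of_nonneg_left (sum_le_sum fun h hh => ?_) u2.le
          refine (hH'm h hh).2.2.2.trans ?_
          exact mul_le_of_le_one_right (by linarith) (by linarith)
      _ = H'.card * C1 * E := by rw [sum_const, nsmul_eq_mul]; ring
      _ ≤ K * C1 * E := by
          have : (H'.card : ℝ) ≤ K := by exact_mod_cast (card_le_card hH'H).trans hHK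
          gcongr
  have hbud : ((P.card : ℝ) + t ^ 2 * B.card) * om y z ≤ cK * (E * Real.log E) :=
    budget hPom hBom hlamt (by linarith) u2.le (by linarith) hcK0.le hD0c u3
  have hlE0 : 0 ≤ E * Real.log E := by
    have : 0 ≤ D0 * lam := by positivity
    have : 0 ≤ Real.log E := this.trans u3
    positivity
  have hb2 : ((P.card : ℝ) + t ^ 2 * B.card) * om y z ≤ k2 * (E * Real.log E) :=
    hbud.trans (mul_le_mul_of_nonneg_right hcK2 hlE0)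
  have hb4 : ((P.card : ℝ) + t ^ 2 * B.card) * om y z ≤ k4 * (E * Real.log E) :=
    hbud.trans (mul_le_mul_of_nonneg_right hcK4 hlE0)
  have hb5 : ((P.card : ℝ) + t ^ 2 * B.card) * om y z ≤ k5 * (E * Real.log E) :=
    hbud.trans (mul_le_mul_of_nonneg_right hcK5 hlE0)
  have hb6 : ((P.card : ℝ) + t ^ 2 * B.card) * om y z ≤ k6 * (E * Real.log E) :=
    hbud.trans (mul_le_mul_of_nonneg_right hcK6 hlE0)
  have hPE : (P.card : ℝ) * om y z ≤ (E : ℝ) ^ 2 := by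
    have h1 : (P.card : ℝ) * om y z ≤ ((P.card : ℝ) + t ^ 2 * B.card) * om y z :=
      mul_le_mul_of_nonneg_right (le_add_of_nonneg_right (by positivity)) hom0
    have h2 : Real.log E ≤ E := Real.log_le_self u2.le
    calc (P.card : ℝ) * om y z ≤ cK * (E * Real.log E) := h1.trans hbud
      _ ≤ 1 * (E * Real.log E) := mul_le_mul_of_nonneg_right hcK1 hlE0
      _ ≤ 1 * (E * E) := by gcongr
      _ = (E : ℝ) ^ 2 := by ring
  have hEy : E ≤ y := le_trans (Nat.le_self_pow (by norm_num) E) r6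
  have hBE : √(E : ℝ) ≤ (B.card : ℝ) * om y z := by
    obtain ⟨h, hh⟩ := hH'ne
    refine root_le hc1 hε hv1 u2 hEo hom0 (hH'm h hh).2.2.1
      (by exact_mod_cast card_le_card (hjB h hh)) ?_
    have h4 : (⌈(1 / (c1 * ε)) ^ 2⌉₊ : ℝ) ≤ E := by
      have : ⌈(1 / (c1 * ε)) ^ 2⌉₊ ≤ E := by omega
      exact_mod_cast this
    exact (Nat.le_ceil _).trans h4
  obtain ⟨hD1, hBd, -, -⟩ := hTL E z y v2 (by omega) hEy P B hPy hBP hb2
  obtain ⟨Dn, hDn⟩ : ∃ Dn : ℝ, Dn = DN E z y B t P := ⟨_, rfl⟩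
  rw [← hDn] at hD1
  have hDn0 : 0 < Dn := by linarith
  obtain ⟨w, hw⟩ : ∃ w : ℕ → ℝ, w = fun n => WN E z y B t P n ^ 2 := ⟨_, rfl⟩
  have hw0 : ∀ n, 0 ≤ w n := fun n => by rw [hw]; exact sq_nonneg _
  have hs1 : 1 ≤ (1 + t) ^ 2 := one_le_pow₀ (by linarith)
  -- the pairs
  obtain ⟨V, hV⟩ : ∃ V : ℝ, V = CP * (1 + t) ^ 4 * (X * Dn) * o ^ 2 := ⟨_, rfl⟩
  have hPBw : ∀ j ∈ B, ∀ j' ∈ B, j ≠ j' → ∑ n ∈ (NI (x / 32) x (QQ x) b).filter
      (fun n => (n + j).Prime ∧ (n + j').Prime), w n ≤ V := by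
    intro j hj j' hj' hne
    have h1 := hPB E z x y v5 hSu b hbQ P B hPy hBP hb5 j hj j' hj' hne
    rw [← hX, ← hDn, ← ho] at h1
    rw [hV, hw]
    exact h1
  refine ⟨H', w, X * Dn, hH'H, hHc, by positivity, hw0, ?_, ?_, ?_, ?_, ?_⟩
  · -- the mean square
    have h1 := hMS E z x y v3 hSu b hbQ P hPy hPE _ hBd
    have h2 : GD E z y (P := P) (cw E z B t) = Dn := by rw [hDn]; rfl
    rw [h2, ← hX] at h1
    have h4 : ∑ n ∈ NI (x / 32) x (QQ x) b, w n =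
        ∑ n ∈ NI (x / 32) x (QQ x) b, GW E z y (P := P) (cw E z B t) n ^ 2 := by
      rw [hw]
      rfl
    rw [h4]
    exact ms_up hX0.le hD1 hη.le h1 (hexp E v8)
  · -- one block
    intro h hh
    obtain ⟨a1, a2, a3, a4⟩ := hH'm h hh
    have h1 := low_block (x := x) (b := b) (h := h) (l := l) (B := B) (w := w) (Dn := Dn)
      (X := X) (o := o) (η := η') (s := (1 + t) ^ 2) (c1 := c1) (C1 := C1) (v := v) (by omega)
      hX hX0 hcop hw0 (hjB h hh) hDn0.le ?_ hη'0.le hη'1 hη'2 hs1 hv0.le hc1.le a2 a4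
    · refine le_trans ?_ h1
      have : c1 / 2 * ((1 + t) ^ 2 * ε) ≤ c1 / 2 * ((1 + t) ^ 2 * v) := by gcongr
      exact mul_le_mul_of_nonneg_right this (by positivity)
    · intro j hj
      have h2 := hLB E z x y v4 hSu b hbQ P B hPy hBP hb4 hBE j hj
      rw [← hX, ← hDn, ← ho] at h2
      rw [hw]
      exact h2
  · -- pairs in two blocks
    intro h hh h' hh'
    have h1 := up_pairs (x := x) (b := b) (h := h) (h' := h') (l := l) (B := B) (w := w) (V := V)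
      (o := o) (C1 := C1) (v := v) (T := CP * (1 + t) ^ 4 * (X * Dn)) hcop hw0 (hjB h hh)
      (hjB h' hh') ho0 (by positivity) hV hPBw (hH'm h hh).2.2.2 (hH'm h' hh').2.2.2
    exact h1.trans (nlc1 hCP hC1 hX0.le hDn0.le hv0.le hv2)
  · -- close pairs
    have h0 : ∑ h ∈ H', o ^ 2 * (cp (jb (QQ x) b h l) d : ℝ) ≤
        C1 * (H.card * (v * (d / Real.log x))) := by
      rw [← ho, ← hv] at hcp
      refine le_trans ?_ hcp
      exact sum_le_sum_of_subset_of_nonneg hH'H fun _ _ _ => by positivity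
    have h1 := up_close (x := x) (b := b) (l := l) (d := d) (H' := H') (B := B) (w := w) (V := V)
      (o := o) (T := CP * (1 + t) ^ 4 * (X * Dn)) (G := C1 * (H.card * (v * (d / Real.log x))))
      hcop hw0 hjB (by positivity) hV hPBw h0
    exact h1.trans (nlc2 hCP hC1 hX0.le hDn0.le hv0.le hv2 (Nat.cast_nonneg _)
      (by positivity))
  · -- many integers
    intro Φ hΦ hsum
    have h1 := hEX E z x y v6 hSu b hbQ P B hPy hBP hb6 Φ hΦ (by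
      rw [← hX, ← hDn]
      rw [hw] at hsum
      exact hsum)
    rw [← hX] at h1
    have h2 := exp_final hD03 hlam3 hη hlamη u2.le u7
    have h3 : Real.exp (-Real.exp ((2 * D0 + 2) * lam)) * X ≤
        η / 4 * (Real.exp (-(E : ℝ) ^ 2) * X) := by
      calc _ ≤ (η / 4 * Real.exp (-(E : ℝ) ^ 2)) * X := mul_le_mul_of_nonneg_right h2 hX0.le
        _ = _ := by ring
    rw [← hX]
    rw [← hY]
    exact (h3.trans h1).trans (Nat.cast_le.2 (win hcop hB hP))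

end Pool.Agent.Helper7.PX
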