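import Pool.Agent.Helper7.PX.Goals2
import Pool.Agent.Helper87.CG.F1a
import Pool.Agent.Helper88.TU.Prep
import Pool.Agent.Helper88.GM.KI

/-! # PX: preparations for the good classes -/

set_option autoImplicit false

open Finset Filter Topology

open scoped Classical

namespace Pool.Agent.Helper7.PX

open Pool.Agent.Helper88.PP (pr Rg om QQ)
open Pool.Agent.Helper88.GM (NI XI In)
open Pool.Agent.Helper88.CG (pw)
open Pool.Agent.Helper88.TU (Su)
open Pool.Agent.Helper87.CG (pw_nonneg pw_of_not pw_le_one coprime_of_prime)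

theorem np_ge {x b n h l : ℕ} (hx : 2 ≤ x) :
    ∑ j ∈ jb (QQ x) b h l, pw x (n + j) ≤ (np n h l : ℝ) := by
  unfold np
  rw [card_filter]
  push_cast
  refine le_trans (sum_le_sum (g := fun j => if (n + j).Prime then (1 : ℝ) else 0) fun j _ => ?_)
    (sum_le_sum_of_subset_of_nonneg (filter_subset _ _) fun j _ _ => ?_)
  · split_ifs with hp
    · exact pw_le_one x _ hx
    · exact (pw_of_not _ _ hp).le
  · split_ifs
    · exact zero_le_one
    · exact le_rfl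

theorem rho_eq {x b h l : ℕ} (hX : 0 < XI (x / 32) x (QQ x))
    (hcop : ∀ n ∈ NI (x / 32) x (QQ x) b, ∀ j, (n + j).Prime → Nat.Coprime (b + j) (QQ x)) :
    ∑ j ∈ jb (QQ x) b h l, ∑ n ∈ NI (x / 32) x (QQ x) b, pw x (n + j)
      = XI (x / 32) x (QQ x) * rho x b h l := by
  unfold rho
  rw [mul_div_cancel₀ _ hX.ne']
  refine sum_subset (filter_subset _ _) fun j hj hj' => ?_
  refine sum_eq_zero fun n hn => pw_of_not _ _ fun hp => hj' ?_
  exact mem_filter.2 ⟨hj, hcop n hn j hp⟩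

theorem sum_pairs (N : Finset ℕ) (w : ℕ → ℝ) (R : Finset (ℕ × ℕ)) (V : ℝ)
    (h : ∀ p ∈ R, ∑ n ∈ N.filter (fun n => (n + p.1).Prime ∧ (n + p.2).Prime), w n ≤ V) :
    ∑ n ∈ N, w n * ((R.filter (fun p => (n + p.1).Prime ∧ (n + p.2).Prime)).card : ℝ)
      ≤ R.card * V := by
  have h1 : ∀ n ∈ N, w n * ((R.filter (fun p => (n + p.1).Prime ∧ (n + p.2).Prime)).card : ℝ) =
      ∑ p ∈ R, (if (n + p.1).Prime ∧ (n + p.2).Prime then w n else 0) := by
    intro n _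
    rw [card_filter]
    push_cast
    rw [mul_sum]
    refine sum_congr rfl fun p _ => ?_
    split_ifs <;> simp
  rw [sum_congr rfl h1, sum_comm, ← nsmul_eq_mul, ← sum_const]
  refine sum_le_sum fun p hp => ?_
  rw [← sum_filter]
  exact h p hp

theorem np2_le {x b n h h' l : ℕ} (hcop : ∀ j, (n + j).Prime → Nat.Coprime (b + j) (QQ x)) :
    np2 n h h' l ≤ ((((jb (QQ x) b h l) ×ˢ (jb (QQ x) b h' l)).filter (fun p => p.1 ≠ p.2)).filter
      (fun p => (n + p.1).Prime ∧ (n + p.2).Prime)).card := by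
  unfold np2
  refine card_le_card fun p hp => ?_
  rw [mem_filter, mem_product] at hp
  obtain ⟨⟨h1, h2⟩, h3, h4, h5⟩ := hp
  refine mem_filter.2 ⟨mem_filter.2 ⟨mem_product.2 ⟨?_, ?_⟩, h3⟩, h4, h5⟩
  · exact mem_filter.2 ⟨h1, hcop _ h4⟩
  · exact mem_filter.2 ⟨h2, hcop _ h5⟩

theorem npc_le {x b n h l d : ℕ} (hcop : ∀ j, (n + j).Prime → Nat.Coprime (b + j) (QQ x)) :
    npc n h l d ≤ ((((jb (QQ x) b h l) ×ˢ (jb (QQ x) b h l)).filter
      (fun p => p.1 < p.2 ∧ p.2 ≤ p.1 + d)).filter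
      (fun p => (n + p.1).Prime ∧ (n + p.2).Prime)).card := by
  unfold npc
  refine card_le_card fun p hp => ?_
  rw [mem_filter, mem_product] at hp
  obtain ⟨⟨h1, h2⟩, h3, h3', h4, h5⟩ := hp
  refine mem_filter.2 ⟨mem_filter.2 ⟨mem_product.2 ⟨?_, ?_⟩, h3, h3'⟩, h4, h5⟩
  · exact mem_filter.2 ⟨h1, hcop _ h4⟩
  · exact mem_filter.2 ⟨h2, hcop _ h5⟩

theorem jb_sub {Q b h l : ℕ} : jb Q b h l ⊆ Ioc h (h + l) := filter_subset _ _

/-- the lower bound in one block -/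
theorem low_block {x b h l : ℕ} {B : Finset ℕ} {w : ℕ → ℝ} {Dn X o η s c1 C1 v : ℝ}
    (hx : 2 ≤ x) (hX : X = XI (x / 32) x (QQ x)) (hX0 : 0 < X)
    (hcop : ∀ n ∈ NI (x / 32) x (QQ x) b, ∀ j, (n + j).Prime → Nat.Coprime (b + j) (QQ x))
    (hw : ∀ n, 0 ≤ w n) (hB : jb (QQ x) b h l ⊆ B) (hDn : 0 ≤ Dn)
    (hLB : ∀ j ∈ B, Dn * ((1 - η) * s * (∑ n ∈ NI (x / 32) x (QQ x) b, pw x (n + j)) -
      η * (X * o)) ≤ ∑ n ∈ NI (x / 32) x (QQ x) b, pw x (n + j) * w n)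
    (hη0 : 0 ≤ η) (hη : η ≤ 1 / 4) (hη1 : η * C1 ≤ c1 / 4) (hs : 1 ≤ s) (hv : 0 ≤ v)
    (hc1 : 0 ≤ c1)
    (h1 : c1 * v ≤ rho x b h l) (h2 : o * (jb (QQ x) b h l).card ≤ C1 * v) :
    c1 / 2 * (s * v) * (X * Dn) ≤ ∑ n ∈ NI (x / 32) x (QQ x) b, w n * (np n h l : ℝ) := by
  have e1 : ∑ j ∈ jb (QQ x) b h l, (Dn * ((1 - η) * s *
      (∑ n ∈ NI (x / 32) x (QQ x) b, pw x (n + j)) - η * (X * o))) ≤
      ∑ n ∈ NI (x / 32) x (QQ x) b, w n * (np n h l : ℝ) := by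
    calc _ ≤ ∑ j ∈ jb (QQ x) b h l, ∑ n ∈ NI (x / 32) x (QQ x) b, pw x (n + j) * w n :=
          sum_le_sum fun j hj => hLB j (hB hj)
      _ = ∑ n ∈ NI (x / 32) x (QQ x) b, w n * ∑ j ∈ jb (QQ x) b h l, pw x (n + j) := by
          rw [sum_comm]
          refine sum_congr rfl fun n _ => ?_
          rw [mul_sum]
          exact sum_congr rfl fun j _ => mul_comm _ _
      _ ≤ _ := sum_le_sum fun n _ => mul_le_mul_of_nonneg_left (np_ge hx) (hw n)
  refine le_trans ?_ e1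
  have e2 : ∑ j ∈ jb (QQ x) b h l, (Dn * ((1 - η) * s *
      (∑ n ∈ NI (x / 32) x (QQ x) b, pw x (n + j)) - η * (X * o))) =
      X * Dn * ((1 - η) * s * rho x b h l - η * (o * (jb (QQ x) b h l).card)) := by
    rw [← mul_sum, sum_sub_distrib, ← mul_sum, rho_eq (hX ▸ hX0) hcop, sum_const, nsmul_eq_mul,
      ← hX]
    ring
  rw [e2]
  have e3 : c1 / 2 * (s * v) ≤ (1 - η) * s * rho x b h l - η * (o * (jb (QQ x) b h l).card) := by
    have f1 : (1 - η) * s * (c1 * v) ≤ (1 - η) * s * rho x b h l :=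
      mul_le_mul_of_nonneg_left h1 (mul_nonneg (by linarith) (by linarith))
    have f2 : η * (o * (jb (QQ x) b h l).card) ≤ η * (C1 * v) := mul_le_mul_of_nonneg_left h2 hη0
    have f3 : η * (C1 * v) ≤ c1 / 4 * v := by
      calc η * (C1 * v) = (η * C1) * v := by ring
        _ ≤ c1 / 4 * v := mul_le_mul_of_nonneg_right hη1 hv
    have f4 : c1 / 4 * v ≤ c1 / 4 * (s * v) :=
      mul_le_mul_of_nonneg_left (le_mul_of_one_le_left hv hs) (by linarith)
    have f5 : 0 ≤ s * (c1 * v) := by positivity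
    have f6 : 3 / 4 * (s * (c1 * v)) ≤ (1 - η) * (s * (c1 * v)) :=
      mul_le_mul_of_nonneg_right (by linarith) f5
    nlinarith
  calc c1 / 2 * (s * v) * (X * Dn) = X * Dn * (c1 / 2 * (s * v)) := by ring
    _ ≤ _ := mul_le_mul_of_nonneg_left e3 (by positivity)

/-- the upper bound for the pairs in two blocks -/
theorem up_pairs {x b h h' l : ℕ} {B : Finset ℕ} {w : ℕ → ℝ} {V o C1 v T : ℝ}
    (hcop : ∀ n ∈ NI (x / 32) x (QQ x) b, ∀ j, (n + j).Prime → Nat.Coprime (b + j) (QQ x))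
    (hw : ∀ n, 0 ≤ w n) (hB : jb (QQ x) b h l ⊆ B) (hB' : jb (QQ x) b h' l ⊆ B)
    (ho : 0 ≤ o) (hT : 0 ≤ T) (hV : V = T * o ^ 2)
    (hPB : ∀ j ∈ B, ∀ j' ∈ B, j ≠ j' → ∑ n ∈ (NI (x / 32) x (QQ x) b).filter
      (fun n => (n + j).Prime ∧ (n + j').Prime), w n ≤ V)
    (h1 : o * (jb (QQ x) b h l).card ≤ C1 * v) (h2 : o * (jb (QQ x) b h' l).card ≤ C1 * v) :
    ∑ n ∈ NI (x / 32) x (QQ x) b, w n * (np2 n h h' l : ℝ) ≤ T * (C1 * v) ^ 2 := by
  set R := ((jb (QQ x) b h l) ×ˢ (jb (QQ x) b h' l)).filter (fun p => p.1 ≠ p.2) with hR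
  have hV0 : 0 ≤ V := by rw [hV]; positivity
  calc ∑ n ∈ NI (x / 32) x (QQ x) b, w n * (np2 n h h' l : ℝ)
      ≤ ∑ n ∈ NI (x / 32) x (QQ x) b, w n *
          ((R.filter (fun p => (n + p.1).Prime ∧ (n + p.2).Prime)).card : ℝ) := by
        refine sum_le_sum fun n hn => mul_le_mul_of_nonneg_left ?_ (hw n)
        exact_mod_cast np2_le (hcop n hn)
    _ ≤ R.card * V := by
        refine sum_pairs _ _ _ _ fun p hp => ?_
        rw [hR, mem_filter, mem_product] at hp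
        exact hPB p.1 (hB hp.1.1) p.2 (hB' hp.1.2) hp.2
    _ ≤ ((jb (QQ x) b h l).card * (jb (QQ x) b h' l).card : ℕ) * V := by
        refine mul_le_mul_of_nonneg_right ?_ hV0
        refine Nat.cast_le.2 ?_
        rw [← card_product]
        exact card_le_card (filter_subset _ _)
    _ = T * ((o * (jb (QQ x) b h l).card) * (o * (jb (QQ x) b h' l).card)) := by
        rw [hV]
        push_cast
        ring
    _ ≤ T * ((C1 * v) * (C1 * v)) := by
        refine mul_le_mul_of_nonneg_left ?_ hT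
        have f1 : 0 ≤ o * (jb (QQ x) b h l).card := by positivity
        exact mul_le_mul h1 h2 (by positivity) (f1.trans h1)
    _ = _ := by ring

/-- the upper bound for the close pairs -/
theorem up_close {x b l d : ℕ} {H' B : Finset ℕ} {w : ℕ → ℝ} {V o T G : ℝ}
    (hcop : ∀ n ∈ NI (x / 32) x (QQ x) b, ∀ j, (n + j).Prime → Nat.Coprime (b + j) (QQ x))
    (hw : ∀ n, 0 ≤ w n) (hB : ∀ h ∈ H', jb (QQ x) b h l ⊆ B)
    (hT : 0 ≤ T) (hV : V = T * o ^ 2)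
    (hPB : ∀ j ∈ B, ∀ j' ∈ B, j ≠ j' → ∑ n ∈ (NI (x / 32) x (QQ x) b).filter
      (fun n => (n + j).Prime ∧ (n + j').Prime), w n ≤ V)
    (h1 : ∑ h ∈ H', o ^ 2 * (cp (jb (QQ x) b h l) d : ℝ) ≤ G) :
    ∑ h ∈ H', ∑ n ∈ NI (x / 32) x (QQ x) b, w n * (npc n h l d : ℝ) ≤ T * G := by
  calc ∑ h ∈ H', ∑ n ∈ NI (x / 32) x (QQ x) b, w n * (npc n h l d : ℝ)
      ≤ ∑ h ∈ H', (cp (jb (QQ x) b h l) d : ℝ) * V := by
        refine sum_le_sum fun h hh => ?_
        calc ∑ n ∈ NI (x / 32) x (QQ x) b, w n * (npc n h l d : ℝ)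
            ≤ ∑ n ∈ NI (x / 32) x (QQ x) b, w n *
              (((((jb (QQ x) b h l) ×ˢ (jb (QQ x) b h l)).filter
                (fun p => p.1 < p.2 ∧ p.2 ≤ p.1 + d)).filter
                (fun p => (n + p.1).Prime ∧ (n + p.2).Prime)).card : ℝ) := by
              refine sum_le_sum fun n hn => mul_le_mul_of_nonneg_left ?_ (hw n)
              exact_mod_cast npc_le (hcop n hn)
          _ ≤ _ := by
              refine sum_pairs _ _ _ _ fun p hp => ?_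
              rw [mem_filter, mem_product] at hp
              exact hPB p.1 (hB h hh hp.1.1) p.2 (hB h hh hp.1.2) hp.2.1.ne
    _ = T * ∑ h ∈ H', o ^ 2 * (cp (jb (QQ x) b h l) d : ℝ) := by
        rw [hV, mul_sum]
        exact sum_congr rfl fun h _ => by ring
    _ ≤ T * G := mul_le_mul_of_nonneg_left h1 hT

end Pool.Agent.Helper7.PX
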