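import Pool.Agent.Helper7.PX.Goals2

/-!
# Prescribed blocks at the scale of the mean gap: statements, Part III
-/

set_option autoImplicit false

open Finset Filter Topology

open scoped Classical

namespace Pool.Agent.Helper7.PX

/-- PACKET ZG (isolated tight clusters; may assume `StmtFC2`; model `Pool/Agent/Helper88/TU/Fin.lean` and
the tools of `Pool/Agent/Helper35/PX/ZC.lean`, `Pool/Agent/Helper35/PX/ZB.lean`).
Apply FC2 with `x' = ⌊x/2⌋₊`, `ε' = min (ε/2) 1`, `h0 = ⌈(L + 2) log x⌉₊`, `lam = 4 L + 8 + lam0`.  For a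
good `n` let `q_1 < .. < q_m`, `m ≥ k + 1`, be the primes of `(n, n + lam log x']`; they are all in
`(n + h0, n + h0 + ε' log x']`.  Let `p s` be the largest prime `≤ n` (`n > x'/32 ≥ 2`), so
`q_i = p (s + i)`; `r = m - 1 ≥ k`: `p (s+1) - p s > h0 ≥ L log x + 1`,
`p (s+r+1) - p (s+1) ≤ ε' log x' ≤ ε log x`, and `p (s+r+2) > n + lam log x'`, so
`p (s+r+2) - p (s+r+1) - 1 ≥ lam log x' - h0 - ε' log x' - 2 ≥ L log x`; and
`p (s+r+2) ≤ x`: otherwise there is no prime in `(n + h0 + ε' log x', x]`, but by Bertrand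
(`Nat.exists_prime_lt_and_le_two_mul`) there is one in `(N, 2 N]`, `N = n + h0 + ⌊ε' log x'⌋₊`; to have
`2 N ≤ x` use `x' = ⌊x/4⌋₊` instead (`n ≤ x/4`, the window is short).
A given `s` comes from at most `h0 + ε' log x' + 1 ≤ lam log x' + 1` of the `n`
(`n < p (s+1) ≤ n + h0 + ε' log x'`). -/
def StmtZG : Prop := ∃ c C : ℝ, 0 < c ∧ ∀ (k : ℕ) (ε : ℝ), 0 < ε → ∃ A X : ℝ, ∀ x : ℝ, X ≤ x →
  ∀ L : ℝ, 0 ≤ L → L ≤ c * Real.log (Real.log x) →
  x / Real.log x * Real.exp (-(A * Real.exp (C * L)))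
    ≤ ({n : ℕ | ∃ r : ℕ, k ≤ r ∧ (Nat.nth Nat.Prime (n + r + 2) : ℝ) ≤ x ∧
      L * Real.log x ≤ (Nat.nth Nat.Prime (n + 1) : ℝ) - Nat.nth Nat.Prime n - 1 ∧
      (Nat.nth Nat.Prime (n + r + 1) : ℝ) - Nat.nth Nat.Prime (n + 1) ≤ ε * Real.log x ∧
      L * Real.log x
        ≤ (Nat.nth Nat.Prime (n + r + 2) : ℝ) - Nat.nth Nat.Prime (n + r + 1) - 1}.ncard : ℝ)

end Pool.Agent.Helper7.PX
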