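import Pool.Agent.Helper7.PX.Main
import Pool.Agent.Helper7.PX.Goals3
import Pool.Agent.Helper98.PX.FC2
import Pool.Agent.Helper56.PX.ZA
import Pool.Agent.Helper35.PX.ZC
import Pool.Agent.Helper36.PX.ZD
import Pool.Agent.Helper16.PX.ZE
import Pool.Agent.Helper62.PX.ZF
import Pool.Agent.Helper86.PX.ZG

/-! # Corollaries of the weight: chains, monotone chains, exactly `k` primes, isolated clusters,
limit points.  (They are not handed in; they are consequences of THEOREM U.) -/

set_option autoImplicit false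

namespace Pool.Agent.Helper7.PX

theorem mFA : StmtFA := Pool.Agent.Helper85.PX.fa mCB

theorem mFB : StmtFB := Pool.Agent.Helper91.PX.fb mCB

theorem mFC2 : StmtFC2 := Pool.Agent.Helper98.PX.fc2 mCB

theorem mZA : StmtZA := Pool.Agent.Helper56.PX.za mFA

theorem mZB : StmtZB := Pool.Agent.Helper35.PX.zb mFB

theorem mZC : StmtZC := Pool.Agent.Helper35.PX.zc mFC2

theorem mZD : StmtZD := Pool.Agent.Helper36.PX.zd mFB

theorem mZE : StmtZE := Pool.Agent.Helper16.PX.ze mFB

theorem mZF : StmtZF := Pool.Agent.Helper62.PX.zf mZA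

theorem mZG : StmtZG := Pool.Agent.Helper86.PX.zg mFC2

end Pool.Agent.Helper7.PX
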