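import Pool.Agent.Helper7.PX.Sel

/-! # THEOREM U in natural numbers -/

set_option autoImplicit false

open Finset Filter Topology

open scoped Classical

namespace Pool.Agent.Helper7.PX

open Pool.Agent.Helper88.PP (QQ)
open Pool.Agent.Helper88.GM (NI XI)
open Pool.Agent.Helper85.PX (np_mono log_log_small)
open Pool.Agent.Helper91.PX (classes)

/-- the blocks and the window -/
lemma window2 {x n : ℕ} {lam ε : ℝ} {H H' : Finset ℕ} {l : ℕ} (hlx : 0 ≤ ε * Real.log x)
    (hH' : H' ⊆ H) (hl : l ≤ ⌊ε * Real.log x⌋₊)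
    (hw : ∀ h ∈ H, (h : ℝ) + ε * Real.log x ≤ lam * Real.log x)
    (hd : ∀ h ∈ H, ∀ h' ∈ H, h < h' → (h : ℝ) + ε * Real.log x ≤ h')
    (hp : ∀ j ∈ Icc 1 ⌊lam * Real.log x⌋₊, (n + j).Prime → ∃ h ∈ H', j ∈ Ioc h (h + l)) :
    Wd x n lam H ⌊ε * Real.log x⌋₊ ∧
    ∀ h ∈ H, np n h ⌊ε * Real.log x⌋₊ = 0 ∨
      (h ∈ H' ∧ np n h ⌊ε * Real.log x⌋₊ ≤ np n h l) := by
  set L := ⌊ε * Real.log x⌋₊ with hL
  have hLe : (L : ℝ) ≤ ε * Real.log x := Nat.floor_le hlx
  refine ⟨?_, ?_⟩
  · intro j hj hjp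
    obtain ⟨h, hh, hjh⟩ := hp j hj hjp
    refine ⟨h, hH' hh, ?_⟩
    rw [mem_Ioc] at hjh ⊢
    exact ⟨hjh.1, by omega⟩
  · intro h hh
    have key : ∀ j ∈ Ioc h (h + L), (n + j).Prime → h ∈ H' ∧ j ∈ Ioc h (h + l) := by
      intro j hj hjp
      rw [mem_Ioc] at hj
      have hj1 : j ∈ Icc 1 ⌊lam * Real.log x⌋₊ := by
        rw [mem_Icc]
        refine ⟨by omega, Nat.le_floor ?_⟩
        have h2 : (j : ℝ) ≤ (h : ℝ) + L := by exact_mod_cast hj.2
        have h3 := hw h hh
        linarith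
      obtain ⟨h', hh', hjh'⟩ := hp j hj1 hjp
      rw [mem_Ioc] at hjh'
      have hhh : h' = h := by
        rcases Nat.lt_trichotomy h' h with h4 | h4 | h4
        · exfalso
          have h5 := hd h' (hH' hh') h hh h4
          have h6 : (j : ℝ) ≤ (h' : ℝ) + l := by exact_mod_cast hjh'.2
          have h7 : (l : ℝ) ≤ L := by exact_mod_cast hl
          have h8 : (h : ℝ) < j := by exact_mod_cast hj.1
          linarith
        · exact h4
        · exfalso
          have h5 := hd h hh h' (hH' hh') h4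
          have h6 : (j : ℝ) ≤ (h : ℝ) + L := by exact_mod_cast hj.2
          have h8 : (h' : ℝ) < j := by exact_mod_cast hjh'.1
          linarith
      subst hhh
      exact ⟨hh', mem_Ioc.mpr hjh'⟩
    by_cases hhH : h ∈ H'
    · refine Or.inr ⟨hhH, card_le_card ?_⟩
      intro j hj
      rw [mem_filter] at hj ⊢
      exact ⟨(key j hj.1 hj.2).2, hj.2⟩
    · refine Or.inl ?_
      unfold np
      rw [card_eq_zero, filter_eq_empty_iff]
      intro j hj hjp
      exact hhH (key j hj hjp).1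

theorem fu (hCB : StmtCB) : StmtFU := by
  obtain ⟨κ, c1, C1, c, C', hκ, hκ1, hc1, hc11, hC1, hc, hC', hCB⟩ := hCB
  have hC10 : 0 < C1 := by linarith
  obtain ⟨c0, C0, hc0, hC0, hsel⟩ := sel κ c1 C1 hκ hκ1 hc1 hc11 hC1
  refine ⟨c0, C0, c, 2 * C', hc0, hC0, hc, by positivity, ?_⟩
  intro M R ε hM hR hε hε1
  obtain ⟨R1, p, hR1, hp, hsel⟩ := hsel M R hM hR
  have hMr : (1 : ℝ) ≤ M := by exact_mod_cast hM
  obtain ⟨e, he⟩ : ∃ e : ℝ, e = min (ε / 4) (R1 / 4) := ⟨_, rfl⟩
  have he0 : 0 < e := by rw [he]; exact lt_min (by positivity) (by positivity)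
  have heε : e ≤ ε / 4 := by rw [he]; exact min_le_left _ _
  have heR : e ≤ R1 / 4 := by rw [he]; exact min_le_right _ _
  have he1 : e ≤ 1 / 2 := by linarith
  obtain ⟨t, ht⟩ : ∃ t : ℝ, t = √(R1 / e) - 1 := ⟨_, rfl⟩
  have hRe : 4 ≤ R1 / e := by
    rw [le_div_iff₀ he0]
    linarith
  have ht2 : (1 + t) ^ 2 * e = R1 := by
    have h1 : 1 + t = √(R1 / e) := by
      rw [ht]
      ring
    rw [h1, Real.sq_sqrt (by linarith)]
    field_simp
  have ht1 : 1 ≤ t := by
    have h1 : (2 : ℝ) ≤ √(R1 / e) := Real.le_sqrt_of_sq_le (by linarith)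
    rw [ht]
    linarith
  obtain ⟨η, hη⟩ : ∃ η : ℝ, η = min 1 (p / 2) := ⟨_, rfl⟩
  have hη0 : 0 < η := by rw [hη]; exact lt_min one_pos (by positivity)
  have hη1 : η ≤ 1 := by rw [hη]; exact min_le_left _ _
  have hη2 : η ≤ p / 2 := by rw [hη]; exact min_le_right _ _
  -- the minimal distance
  obtain ⟨B, hB⟩ : ∃ B : ℝ, B = C1 * (1 + t) ^ 4 * (M * e) := ⟨_, rfl⟩
  have hB0 : 0 < B := by
    have h1 : (0 : ℝ) < 1 + t := by linarith
    rw [hB]
    positivity
  obtain ⟨δ, hδ⟩ : ∃ δ : ℝ, δ = min e (p / 2 / B) := ⟨_, rfl⟩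
  have hδ0 : 0 < δ := by rw [hδ]; exact lt_min he0 (by positivity)
  have hδe : δ ≤ e := by rw [hδ]; exact min_le_left _ _
  have hδB : B * δ ≤ p / 2 := by
    have h1 : δ ≤ p / 2 / B := by rw [hδ]; exact min_le_right _ _
    rw [le_div_iff₀ hB0] at h1
    linarith
  obtain ⟨lam1, x1, hx1⟩ := hCB t η e M ht1 hη0 he0 he1
  obtain ⟨x2, hx2⟩ := log_log_small (δ / 2) (by positivity) (by linarith)
  refine ⟨δ, max lam1 (Real.log (2 / κ) / C'), max x1 x2, hδ0,
    fun x hx lam hlam hlamc H hHM hHw hHd => ?_⟩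
  have hlam1 : lam1 ≤ lam := (le_max_left _ _).trans hlam
  have hlam2 : Real.log (2 / κ) ≤ C' * lam := by
    have h1 := (le_max_right _ _).trans hlam
    rw [div_le_iff₀ hC'] at h1
    linarith
  obtain ⟨hlx1, hlx2⟩ := hx2 x ((le_max_right _ _).trans hx)
  have hU0 : 0 < Real.log x := by
    by_contra hcon
    have h1 : δ / 2 * Real.log x ≤ 0 :=
      mul_nonpos_of_nonneg_of_nonpos (by positivity) (not_lt.1 hcon)
    linarith
  have hdU : δ * Real.log x ≤ e * Real.log x := mul_le_mul_of_nonneg_right hδe hU0.le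
  have hHne : H.Nonempty := by
    rw [← card_pos]
    omega
  set l : ℕ := ⌈e * Real.log x⌉₊ with hl
  set d : ℕ := ⌊δ * Real.log x⌋₊ with hd
  have hl1 : e * Real.log x ≤ l := Nat.le_ceil _
  have hl2 : (l : ℝ) ≤ 2 * e * Real.log x := by
    have h1 : (l : ℝ) < e * Real.log x + 1 := Nat.ceil_lt_add_one (by linarith)
    linarith
  have hl4 : (l : ℝ) ≤ ε / 2 * Real.log x :=
    hl2.trans (mul_le_mul_of_nonneg_right (by linarith) hU0.le)
  have hl5 : δ * Real.log x ≤ ε / 2 * Real.log x :=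
    mul_le_mul_of_nonneg_right (by linarith) hU0.le
  have hεx : 0 < ε * Real.log x := by positivity
  have hl3 : (l : ℝ) ≤ ε * Real.log x := by
    linarith
  set L : ℕ := ⌊ε * Real.log x⌋₊ with hL
  have hlL : l ≤ L := Nat.le_floor hl3
  have hd1 : (d : ℝ) ≤ δ * Real.log x := Nat.floor_le (by positivity)
  have hd3 : δ * Real.log x < d + 1 := Nat.lt_floor_add_one _
  have hd4 : Real.log (Real.log x) ≤ d := by linarith
  have hd2 : d ≤ l := by
    have h1 : (d : ℝ) ≤ l := by linarith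
    exact_mod_cast h1
  have hHd' : ∀ h ∈ H, ∀ h' ∈ H, h < h' → h + l ≤ h' := by
    intro h hh h' hh' hlt
    have h1 := hHd h hh h' hh' hlt
    have h2 : (h : ℝ) + l ≤ h' := by linarith
    exact_mod_cast h2
  obtain ⟨BB, hBBs, hBBc, hBB⟩ := hx1 x ((le_max_left _ _).trans hx) lam hlam1 hlamc H l d
    hHne hHM.le hl1 hl2 hd4 hd2 (fun h hh => by
      have := hHw h hh
      linarith) hHd'
  -- one class
  have hone : ∀ b ∈ BB, Real.exp (-Real.exp (C' * lam)) * XI (x / 32) x (QQ x) ≤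
      (((NI (x / 32) x (QQ x) b).filter (fun n =>
        Wd x n lam H L ∧
        c0 * (min 1 R * M) ≤ ((H.filter (fun h => R ≤ (np n h L : ℝ))).card : ℝ) ∧
        (∀ h ∈ H, (np n h L : ℝ) ≤ max 1 (C0 * (R * √(M : ℝ)))) ∧
        ∀ i j : ℕ, 1 ≤ i → i < j → (j : ℝ) ≤ lam * Real.log x → (n + i).Prime → (n + j).Prime →
          δ * Real.log x ≤ (j : ℝ) - i)).card : ℝ) := by
    intro b hb
    obtain ⟨H', w, D, hH's, hH'c, hD, hw, h1, h2, h3, h4, h5⟩ := hBB b hb
    rw [hHM] at hH'c h4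
    rw [ht2] at h2 h3
    obtain ⟨Φ, hΦ1, hΦ2, hΦ3⟩ := hsel (NI (x / 32) x (QQ x) b) w D η H H' l hHM hH's hH'c hHd' hD
      hη1 hw h1 h2 h3
    have hclose : ∑ n ∈ NI (x / 32) x (QQ x) b, w n * ∑ h ∈ H', (npc n h l d : ℝ)
        ≤ p / 2 * D := by
      have h6 : ∑ n ∈ NI (x / 32) x (QQ x) b, w n * ∑ h ∈ H', (npc n h l d : ℝ)
          = ∑ h ∈ H', ∑ n ∈ NI (x / 32) x (QQ x) b, w n * (npc n h l d : ℝ) := by
        rw [Finset.sum_comm]
        exact Finset.sum_congr rfl fun n _ => by rw [Finset.mul_sum]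
      rw [h6]
      refine h4.trans (mul_le_mul_of_nonneg_right ?_ hD.le)
      have h7 : (d : ℝ) / Real.log x ≤ δ := by
        rw [div_le_iff₀ hU0]
        exact hd1
      calc C1 * (1 + t) ^ 4 * (M * (e * (d / Real.log x))) = B * (d / Real.log x) := by
            rw [hB]
            ring
        _ ≤ B * δ := mul_le_mul_of_nonneg_left h7 hB0.le
        _ ≤ p / 2 := hδB
    have hnpc : ∀ n, 0 ≤ ∑ h ∈ H', (npc n h l d : ℝ) := fun n =>
      Finset.sum_nonneg fun h _ => Nat.cast_nonneg _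
    refine (h5 (fun n => Φ n - ∑ h ∈ H', (npc n h l d : ℝ)) (fun n => ?_) ?_).trans ?_
    · have h6 := hΦ1 n
      have h7 := hnpc n
      show Φ n - ∑ h ∈ H', (npc n h l d : ℝ) ≤ 1
      linarith
    · have h6 : ∑ n ∈ NI (x / 32) x (QQ x) b, w n * (Φ n - ∑ h ∈ H', (npc n h l d : ℝ)) =
          ∑ n ∈ NI (x / 32) x (QQ x) b, w n * Φ n -
            ∑ n ∈ NI (x / 32) x (QQ x) b, w n * ∑ h ∈ H', (npc n h l d : ℝ) := by
        rw [← Finset.sum_sub_distrib]
        exact Finset.sum_congr rfl fun n _ => by ring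
      have h7 : η * D ≤ p / 2 * D := mul_le_mul_of_nonneg_right hη2 hD.le
      show η * D ≤ ∑ n ∈ NI (x / 32) x (QQ x) b, w n * (Φ n - ∑ h ∈ H', (npc n h l d : ℝ))
      rw [h6]
      linarith
    · refine Nat.cast_le.2 (card_le_card fun n hn => ?_)
      obtain ⟨hn1, hn2, hn3⟩ := mem_filter.1 hn
      have hn2' : 0 < Φ n - ∑ h ∈ H', (npc n h l d : ℝ) := hn2
      have h6 := hnpc n
      obtain ⟨h7, h8⟩ := hΦ3 n (by linarith)
      obtain ⟨h9, h10⟩ := window2 (by positivity) hH's hlL hHw hHd hn3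
      refine mem_filter.2 ⟨hn1, h9, ?_, ?_, ?_⟩
      · refine h7.trans ?_
        have h11 : (H'.filter (fun h => R ≤ (np n h l : ℝ))).card
            ≤ (H.filter (fun h => R ≤ (np n h L : ℝ))).card := by
          refine card_le_card fun h hh => ?_
          obtain ⟨h12, h13⟩ := mem_filter.1 hh
          refine mem_filter.2 ⟨hH's h12, h13.trans ?_⟩
          exact_mod_cast np_mono n h hlL
        exact_mod_cast h11
      · intro h hh
        rcases h10 h hh with h11 | ⟨h11, h12⟩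
        · rw [h11]
          exact (by norm_num : ((0 : ℕ) : ℝ) ≤ 1).trans (le_max_left _ _)
        · exact (by exact_mod_cast h12 : (np n h L : ℝ) ≤ (np n h l : ℝ)).trans (h8 h h11)
      · intro i j hi hij hj hpi hpj
        by_contra hcon
        have hij' : (i : ℝ) < j := by exact_mod_cast hij
        have h11 : (j : ℝ) < i + (d + 1 : ℕ) := by
          push_cast
          linarith [not_le.1 hcon]
        have h12 : j < i + (d + 1) := by exact_mod_cast h11
        obtain ⟨g, hg, hig⟩ := hn3 i (mem_Icc.2 ⟨hi, Nat.le_floor (by linarith)⟩) hpi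
        obtain ⟨g', hg', hjg⟩ := hn3 j (mem_Icc.2 ⟨by omega, Nat.le_floor hj⟩) hpj
        have hij2 : j ≤ i + d := by omega
        by_cases hgg : g = g'
        · subst hgg
          have h13 : 0 < npc n g l d := by
            rw [npc, card_pos]
            exact ⟨(i, j), mem_filter.2 ⟨mem_product.2 ⟨hig, hjg⟩, hij, hij2, hpi, hpj⟩⟩
          have h14 : (1 : ℝ) ≤ (npc n g l d : ℝ) := by exact_mod_cast h13
          have h15 : (npc n g l d : ℝ) ≤ ∑ h ∈ H', (npc n h l d : ℝ) :=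
            Finset.single_le_sum (f := fun h => (npc n h l d : ℝ))
              (fun _ _ => Nat.cast_nonneg _) hg
          have h16 := hΦ1 n
          linarith
        · rw [mem_Ioc] at hig hjg
          have h13 : (i : ℝ) ≤ (g : ℝ) + l := by exact_mod_cast hig.2
          have h14 : (j : ℝ) ≤ (g' : ℝ) + l := by exact_mod_cast hjg.2
          have h15 : (g : ℝ) < i := by exact_mod_cast hig.1
          have h16 : (g' : ℝ) < j := by exact_mod_cast hjg.1
          push Not at hcon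
          rcases Nat.lt_or_gt_of_ne hgg with h17 | h17
          · have h18 := hHd g (hH's hg) g' (hH's hg') h17
            linarith
          · have h18 := hHd g' (hH's hg') g (hH's hg) h17
            linarith
  -- the sum over the classes
  have hfin : κ / 2 * x * Real.exp (-Real.exp (C' * lam)) ≤ (((Ioc (x / 32) x).filter (fun n =>
        Wd x n lam H L ∧
        c0 * (min 1 R * M) ≤ ((H.filter (fun h => R ≤ (np n h L : ℝ))).card : ℝ) ∧
        (∀ h ∈ H, (np n h L : ℝ) ≤ max 1 (C0 * (R * √(M : ℝ)))) ∧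
        ∀ i j : ℕ, 1 ≤ i → i < j → (j : ℝ) ≤ lam * Real.log x → (n + i).Prime → (n + j).Prime →
          δ * Real.log x ≤ (j : ℝ) - i)).card : ℝ) := by
    refine le_trans ?_ (classes (x / 32) x (QQ x) BB _ _ hone)
    have hQ : (0 : ℝ) < QQ x := by
      have h1 : 0 < QQ x := primorial_pos _
      exact_mod_cast h1
    have hX : (x : ℝ) / 2 ≤ ((x - x / 32 : ℕ) : ℝ) := by
      have h1 : x ≤ 2 * (x - x / 32) := by omega
      have h2 : (x : ℝ) ≤ 2 * ((x - x / 32 : ℕ) : ℝ) := by exact_mod_cast h1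
      linarith
    calc κ / 2 * x * Real.exp (-Real.exp (C' * lam))
        = κ * (x / 2) * Real.exp (-Real.exp (C' * lam)) := by ring
      _ ≤ κ * ((x - x / 32 : ℕ) : ℝ) * Real.exp (-Real.exp (C' * lam)) :=
          mul_le_mul_of_nonneg_right (mul_le_mul_of_nonneg_left hX hκ.le) (Real.exp_pos _).le
      _ = κ * QQ x * (Real.exp (-Real.exp (C' * lam)) * XI (x / 32) x (QQ x)) := by
          rw [XI]
          field_simp
      _ ≤ BB.card * (Real.exp (-Real.exp (C' * lam)) * XI (x / 32) x (QQ x)) := by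
          refine mul_le_mul_of_nonneg_right hBBc ?_
          rw [XI]
          positivity
  refine le_trans ?_ hfin
  set u : ℝ := Real.exp (C' * lam) with hu
  have hu2 : Real.exp (2 * C' * lam) = u * u := by
    rw [hu, ← Real.exp_add]
    congr 1
    ring
  have hlog0 : 0 ≤ Real.log (2 / κ) := by
    apply Real.log_nonneg
    rw [le_div_iff₀ hκ]
    linarith
  have hu1 : 1 + Real.log (2 / κ) ≤ u := by
    have h1 := Real.add_one_le_exp (C' * lam)
    linarith
  have hu3 : u + Real.log (2 / κ) ≤ u * u := by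
    have h1 : (u - 1) * 1 ≤ (u - 1) * u := mul_le_mul_of_nonneg_left (by linarith) (by linarith)
    linarith
  rw [hu2]
  have h1 : Real.exp (-(u * u)) ≤ κ / 2 * Real.exp (-u) := by
    calc Real.exp (-(u * u)) ≤ Real.exp (-Real.log (2 / κ) + -u) := Real.exp_le_exp.2 (by linarith)
      _ = κ / 2 * Real.exp (-u) := by
        rw [Real.exp_add, Real.exp_neg (Real.log (2 / κ)), Real.exp_log (by positivity), inv_div]
  calc (x : ℝ) * Real.exp (-(u * u)) ≤ x * (κ / 2 * Real.exp (-u)) :=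
        mul_le_mul_of_nonneg_left h1 (Nat.cast_nonneg _)
    _ = κ / 2 * x * Real.exp (-u) := by ring

end Pool.Agent.Helper7.PX
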