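import Pool.Agent.Helper88.TU.Goals

/-!
# Prescribed blocks at the scale of the mean gap: statements, Part I (the weight)

Project PX (MP_69be96_nt).  Main theorem (see `Pool/Agent/Helper7/PX/Goals2.lean`): there are
`c > 0`, `C` such that for all `k, K ≥ 1`, `ε > 0` there are `A, X` such that for `x ≥ X`,
`ε ≤ Λ ≤ c log log x` and EVERY set `H` of at most `K` integers in `[0, Λ log x]` with distances
`≥ ε log x`, each of the following holds for at least `x exp (-A exp (C Λ))` integers `n ≤ x`: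
(a) all primes of `(n, n + Λ log x]` lie in the blocks `(n + h, n + h + ε log x]`, `h ∈ H`, and at least
`c #H` of these blocks contain at least `k` primes each; (b) if `#H ≥ C k²`: all primes of
`(n, n + Λ log x]` lie in these blocks, every block contains at most one prime, and at least `k + 1`
blocks contain one; (c) there are exactly `k` primes in `(n, n + Λ log x]`, none in `(n - Λ log x, n]`.

Method: project TU of helper88 with factors which depend on the site.  `P ⊆ Icc 1 y` are the points,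
`B ⊆ P` the amplified points.  The weight is the part of small cost of
`∏_{i ∈ P \ B} (1 - S(n+i)) ∏_{i ∈ B} (1 + t S(n+i))`, where `t ≥ 1` is a CONSTANT (fixed before `E`),
`S = ∑ ab(r) vv(r)`, `S = 1` at a prime.  So the primes at `P \ B` are killed, and the weight is larger
by the factor `1 + t` at the primes of `B`.  All statements of TU can be adapted: we work with general
coefficients `a : (P → ℕ) → ℝ` which are bounded by `t ∏ t ab` (`Bd`); dividing by `t^(K+1)`,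
`K = (E/16)/mE E ≤ E^(1/6)`, gives coefficients as in `TU.StmtTG`, and the factor `t^(2K+2)` of the error
is harmless: `t^(2K+2) exp(-cE) ≤ exp(-cE/2)` for `E ≥ E0(t)`.
At a prime `n + h` the labels at `h` can be summed up (`fold`): the coefficients change, the function
at `n` does not.
-/

set_option autoImplicit false

open Finset Filter Topology

open scoped Classical

namespace Pool.Agent.Helper7.PX

open Pool.Agent.Helper88.PP (pr Rg om Sf SS uu vv ee LA VV QQ cost)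
open Pool.Agent.Helper88.RR (gg ab TB nz Db VM)
open Pool.Agent.Helper88.GM (NI XI In)
open Pool.Agent.Helper88.CG (pw qE mE)
open Pool.Agent.Helper88.TU (Su)

/-! ## General coefficients -/

/-- the label functions on `P` of total cost at most `E/16` -/
noncomputable def TE (E z : ℕ) (P : Finset ℕ) : Finset (P → ℕ) := TB (mE E) (qE E) (E / 16) z P

/-- the function with the coefficients `a` -/
noncomputable def GW (E z y : ℕ) {P : Finset ℕ} (a : (P → ℕ) → ℝ) (n : ℕ) : ℝ :=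
  ∑ r ∈ TE E z P, a r * ∏ i : P, vv y z (r i) (n + (i : ℕ))

/-- the contribution of `r` to its mean square -/
noncomputable def gw (y z : ℕ) {P : Finset ℕ} (a : (P → ℕ) → ℝ) (r : P → ℕ) : ℝ :=
  a r ^ 2 * (gg y z (nz r) * ∏ i : P, (if r i = 0 then 1 else (Nat.totient (r i) : ℝ)))

/-- its mean square -/
noncomputable def GD (E z y : ℕ) {P : Finset ℕ} (a : (P → ℕ) → ℝ) : ℝ :=
  ∑ r ∈ TE E z P, gw y z a r

/-- the coefficients are bounded by `t ∏ t ab` -/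
def Bd (E z : ℕ) (t : ℝ) {P : Finset ℕ} (a : (P → ℕ) → ℝ) : Prop :=
  ∀ r ∈ TE E z P, |a r| ≤ t * ∏ i : P, (if r i = 0 then 1 else t * ab (mE E) (qE E) z (r i))

/-- PACKET MS (mean square; from `TU.StmtTG` = `Pool.Agent.Helper88.TU.mTG`).
As `Pool/Agent/Helper55/TU/S1.lean`: `TG` with `F = G = ∅`, `T = TE`, `K = E/16/mE E + 1`, `w = E/16`,
`Q = QQ x`, for the coefficients `a/t^(K+1)` (`nz r ≤ K`, so `t ∏_{r i ≠ 0} t ≤ t^(K+1)`); sizes of the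
parameters: `Pool.Agent.Helper88.CG.vp`, `Pool.Agent.Helper88.TU.size`.  `t^(2K+2) exp(-c'E) ≤ exp(-cE)`
with `c = c'/2`: `(K+1)^6 ≤ E` by `vp`, so `2 (K+1) log t ≤ 2 E^(1/6) log t ≤ c' E/2` for `E ≥ E0(t)`.
Please put this last fact into a separate lemma `Pool.Agent.<Helper>.PX.tpow`:
`∀ c' > 0, ∀ t ≥ 1, ∃ E0, ∀ E ≥ E0, t ^ (2 * (E/16/mE E + 3)) * exp (-(c' * E)) ≤ exp (-(c'/2 * E))`
(the other packets can use it). -/
def StmtMS : Prop := ∃ c : ℝ, 0 < c ∧ ∀ t : ℝ, 1 ≤ t → ∃ E0 : ℕ, ∀ E z x y : ℕ, E0 ≤ E →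
  Su E z x y → ∀ b : ℕ, b < QQ x → ∀ P : Finset ℕ, P ⊆ Icc 1 y →
  (P.card : ℝ) * om y z ≤ (E : ℝ) ^ 2 → ∀ a : (P → ℕ) → ℝ, Bd E z t a →
  |∑ n ∈ NI (x / 32) x (QQ x) b, GW E z y a n ^ 2 - XI (x / 32) x (QQ x) * GD E z y a|
    ≤ Real.exp (-(c * E)) * XI (x / 32) x (QQ x)

/-- PACKET MJ (mean square over the `n` with primes at one or two points; from `TU.StmtTG`).
As `Pool/Agent/Helper91/TU/GT.lean` (one point) and `Pool/Agent/Helper46/TU/PB.lean` (two points).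
Let `w = E/32`, `K = E/16/mE E + 2`.  If `n + i` is a prime for `i ∈ F` (`n > x/32 ≥ z^w`), the factor
`(1/VM w z) ∑_{s ∈ SS z (z^w)} vv y z s (n+i)/φ(s)` is `1` (`Helper59.RR.vv_one`), so the sum over these
`n` is at most the sum over all `n ∈ NI` of the square of `GW a` times these factors.  This product is
`∑_{r' ∈ T} a' r' ∏ vv (r' i) (n+i)`, `T` the functions `r'` with `r' i ∈ SS z (z^w)` for `i ∈ F` such that
`r`, which is `0` on `F` and `r'` outside `F`, is in `TE`, and `a' r' = a r ∏_{i ∈ F} 1/(VM w z φ(r' i))`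
(the `r ∈ TE` which are not `0` on `F` have `a r = 0`).  `TG` for `a'/t^(K+1)` with `F`, `G = ∅`:
`∏ labels ≤ z^(2w + E/16) ≤ z^(2 (E/16))`, `nz r' ≤ K`.
Main term: `∑_r a r² gg (nz r + #F) ∏ φ(r i)/(VM w z)^#F ≤ (om/VM)^#F GD a`, as `gg (k+1) ≤ om gg k`
(`Helper33.RR.gg_succ`); `VM w z ≥ c E` (`Helper24.PP.ma`).  Error: `t^(2K+2) exp(-c'E) om^#F XI`. -/
def StmtMJ : Prop := ∃ c C : ℝ, 0 < c ∧ 0 < C ∧ ∀ t : ℝ, 1 ≤ t → ∃ E0 : ℕ, ∀ E z x y : ℕ,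
  E0 ≤ E → Su E z x y → ∀ b : ℕ, b < QQ x → ∀ P : Finset ℕ, P ⊆ Icc 1 y →
  (P.card : ℝ) * om y z ≤ (E : ℝ) ^ 2 → ∀ F : Finset P, F.card ≤ 2 → ∀ a : (P → ℕ) → ℝ,
  Bd E z t a → (∀ r ∈ TE E z P, (∃ i ∈ F, r i ≠ 0) → a r = 0) →
  ∑ n ∈ (NI (x / 32) x (QQ x) b).filter (fun n => ∀ i ∈ F, (n + (i : ℕ)).Prime), GW E z y a n ^ 2
    ≤ C * XI (x / 32) x (QQ x) * (om y z / E) ^ F.card * (GD E z y a + Real.exp (-(c * E)))

/-- PACKET LW (second moment with the weights of the primes at `j`; from `CG.StmtWT` =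
`Pool.Agent.Helper67.CG.wt` and `TU.StmtER` = `Pool.Agent.Helper88.TU.mER`).
As the lemma `moment` of `Pool/Agent/Helper42/CG/LB.lean` and its use in
`Pool/Agent/Helper32/TU/LB.lean`.  First pass from `P` to `P' = P.erase j`: the `r ∈ TE E z P` with
`r j = 0` correspond to the `r' ∈ TE E z P'` (same cost, same products; `vv y z 0 = 1`), the others
have `a r = 0`.  Then `WT` on `P'` (`j ∉ P'`) with `w n = pw x (n+j)`, `c = a/t^(K+1)`, `al = ab` on `LA`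
(`Helper31.RR.cb`), `X = z^(qE mE)`, `D = z^(2 (E/16))`, `K' = 2 (E/16/mE E + 2)`, `G d = CN .. d`, and
`ER` with the constant `C` of `cb`.  Finally
`∑_r a r² ∏ φ · CN (sg r) = ∑_n pw x (n+j) ∑_r [n + i rough for all i with r i ≠ 0] a r² ∏ φ`. -/
def StmtLW : Prop := ∃ c : ℝ, 0 < c ∧ ∀ t : ℝ, 1 ≤ t → ∃ E0 : ℕ, ∀ E z x y : ℕ, E0 ≤ E →
  Su E z x y → ∀ b : ℕ, b < QQ x → ∀ P : Finset ℕ, P ⊆ Icc 1 y →
  (P.card : ℝ) * om y z ≤ (E : ℝ) ^ 2 → ∀ j : P, ∀ a : (P → ℕ) → ℝ, Bd E z t a →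
  (∀ r ∈ TE E z P, r j ≠ 0 → a r = 0) →
  |∑ n ∈ NI (x / 32) x (QQ x) b, pw x (n + (j : ℕ)) * GW E z y a n ^ 2
    - ∑ n ∈ NI (x / 32) x (QQ x) b, pw x (n + (j : ℕ)) * ∑ r ∈ TE E z P,
      (if ∀ i : P, r i ≠ 0 → Rg y z (n + (i : ℕ)) then
        a r ^ 2 * ∏ i : P, (if r i = 0 then 1 else (Nat.totient (r i) : ℝ)) else 0)|
    ≤ Real.exp (-(c * E)) * (om y z * XI (x / 32) x (QQ x))

/-- PACKET RC (the number of rough points; from `TU.StmtTG`).  As `Pool/Agent/Helper94/TU/RC.lean` (its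
lemmas `rr`, `co`-like, `tot_rr`, `nz_rr`, .. may be imported): `TG` with `F = ∅`, `G = {i}`,
`K = E/16/mE E + 2`, coefficients `a/t^(K+1)`.  For every `i ∈ P`:
`∑_n [n + i rough] GW² ≤ XI ∑_r (om + [r i ≠ 0]) gw a r + om XI`; sum over `i`, `nz r ≤ E`. -/
def StmtRC : Prop := ∀ t : ℝ, 1 ≤ t → ∃ E0 : ℕ, ∀ E z x y : ℕ, E0 ≤ E → Su E z x y →
  ∀ b : ℕ, b < QQ x → ∀ P : Finset ℕ, P ⊆ Icc 1 y → (P.card : ℝ) * om y z ≤ (E : ℝ) ^ 2 →
  ∀ a : (P → ℕ) → ℝ, Bd E z t a →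
  ∑ n ∈ NI (x / 32) x (QQ x) b,
      GW E z y a n ^ 2 * ((P.filter (fun h => Rg y z (n + h))).card : ℝ)
    ≤ XI (x / 32) x (QQ x) * ((P.card : ℝ) * om y z + E) * (GD E z y a + 1)

/-- PACKET SU (a bound at a single integer; no hypothesis).  As `Pool/Agent/Helper80/TU/SU.lean` (its
lemmas `sum_labels`, `num_base`, .. may be imported): now `|GW a n| ≤ t^(K+1) (1 + #R C 2^E)^K`,
`K = E/16/mE E`, `#R ≤ E^3`, and `t^(2K+2) exp(E²/2) ≤ exp(E²)` for `E ≥ E0(t)`. -/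
def StmtSU : Prop := ∀ t : ℝ, 1 ≤ t → ∃ E0 : ℕ, ∀ E z x y : ℕ, E0 ≤ E → Su E z x y →
  ∀ P : Finset ℕ, P ⊆ Icc 1 y → ∀ a : (P → ℕ) → ℝ, Bd E z t a → ∀ n : ℕ, n ≤ x →
    (P.filter (fun h => Rg y z (n + h))).card ≤ E ^ 3 →
    GW E z y a n ^ 2 ≤ Real.exp ((E : ℝ) ^ 2)

/-! ## At a prime -/

/-- the labels at `h` are summed up -/
noncomputable def fold (E z : ℕ) {P : Finset ℕ} (h : P) (a : (P → ℕ) → ℝ) (r : P → ℕ) : ℝ :=
  if r h = 0 then ∑ s ∈ insert 0 (LA z (mE E) (qE E * mE E)),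
    (if Function.update r h s ∈ TE E z P then a (Function.update r h s) else 0) else 0

/-- PACKET FD.  As `Pool/Agent/Helper59/RR/PW.lean`: sum over the fibres of `r ↦ Function.update r h 0`;
`vv y z s (n + h) = 1` for `s = 0` and for `s ∈ LA z (mE E) (qE E * mE E) ⊆ SS z (z^(E/16))`
(`Helper59.RR.vv_one`, `LA_sub`). -/
def StmtFD : Prop := ∀ (E z y : ℕ) (P : Finset ℕ) (h : P) (n : ℕ) (a : (P → ℕ) → ℝ),
  2 ≤ E / 16 → 1 ≤ mE E → 2 ≤ z → qE E * mE E ≤ E / 16 → (n + (h : ℕ)).Prime →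
  z ^ (E / 16) ≤ n → GW E z y a n = GW E z y (fold E z h a) n

/-! ## The weight -/

/-- the factor of the point `i` -/
noncomputable def cs (B : Finset ℕ) (t : ℝ) (i : ℕ) : ℝ := if i ∈ B then t else -1

/-- the coefficients of the weight -/
noncomputable def cw (E z : ℕ) (B : Finset ℕ) (t : ℝ) {P : Finset ℕ} (r : P → ℕ) : ℝ :=
  ∏ i : P, (if r i = 0 then 1 else cs B t i * ab (mE E) (qE E) z (r i))

/-- the weight: the part of small cost of `∏_{i ∈ P \ B} (1 - S(n+i)) ∏_{i ∈ B} (1 + t S(n+i))` -/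
noncomputable def WN (E z y : ℕ) (B : Finset ℕ) (t : ℝ) (P : Finset ℕ) (n : ℕ) : ℝ :=
  GW E z y (P := P) (cw E z B t) n

/-- its mean square -/
noncomputable def DN (E z y : ℕ) (B : Finset ℕ) (t : ℝ) (P : Finset ℕ) : ℝ :=
  GD E z y (P := P) (cw E z B t)

/-- PACKET FC (algebra at a prime).
(1) `Function.update r h s ∈ TE` iff `cost z r + ee z s ≤ E/16` (`s ∈ LA`), and
`cw (Function.update r h s) = cs B t h * ab s * cw r`, `∑_{s ∈ LA} ab s = 1`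
(`Pool/Agent/Helper59/RR/PW.lean`, `hsumaa`), so `∑_{s ∈ LA, cost z r + ee z s ≤ E/16} ab s = 1 - Db`.
(2) `fold h' (fold h cw) r = ∑_s [..] fold h cw (Function.update r h' s)`; by (1) it is at most
`(1 + |cs h|) |cw r| (1 + |cs h'| ∑ ab)` in absolute value (`0 ≤ Db ≤ 1`: `Helper33.RR.Db_le`,
`Db_nonneg`); if `r h ≠ 0` then `(Function.update r h' s) h ≠ 0`. -/
def StmtFC : Prop := ∀ (E z : ℕ) (P B : Finset ℕ) (t : ℝ) (h : P) (r : P → ℕ), 0 ≤ t →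
  1 ≤ mE E → 2 ≤ z → VV z (mE E) (qE E * mE E) ≠ 0 → r ∈ TE E z P →
  (r h = 0 → fold E z h (cw E z B t) r =
    (1 + cs B t h * (1 - Db (mE E) (qE E) (E / 16) z (cost z r))) * cw E z B t r) ∧
  ∀ h' : P, h' ≠ h →
    |fold E z h' (fold E z h (cw E z B t)) r|
      ≤ (1 + |cs B t h|) * (1 + |cs B t h'|) * |cw E z B t r| ∧
    ((r h ≠ 0 ∨ r h' ≠ 0) → fold E z h' (fold E z h (cw E z B t)) r = 0)

/-- PACKET RA (the part of large cost is very small, with weights which depend on the site).  As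
`Pool/Agent/Helper28/RR/RA.lean`.  (helper7) -/
def StmtRA : Prop := ∀ (ι : Type) [Fintype ι] [DecidableEq ι] (S : Finset ℕ) (e : ℕ → ℕ)
  (w : ι → ℕ → ℝ) (g : ℕ → ℝ) (o : ℝ) (M m j : ℕ), 0 ∉ S → (∀ r ∈ S, e r ≤ m) →
  (∀ i r, 0 ≤ w i r) → 0 ≤ o → (∀ k ≤ Fintype.card ι, 0 ≤ g k) →
  (∀ k < Fintype.card ι, g (k + 1) ≤ o * g k) →
  2 * (j * m) ≤ M → 4 * (o * ∑ i, ∑ r ∈ S, (e r : ℝ) * w i r) ≤ M →
  2 ^ j * ∑ r ∈ (Fintype.piFinset (fun _ : ι => insert 0 S)).filter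
      (fun r => ∑ i, (if r i = 0 then 0 else e (r i)) ≤ M ∧
        M < ∑ i, (if r i = 0 then 0 else e (r i)) + m),
      g (nz r) * ∏ i, (if r i = 0 then 1 else w i (r i))
    ≤ ∑ r ∈ (Fintype.piFinset (fun _ : ι => insert 0 S)).filter
        (fun r => ∑ i, (if r i = 0 then 0 else e (r i)) ≤ M),
      g (nz r) * ∏ i, (if r i = 0 then 1 else w i (r i))

/-- PACKET TL (the tail of the weight and simple facts; may assume RA).  `P.card ≤ y`.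
(1) `1 ≤ DN` (the term `r = 0`, `Helper85.RR.one_le_DB`), `0 ≤ gw`, `cw` is bounded.
(2) `RA` with `ι = P`, `S = LA`, `e = ee z`, `w i r = (cs B t i * ab r)² φ(r)`, `g = gg y z`, `o = om y z`,
`M = E/16`, `m = qE E * mE E`, `j = qE E / 2` (`qE² mE ≤ E/16`, `Pool.Agent.Helper88.CG.vp`); the mean cost
is `om (#(P \ B) + t² #B)/V` (`Pool.Agent.Helper88.RR.sum_wt`: `∑ ee ab² φ = 1/V`), `V ≥ c' log E`, so it is
at most `E/100` if `cK ≤ c'/100`.  As `Pool.Agent.Helper88.RR.tail` and its use in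
`Pool/Agent/Helper88/TU/KQ.lean`; `2^(-j) ≤ η` for `E ≥ E0(η)`. -/
def StmtTL : Prop := ∃ cK : ℝ, 0 < cK ∧ cK ≤ 1 ∧ ∀ t : ℝ, 1 ≤ t → ∀ η : ℝ, 0 < η → ∃ E0 : ℕ,
  ∀ E z y : ℕ, E0 ≤ E → 2 ≤ z → E ≤ y → ∀ P B : Finset ℕ, P ⊆ Icc 1 y → B ⊆ P →
  ((P.card : ℝ) + t ^ 2 * B.card) * om y z ≤ cK * (E * Real.log E) →
  1 ≤ DN E z y B t P ∧ Bd E z t (P := P) (cw E z B t) ∧
  (∀ r ∈ TE E z P, 0 ≤ gw y z (cw E z B t) r) ∧
  (E : ℝ) ^ 2 * ∑ r ∈ (TE E z P).filter (fun r => E / 16 < cost z r + qE E * mE E),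
    gw y z (cw E z B t) r ≤ η * DN E z y B t P

/-- PACKET KQ (the primes at the points of `P \ B` are killed; may assume MJ, FD, FC, TL).
For `h ∈ P \ B` and `n + h` prime, `n > x/32 ≥ z^(E/16)`: `WN n = GW (fold h cw) n` (FD), and by FC
`fold h cw r = Db(cost r) cw r` if `r h = 0` (as `cs = -1`), `0` otherwise; `0 ≤ Db ≤ 1`, and `Db = 0` if
`cost z r + qE E * mE E ≤ E/16` (`Helper33.RR.Db_zero`).  So `GD (fold h cw) ≤ ∑_{tail} gw cw`.  MJ with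
`F = {h}` and TL, sum over `h ∈ P \ B`: at most
`#P C XI (om/E) (η' DN/E² + exp(-cE)) ≤ η XI DN` (`#P om ≤ E²`, `1 ≤ DN`). -/
def StmtKQ : Prop := ∃ cK : ℝ, 0 < cK ∧ cK ≤ 1 ∧ ∀ t : ℝ, 1 ≤ t → ∀ η : ℝ, 0 < η → ∃ E0 : ℕ,
  ∀ E z x y : ℕ, E0 ≤ E → Su E z x y → ∀ b : ℕ, b < QQ x → ∀ P B : Finset ℕ, P ⊆ Icc 1 y →
  B ⊆ P → ((P.card : ℝ) + t ^ 2 * B.card) * om y z ≤ cK * (E * Real.log E) →
  ∑ n ∈ NI (x / 32) x (QQ x) b,
      WN E z y B t P n ^ 2 * (((P \ B).filter (fun h => (n + h).Prime)).card : ℝ)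
    ≤ η * (XI (x / 32) x (QQ x) * DN E z y B t P)

/-- PACKET PB (two primes at points of `B`: upper bound; may assume MJ, FD, FC, TL).
If `n + j` and `n + j'` are prime, `WN n = GW (fold j' (fold j cw)) n` (FD twice); FC (2): the
coefficients are at most `(1+t)² |cw|`, so `Bd` holds with `(1+t)^3`, and they are supported on
`r j = r j' = 0`.  MJ with `F = {j, j'}`: `GD ≤ (1+t)^4 DN`, `exp(-cE) ≤ DN`. -/
def StmtPB : Prop := ∃ cK CP : ℝ, 0 < cK ∧ cK ≤ 1 ∧ 1 ≤ CP ∧ ∀ t : ℝ, 1 ≤ t → ∃ E0 : ℕ,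
  ∀ E z x y : ℕ, E0 ≤ E → Su E z x y → ∀ b : ℕ, b < QQ x → ∀ P B : Finset ℕ, P ⊆ Icc 1 y →
  B ⊆ P → ((P.card : ℝ) + t ^ 2 * B.card) * om y z ≤ cK * (E * Real.log E) →
  ∀ j ∈ B, ∀ j' ∈ B, j ≠ j' →
  ∑ n ∈ (NI (x / 32) x (QQ x) b).filter (fun n => (n + j).Prime ∧ (n + j').Prime),
      WN E z y B t P n ^ 2
    ≤ CP * (1 + t) ^ 4 * (XI (x / 32) x (QQ x) * DN E z y B t P) * (om y z / E) ^ 2

/-- PACKET CM (combinatorics; may assume TL; model and library `Pool/Agent/Helper74/CG/CM.lean`).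
Write `K = E/16/mE E`, `M' = E/16 - qE E * mE E`, `A = P \ B`, `N_A = #A`, `N_B = #B`,
`s_A = #(S \ B)`, `s_B = #(S ∩ B)`.  For a label function `r` with support `R`:
`cw r² ∏ φ = t^(2 #(R ∩ B)) Wr r` (`Helper74.CG.Wr`), and the sum over the `r` of cost `≤ M'` with support
`R` of `Wr r` is `tau M' #R` (`sum_sp`, `Ts_eq`: they are for `TB m q M z P`, any `M`).  So, by TL (the
tail `E/16 < cost + qE mE` is at most `η' DN`) and `gg k ≤ om^k` (`gg_le`)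
`(1 - η') DN ≤ ∑_{k,l} C(N_A,k) C(N_B,l) om^(k+l) t^(2l) tau (k+l)`,
while the right side of the claim is `∑_{k,l} C(s_A,k) C(s_B,l) t^(2l) tau (k+l)` (`j ∉ S`); only
`k + l ≤ K` occur (`tau_zero`).  If `N_B om ≥ √E` and `N_B om (1 - η/(8(K+1))) ≤ s_B`:
`(1 - η/2) C(N_B,l) om^l ≤ C(s_B,l)` by `choose_cmp` (`K² ≤ E^(1/3)`).  The same for `A` in the second
case of the hypothesis, if `N_A om ≥ √E`.  If `N_A om ≤ √E`: `tau (k+l) ≤ t1^k tau l` with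
`t1 = ∑_{s ∈ LA} ab² φ ≤ 1/mE E ≤ E^(-3/4)` (`r ↦ (r i, Function.update r i 0)` is injective, the cost gets
smaller), so `∑_k C(N_A,k) om^k tau (k+l) ≤ exp(√E E^(-3/4)) tau l`, and the term `k = 0` of the right
side is enough. -/
def StmtCM : Prop := ∃ cK : ℝ, 0 < cK ∧ cK ≤ 1 ∧ ∀ t : ℝ, 1 ≤ t → ∀ η : ℝ, 0 < η → ∃ E0 : ℕ,
  ∀ E z y : ℕ, E0 ≤ E → 2 ≤ z → E ≤ y → ∀ P B : Finset ℕ, P ⊆ Icc 1 y → B ⊆ P →
  ((P.card : ℝ) + t ^ 2 * B.card) * om y z ≤ cK * (E * Real.log E) →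
  √(E : ℝ) ≤ (B.card : ℝ) * om y z → ∀ j : P, (j : ℕ) ∈ B → ∀ S : Finset ℕ, S ⊆ P → (j : ℕ) ∉ S →
  (((P \ B).card : ℝ) * om y z ≤ √E ∨
    ((P \ B).card : ℝ) * om y z * (1 - η / (8 * ((E / 16 / mE E : ℕ) + 1))) ≤ (S \ B).card) →
  (B.card : ℝ) * om y z * (1 - η / (8 * ((E / 16 / mE E : ℕ) + 1))) ≤ (S ∩ B).card →
  (1 - η) * DN E z y B t P ≤ ∑ r ∈ TE E z P,
    (if cost z r + qE E * mE E ≤ E / 16 ∧ r j = 0 ∧ (∀ i : P, r i ≠ 0 → (i : ℕ) ∈ S) then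
      cw E z B t r ^ 2 * ∏ i : P, (if r i = 0 then 1 else (Nat.totient (r i) : ℝ)) else 0)

/-- PACKET LB (lower bound for the primes at the points of `B`; may assume LW, FD, FC, TL, CM and
`TU.StmtCO` = `Pool.Agent.Helper88.TU.mCO`; model `Pool/Agent/Helper32/TU/LB.lean`).
If `pw x (n+j) ≠ 0` then `n + j` is prime and (FD) `WN n = GW (fold j cw) n`; the coefficients
`fold j cw` are bounded (`Bd` with `(1+t)²`), `0` for `r j ≠ 0`, and (FC, `cs = t`) equal to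
`(1 + t (1 - Db)) cw r`, so `(1+t) cw r` if `cost z r + qE E * mE E ≤ E/16` (`Db = 0`).  By LW
`∑ pw WN² ≥ (1+t)² ∑_n pw x (n+j) D'(S(n)) - exp(-cE) om XI`, `S(n)` the set of the `i ∈ P.erase j` with
`n + i` rough, `D'(S)` the right side of CM (terms `≥ 0` are dropped).  Apply CM with `η'`,
`(1+t)² η' ≤ η/4`: `D'(S(n)) ≥ (1 - η') DN` for the good `n`.  Bad `n` for `A = P \ B` (`μ = #A om > √E`,
`#S_A(n) < μ (1 - η'/(8(K+1)))`): by CO (`j ∉ A`) the sum of `pw x (n+j)` over them is at most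
`C XI (om/E) (μ+1) (8(K+1)/(η' μ))² ≤ η' XI om/E`, as `(K+1)² ≤ E^(1/3)`.  Bad `n` for `B`
(`#S_B(n) < #B om (1 - η'/(8(K+1)))`): CO for `B.erase j`; the mean `(#B - 1) om ≥ #B om - 1`, and
`#B om η'/(8(K+1)) - 1 ≥ #B om η'/(16(K+1))`.  As in the model, `exp(-cE) om ≤ η' om/E`. -/
def StmtLB : Prop := ∃ cK : ℝ, 0 < cK ∧ cK ≤ 1 ∧ ∀ t : ℝ, 1 ≤ t → ∀ η : ℝ, 0 < η → ∃ E0 : ℕ,
  ∀ E z x y : ℕ, E0 ≤ E → Su E z x y → ∀ b : ℕ, b < QQ x → ∀ P B : Finset ℕ, P ⊆ Icc 1 y →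
  B ⊆ P → ((P.card : ℝ) + t ^ 2 * B.card) * om y z ≤ cK * (E * Real.log E) →
  √(E : ℝ) ≤ (B.card : ℝ) * om y z → ∀ j ∈ B,
  DN E z y B t P * ((1 - η) * (1 + t) ^ 2 * (∑ n ∈ NI (x / 32) x (QQ x) b, pw x (n + j))
      - η * (XI (x / 32) x (QQ x) * (om y z / E)))
    ≤ ∑ n ∈ NI (x / 32) x (QQ x) b, pw x (n + j) * WN E z y B t P n ^ 2

/-- PACKET EX (many integers; may assume KQ, RC, SU, TL).
`#P om ≤ E²/2`.  By KQ (with `θ/8`) and RC (`(#P om + E) (DN + 1) ≤ 4 E² DN`, `E ≥ 32/θ`)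
`∑_n WN² (Φ n - k n - ro n/E³) ≥ (θ/2) XI DN`, `k n` the number of the `h ∈ P \ B` with `n + h` prime,
`ro n` the number of the `h ∈ P` with `n + h` rough.  If the bracket is positive, then `Φ n > 0`,
`k n < Φ n ≤ 1`, so `k n = 0`, `ro n < E³ Φ n ≤ E³`, so `WN² ≤ exp(E²)` (SU), and the bracket is `≤ 1`.  So
there are at least `(θ/2) exp(-E²) XI DN` such `n`, and `1 ≤ DN`. -/
def StmtEX : Prop := ∃ cK : ℝ, 0 < cK ∧ cK ≤ 1 ∧ ∀ t : ℝ, 1 ≤ t → ∀ θ : ℝ, 0 < θ → ∃ E0 : ℕ,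
  ∀ E z x y : ℕ, E0 ≤ E → Su E z x y → ∀ b : ℕ, b < QQ x → ∀ P B : Finset ℕ, P ⊆ Icc 1 y →
  B ⊆ P → ((P.card : ℝ) + t ^ 2 * B.card) * om y z ≤ cK * (E * Real.log E) →
  ∀ Φ : ℕ → ℝ, (∀ n, Φ n ≤ 1) →
  θ * (XI (x / 32) x (QQ x) * DN E z y B t P)
    ≤ ∑ n ∈ NI (x / 32) x (QQ x) b, WN E z y B t P n ^ 2 * Φ n →
  θ / 4 * (Real.exp (-(E : ℝ) ^ 2) * XI (x / 32) x (QQ x))
    ≤ (((NI (x / 32) x (QQ x) b).filter (fun n => 0 < Φ n ∧
        ∀ h ∈ P \ B, ¬ (n + h).Prime)).card : ℝ)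

end Pool.Agent.Helper7.PX
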