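import Pool.Agent.Helper7.PX.Goals

/-!
# Prescribed blocks at the scale of the mean gap: statements, Part II (classes, conclusion)
-/

set_option autoImplicit false

open Finset Filter Topology

open scoped Classical

namespace Pool.Agent.Helper7.PX

open Pool.Agent.Helper88.PP (pr Rg om QQ)
open Pool.Agent.Helper88.GM (NI XI In)
open Pool.Agent.Helper88.CG (pw)
open Pool.Agent.Helper88.TU (Su)

/-! ## The choice of the classes -/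

/-- the points of the block `(h, h + l]` which are prime to `Q` in the class `b` -/
noncomputable def jb (Q b h l : ℕ) : Finset ℕ := (Ioc h (h + l)).filter (fun j => Nat.Coprime (b + j) Q)

/-- the mean number of primes in the block -/
noncomputable def rho (x b h l : ℕ) : ℝ :=
  (∑ j ∈ Ioc h (h + l), ∑ n ∈ NI (x / 32) x (QQ x) b, pw x (n + j)) / XI (x / 32) x (QQ x)

/-- the number of the pairs in `J` of distance at most `d` -/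
def cp (J : Finset ℕ) (d : ℕ) : ℕ := ((J ×ˢ J).filter (fun p => p.1 < p.2 ∧ p.2 ≤ p.1 + d)).card

/-- PACKET CL (choice of the classes; may use `TU.StmtBT` = `Pool.Agent.Helper80.TU.bt` of `TU.mTG`,
`CG.StmtA1` = `Pool.Agent.Helper61.CG.a1`, `CG.StmtA3` = `Pool.Agent.Helper5.CG.a3`, `TU.StmtA4` =
`Pool.Agent.Helper56.TU.a4`; see `Pool/Agent/Helper88/TU/AF.lean` (`hr`, `hss`, `hrs`, `hps`) and
`Pool/Agent/Helper87/CG/F1a.lean`, `F1c.lean` for the same computations).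
Let `o = om y z/E`, `q = φ(Q)/Q`, `λ = l/log x`, `X = XI (x/32) x (QQ x)`.
(1) `∑_b rho = ∑_{j ∈ block} ∑_{n ∈ (x/32, x]} pw x (n+j)/X ≥ l cA (x/log x)/X ≥ cA λ Q` (A1, `X Q ≤ x`).
(2) `rho ≤ CB o #jb` (BT; `pw ≤ 1`; only the `j` with `(b + j, Q) = 1` contribute).
(3) `∑_b (o #jb)² ≤ C3 Q (o l q)² ≤ C3 C4² Q λ²` (A3, A4: `o q ≤ C4/log x`).
(4) Call `h` good for `b` if `rho ≥ (cA/4) λ` and `o #jb ≤ C2 λ`, `C2 = 4 CB C3 C4²/cA`; then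
`o #jb ≥ rho/CB`.  `∑_b rho [o #jb > C2 λ] ≤ CB ∑ (o #jb)²/(C2 λ) ≤ (cA/4) λ Q`, so the sum of `rho` over
the `b` for which `h` is good is `≥ (cA/2) λ Q`, and `rho ≤ CB C2 λ` there: `h` is good for at least
`κ' Q` classes, `κ' = cA/(2 CB C2)`.  The average of the number of the good `h` is `≥ κ' #H`, so for at
least `(κ'/2) Q` classes it is `≥ (κ'/2) #H`.
(5) `∑_b #{j ≤ Y : (b+j, Q) = 1} = Y φ(Q)` (`PP.StmtHB`, `avg_p`); by Markov it is `≤ (8/κ') Y q` outside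
at most `(κ'/8) Q` classes, and `Y q om ≤ C4 E Y/log x`.
(6) Every pair `j < j' ≤ j + d` of the block lies in one of the intervals `(h + i d, h + (i+2) d]`,
`i ≤ l/d`; by A3 (with `2 d`) `∑_b cp ≤ (l/d + 1) C3 Q (2 d q)² ≤ 8 C3 Q l d q²`.  Times `o²`, sum over
`h ∈ H`, Markov: outside at most `(κ'/8) Q` classes `∑_h o² cp ≤ C #H λ d/log x`.
`κ = κ'/4`. -/
def StmtCL : Prop := ∃ κ c1 C1 : ℝ, 0 < κ ∧ κ ≤ 1 ∧ 0 < c1 ∧ c1 ≤ 1 ∧ 1 ≤ C1 ∧ ∃ E0 : ℕ,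
  ∀ E z x y : ℕ, E0 ≤ E → Su E z x y → ∀ (H : Finset ℕ) (l d Y : ℕ), H.Nonempty →
  Real.log (Real.log x) ≤ d → d ≤ l → (l : ℝ) ≤ Real.log x → (∀ h ∈ H, h + l ≤ Y) → Y ≤ y →
  κ * QQ x ≤ (((range (QQ x)).filter (fun b =>
    (((Icc 1 Y).filter (fun j => Nat.Coprime (b + j) (QQ x))).card : ℝ) * om y z
      ≤ C1 * (E * (Y / Real.log x)) ∧
    κ * H.card ≤ ((H.filter (fun h => c1 * (l / Real.log x) ≤ rho x b h l ∧
      c1 * (l / Real.log x) ≤ om y z / E * (jb (QQ x) b h l).card ∧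
      om y z / E * (jb (QQ x) b h l).card ≤ C1 * (l / Real.log x))).card : ℝ) ∧
    ∑ h ∈ H, (om y z / E) ^ 2 * (cp (jb (QQ x) b h l) d : ℝ)
      ≤ C1 * (H.card * (l / Real.log x * (d / Real.log x))))).card : ℝ)

/-! ## The weight in a good class -/

/-- the number of primes in `(n + h, n + h + l]` -/
def np (n h l : ℕ) : ℕ := ((Ioc h (h + l)).filter (fun j => (n + j).Prime)).card

/-- the number of pairs of different primes in two blocks -/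
def np2 (n h h' l : ℕ) : ℕ := (((Ioc h (h + l)) ×ˢ (Ioc h' (h' + l))).filter
  (fun p => p.1 ≠ p.2 ∧ (n + p.1).Prime ∧ (n + p.2).Prime)).card

/-- the number of pairs of primes of distance at most `d` in a block -/
def npc (n h l d : ℕ) : ℕ := (((Ioc h (h + l)) ×ˢ (Ioc h (h + l))).filter
  (fun p => p.1 < p.2 ∧ p.2 ≤ p.1 + d ∧ (n + p.1).Prime ∧ (n + p.2).Prime)).card

/-- The number theory is done (helper7; from CL, TL, MS, LB, PB, EX, `TU.choose3`).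
For every good class `b` the weight is `w n = WN² `, `D = XI DN`, `P` the points of `Icc 1 Y` prime to
`Q`, `B` the union of the `jb` of the good blocks `h ∈ H'`. -/
def StmtCB : Prop := ∃ κ c1 C1 c C : ℝ, 0 < κ ∧ κ ≤ 1 ∧ 0 < c1 ∧ c1 ≤ 1 ∧ 1 ≤ C1 ∧ 0 < c ∧ 0 < C ∧
  ∀ (t η ε : ℝ) (K : ℕ), 1 ≤ t → 0 < η → 0 < ε → ε ≤ 1 / 2 → ∃ (lam0 : ℝ) (x0 : ℕ), ∀ x : ℕ,
  x0 ≤ x → ∀ lam : ℝ, lam0 ≤ lam → lam ≤ c * Real.log (Real.log x) →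
  ∀ (H : Finset ℕ) (l d : ℕ), H.Nonempty → H.card ≤ K →
  ε * Real.log x ≤ l → (l : ℝ) ≤ 2 * ε * Real.log x → Real.log (Real.log x) ≤ d → d ≤ l →
  (∀ h ∈ H, (h : ℝ) + l ≤ lam * Real.log x) → (∀ h ∈ H, ∀ h' ∈ H, h < h' → h + l ≤ h') →
  ∃ BB : Finset ℕ, BB ⊆ range (QQ x) ∧ κ * QQ x ≤ (BB.card : ℝ) ∧ ∀ b ∈ BB,
  ∃ (H' : Finset ℕ) (w : ℕ → ℝ) (D : ℝ), H' ⊆ H ∧ κ * H.card ≤ (H'.card : ℝ) ∧ 0 < D ∧
    (∀ n, 0 ≤ w n) ∧
    ∑ n ∈ NI (x / 32) x (QQ x) b, w n ≤ (1 + η) * D ∧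
    (∀ h ∈ H', c1 * ((1 + t) ^ 2 * ε) * D
      ≤ ∑ n ∈ NI (x / 32) x (QQ x) b, w n * (np n h l : ℝ)) ∧
    (∀ h ∈ H', ∀ h' ∈ H', ∑ n ∈ NI (x / 32) x (QQ x) b, w n * (np2 n h h' l : ℝ)
      ≤ C1 * ((1 + t) ^ 2 * ε) ^ 2 * D) ∧
    (∑ h ∈ H', ∑ n ∈ NI (x / 32) x (QQ x) b, w n * (npc n h l d : ℝ)
      ≤ C1 * (1 + t) ^ 4 * (H.card * (ε * (d / Real.log x))) * D) ∧
    ∀ Φ : ℕ → ℝ, (∀ n, Φ n ≤ 1) →
      η * D ≤ ∑ n ∈ NI (x / 32) x (QQ x) b, w n * Φ n →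
      Real.exp (-Real.exp (C * lam)) * XI (x / 32) x (QQ x)
        ≤ (((NI (x / 32) x (QQ x) b).filter (fun n => 0 < Φ n ∧
            ∀ j ∈ Icc 1 ⌊lam * Real.log x⌋₊, (n + j).Prime →
              ∃ h ∈ H', j ∈ Ioc h (h + l))).card : ℝ)

/-! ## Three consequences -/

/-- all primes of the window `(n, n + lam log x]` are in blocks `(n + h, n + h + l]`, `h ∈ H` -/
def Wd (x n : ℕ) (lam : ℝ) (H : Finset ℕ) (l : ℕ) : Prop :=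
  ∀ j ∈ Icc 1 ⌊lam * Real.log x⌋₊, (n + j).Prime → ∃ h ∈ H, j ∈ Ioc h (h + l)

/-- PACKET FA (many rich blocks; may assume CB).  Constants `κ, c1, C1, c, C'` of CB.
Put `R = 8 k/c1`, choose `ε' ≤ ε/2`, `ε' ≤ 1/2` so small that `(1+t)² ε' = R` with `t ≥ 1`
(`ε' ≤ R/4`), `l' = ⌈ε' log x⌉₊ ≤ ⌊ε log x⌋₊`, `d = ⌈log log x⌉₊`, `A = 8 C1 R/c1 ≥ 1`,
`c2 = c1²/(64 C1)`.  For natural `N`:
`[N ≥ k] ≥ (N - k - N (N-1)/A)/A` (if `N ≥ k`: `N - N(N-1)/A ≤ (1 + 1/A)² A/4 ≤ A`; if `N < k` the right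
side is negative).  So for `h ∈ H'` (with `np2 n h h l' = N (N-1)`)
`∑ w [np n h l' ≥ k] ≥ (c1 R - k (1+η) - C1 R²/A) D/A ≥ (c1 R/8) D/A = c2 D`
(`c1 R = 8 k`, `k (1+η) ≤ 2 k = c1 R/4`, `C1 R²/A = c1 R/8`, so it is even `(5/8) c1 R`).
`Φ n = (1/#H') ∑_{h ∈ H'} [np n h l' ≥ k] - c2/2`, `∑ w Φ ≥ (c2 - (c2/2)(1+η)) D ≥ (c2/4) D`,
`η = min (1/4) (c2/4)`.  If `Φ n > 0`: more than `(c2/2) #H' ≥ (c2/2) κ #H` blocks with at least `k` primes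
(blocks of length `l' ≤ ⌊ε log x⌋₊` with the same left ends).  Sum over `b ∈ BB` (the classes are
disjoint): at least `κ Q exp(-exp(C' lam)) XI ≥ (κ/2) x exp(-exp(C' lam)) ≥ x exp(-exp(C lam))`,
`C = 2 C'`, `lam ≥ lam0`. -/
def StmtFA : Prop := ∃ c0 c C : ℝ, 0 < c0 ∧ 0 < c ∧ 0 < C ∧ ∀ (k K : ℕ) (ε : ℝ), 1 ≤ k → 0 < ε →
  ε ≤ 1 → ∃ (lam0 : ℝ) (x0 : ℕ), ∀ x : ℕ, x0 ≤ x → ∀ lam : ℝ, lam0 ≤ lam →
  lam ≤ c * Real.log (Real.log x) → ∀ H : Finset ℕ, H.Nonempty → H.card ≤ K →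
  (∀ h ∈ H, (h : ℝ) + ε * Real.log x ≤ lam * Real.log x) →
  (∀ h ∈ H, ∀ h' ∈ H, h < h' → (h : ℝ) + ε * Real.log x ≤ h') →
  x * Real.exp (-Real.exp (C * lam)) ≤ (((Ioc (x / 32) x).filter (fun n =>
    Wd x n lam H ⌊ε * Real.log x⌋₊ ∧
    c0 * H.card ≤ ((H.filter (fun h => k ≤ np n h ⌊ε * Real.log x⌋₊)).card : ℝ))).card : ℝ)

/-- PACKET FB (isolated primes; may assume CB).  Constants `κ, c1, C1, c, C'` of CB.
`R = 8 (k+1)/(κ c1)`, `A = 8 C1 R/(κ c1)`, `c2 = (κ c1)²/(64 C1)`, `M = ⌈C1 R²/c2⌉₊ ≤ C2 k²`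
(`C2` absolute; this is the constant `C` of the claim); choose a subset `H0 ⊆ H` with `#H0 = M` and apply
CB to it, with `ε' ≤ ε/2`, `(1+t)² ε' = R/M`, `t ≥ 1`, `l' = ⌈ε' log x⌉₊`, `d = ⌈log log x⌉₊`.
`N n = ∑_{h ∈ H'} np n h l'`, `N (N-1) = ∑_{h, h' ∈ H'} np2 n h h' l'` (disjoint blocks):
`∑ w N ≥ κ M c1 (R/M) D = κ c1 R D = 8 (k+1) D`, `∑ w N (N-1) ≤ M² C1 (R/M)² D = C1 R² D`, so (as in FA)
`∑ w [N ≥ k+1] ≥ (κ c1 R - (k+1)(1+η) - C1 R²/A) D/A ≥ (κ c1 R/8) D/A = c2 D`; and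
`∑ w ∑_h np (np-1)/2 ≤ M C1 (R/M)² D/2 ≤ (c2/2) D`.
`Φ n = [N n ≥ k+1] - ∑_{h ∈ H'} np n h l' (np n h l' - 1)/2`: `∑ w Φ ≥ (c2/2) D`, and `Φ n > 0` iff
`N n ≥ k + 1` and all `np n h l' ≤ 1`.  All primes of the window are in the blocks `(h, h + l']`,
`h ∈ H'`, so the blocks of length `⌊ε log x⌋₊` of `H` contain the same primes, if they are in the window
(`h + ε log x ≤ lam log x`).  Sum over the classes as in FA. -/
def StmtFB : Prop := ∃ c C : ℝ, 0 < c ∧ 0 < C ∧ ∀ (k : ℕ) (ε : ℝ), 1 ≤ k → 0 < ε →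
  ε ≤ 1 → ∃ (lam0 : ℝ) (x0 : ℕ), ∀ x : ℕ, x0 ≤ x → ∀ lam : ℝ, lam0 ≤ lam →
  lam ≤ c * Real.log (Real.log x) → ∀ H : Finset ℕ, C * (k : ℝ) ^ 2 ≤ H.card →
  (∀ h ∈ H, (h : ℝ) + ε * Real.log x ≤ lam * Real.log x) →
  (∀ h ∈ H, ∀ h' ∈ H, h < h' → (h : ℝ) + ε * Real.log x ≤ h') →
  x * Real.exp (-Real.exp (C * lam)) ≤ (((Ioc (x / 32) x).filter (fun n =>
    Wd x n lam H ⌊ε * Real.log x⌋₊ ∧ (∀ h ∈ H, np n h ⌊ε * Real.log x⌋₊ ≤ 1) ∧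
    k + 1 ≤ ∑ h ∈ H, np n h ⌊ε * Real.log x⌋₊)).card : ℝ)

/-- PACKET FC2 (one rich block without close pairs; may assume CB).  As FA with `H = {h0}` and `k + 1`
instead of `k`; `d = ⌊δ log x⌋₊` with `δ` so small that
`C1 (1+t)^4 ε' δ ≤ c2/2`, `δ ≤ ε'` (`t, ε'` as in FA), `Φ n = [np n h0 l' ≥ k+1] - npc n h0 l' d`:
`∑ w Φ ≥ (c2/2) D`.  If `Φ n > 0` there are at least `k + 1` primes in the block and any two of them
have distance `> d`; all primes of the window are in the block `(h0, h0 + l']`. -/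
def StmtFC2 : Prop := ∃ c C : ℝ, 0 < c ∧ 0 < C ∧ ∀ (k : ℕ) (ε : ℝ), 0 < ε →
  ε ≤ 1 → ∃ (δ lam0 : ℝ) (x0 : ℕ), 0 < δ ∧ ∀ x : ℕ, x0 ≤ x → ∀ lam : ℝ, lam0 ≤ lam →
  lam ≤ c * Real.log (Real.log x) → ∀ h0 : ℕ, (h0 : ℝ) + ε * Real.log x ≤ lam * Real.log x →
  x * Real.exp (-Real.exp (C * lam)) ≤ (((Ioc (x / 32) x).filter (fun n =>
    Wd x n lam {h0} ⌊ε * Real.log x⌋₊ ∧ k + 1 ≤ np n h0 ⌊ε * Real.log x⌋₊ ∧
    ∀ i j : ℕ, 1 ≤ i → i < j → (j : ℝ) ≤ lam * Real.log x → (n + i).Prime → (n + j).Prime →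
      δ * Real.log x ≤ (j : ℝ) - i)).card : ℝ)

/-! ## The main theorem -/

/-- the number of primes in `(n, n + t]` -/
noncomputable def pc (n : ℕ) (t : ℝ) : ℕ := ((Ioc n (n + ⌊t⌋₊)).filter Nat.Prime).card

/-- PACKET ZA ((a), real form; may assume FA).  Apply FA with `x' = ⌊x⌋₊`, `max k 1`,
`lam = 2 L + 2 + lam0`; `log x' ≤ log x ≤ 2 log x'`, blocks of length `ε log x'` are contained in those
of length `ε log x`; `exp(-exp(C lam)) ≥ exp(-A exp(2 C L))` with `A = exp(C (lam0 + 2)) + ..`. -/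
def StmtZA : Prop := ∃ c C : ℝ, 0 < c ∧ ∀ (k K : ℕ) (ε : ℝ), 0 < ε → ε ≤ 1 → ∃ A X : ℝ,
  ∀ x : ℝ, X ≤ x →
  ∀ L : ℝ, 0 ≤ L → L ≤ c * Real.log (Real.log x) → ∀ H : Finset ℕ, H.Nonempty → H.card ≤ K →
  (∀ h ∈ H, (h : ℝ) ≤ L * Real.log x) →
  (∀ h ∈ H, ∀ h' ∈ H, h < h' → (h : ℝ) + ε * Real.log x ≤ h') →
  x * Real.exp (-(A * Real.exp (C * L))) ≤ ({n : ℕ | (n : ℝ) ≤ x ∧
    (∀ q : ℕ, q.Prime → n < q → (q : ℝ) ≤ n + L * Real.log x →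
      ∃ h ∈ H, n + h < q ∧ (q : ℝ) ≤ n + h + ε * Real.log x) ∧
    c * H.card ≤ ((H.filter (fun h => k ≤ pc (n + h) (ε * Real.log x))).card : ℝ)}.ncard : ℝ)

/-- PACKET ZB ((b), real form; may assume FB).  As ZA (the same helper).  The primes of a block
`(h, h + ε log x]` are in the window of FB, so in a block `(h1, h1 + ε log x']` with `h1 ∈ H`, and
`h1 = h`, as the blocks of length `ε log x` are disjoint. -/
def StmtZB : Prop := ∃ c C : ℝ, 0 < c ∧ ∀ (k : ℕ) (ε : ℝ), 1 ≤ k → 0 < ε → ε ≤ 1 → ∃ A X : ℝ,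
  ∀ x : ℝ, X ≤ x → ∀ L : ℝ, 0 ≤ L → L ≤ c * Real.log (Real.log x) → ∀ H : Finset ℕ,
  C * (k : ℝ) ^ 2 ≤ H.card → (∀ h ∈ H, (h : ℝ) ≤ L * Real.log x) →
  (∀ h ∈ H, ∀ h' ∈ H, h < h' → (h : ℝ) + ε * Real.log x ≤ h') →
  x * Real.exp (-(A * Real.exp (C * L))) ≤ ({n : ℕ | (n : ℝ) ≤ x ∧
    (∀ q : ℕ, q.Prime → n < q → (q : ℝ) ≤ n + L * Real.log x →
      ∃ h ∈ H, n + h < q ∧ (q : ℝ) ≤ n + h + ε * Real.log x) ∧
    (∀ h ∈ H, pc (n + h) (ε * Real.log x) ≤ 1) ∧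
    k + 1 ≤ ∑ h ∈ H, pc (n + h) (ε * Real.log x)}.ncard : ℝ)

/-- PACKET ZC ((c); may assume FC2).  `x' = ⌊x/2⌋₊`, `h0 = ⌈2 L log x⌉₊`,
`lam = 6 L + 6 + lam0` (or similar).  For a good `n` let `q_1 < .. < q_r`, `r ≥ k+1`, be the primes of
`(n, n + lam log x']`; they are in `(n + h0, n + h0 + ε' log x']`.  For the integers `m` with
`q_k ≤ m + ⌊L log x⌋₊ < q_(k+1)` (`k ≥ 1`), or `q_1 - ⌊δ log x'⌋₊ - 1 < m + ⌊L log x⌋₊ < q_1` (`k = 0`;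
`δ ≤ L` may be assumed) there are exactly `k` primes in `(m, m + L log x]` and none in
`(m - L log x, m]` (`ε ≤ L` is used: the block is shorter than `L log x/2`, so that `m < q_1` for `k ≥ 1`,
if `ε' ≤ ε/4`).  These are at least `δ log x'` integers `m`, `n ≤ m ≤ n + lam log x' ≤ x`.  A given `m`
comes from at most `lam log x' + 1` of the `n`: so at least
`x' exp(-exp(C lam)) δ/(lam + 1)` integers `m`. -/
def StmtZC : Prop := ∃ c C : ℝ, 0 < c ∧ ∀ (k : ℕ) (ε : ℝ), 0 < ε → ∃ A X : ℝ, ∀ x : ℝ, X ≤ x →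
  ∀ L : ℝ, ε ≤ L → L ≤ c * Real.log (Real.log x) →
  x * Real.exp (-(A * Real.exp (C * L))) ≤ ({n : ℕ | (n : ℝ) ≤ x ∧ pc n (L * Real.log x) = k ∧
    ∀ q : ℕ, q.Prime → (n : ℝ) - L * Real.log x < q → n < q}.ncard : ℝ)

/-- PACKET ZD (chains; may assume FB).  As `Pool/Agent/Helper88/TU/Fin.lean`.
`M = ⌈C k²⌉₊`, `x' = ⌊x/2⌋₊`, `H = {i ⌈(L + 2) log x⌉₊ : i < M}`, `ε = 1` in FB (or any other choice),
`lam = M (L + 4) · 2 + lam0`.  The primes of the window are `≥ k + 1` primes in different blocks, so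
`k + 1` consecutive ones `p (s), .., p (s+k)` have gaps `≥ (L + 2) log x - log x'  ≥ L log x + 1`; a given
`s` comes from at most `lam log x' + 1` integers `n`. -/
def StmtZD : Prop := ∃ c C : ℝ, 0 < c ∧ ∀ k : ℕ, 1 ≤ k → ∃ A X : ℝ, ∀ x : ℝ, X ≤ x → ∀ L : ℝ,
  0 ≤ L → L ≤ c / (k : ℝ) ^ 2 * Real.log (Real.log x) →
  x / Real.log x * Real.exp (-(A * Real.exp (C * (k : ℝ) ^ 2 * L)))
    ≤ ({n : ℕ | (Nat.nth Nat.Prime (n + k) : ℝ) ≤ x ∧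
        (Nat.nth Nat.Prime (n + k) : ℝ) ≤ Nat.nth Nat.Prime n + (A + C * (k : ℝ) ^ 2 * L) * Real.log x ∧
        ∀ i < k, L * Real.log x
          ≤ (Nat.nth Nat.Prime (n + i + 1) : ℝ) - Nat.nth Nat.Prime (n + i) - 1}.ncard : ℝ)

/-- PACKET ZE (monotone chains; may assume FB).  With `M = ⌈C k²⌉₊`, `T = ⌈(L + 2) log x⌉₊`,
`ρ = ⌈R⌉₊ + 3`: `H = {ρ^i T : i < M}` for the increasing chains (if `i < j < m` then
`ρ^m T - ρ^j T - log x ≥ R (ρ^j T - ρ^i T + log x) + ..`), and `H = {(ρ^M - ρ^i) T : i < M}` for the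
decreasing ones (the order is reversed).  The rest as ZD. -/
def StmtZE : Prop := ∀ k : ℕ, 1 ≤ k → ∀ R L : ℝ, 0 ≤ R → 0 ≤ L → ∃ c X : ℝ, 0 < c ∧ ∀ x : ℝ,
  X ≤ x →
  c * (x / Real.log x) ≤ ({n : ℕ | (Nat.nth Nat.Prime (n + k) : ℝ) ≤ x ∧
    L * Real.log x ≤ (Nat.nth Nat.Prime (n + 1) : ℝ) - Nat.nth Nat.Prime n - 1 ∧
    ∀ i, i + 1 < k → R * ((Nat.nth Nat.Prime (n + i + 1) : ℝ) - Nat.nth Nat.Prime (n + i) - 1)
      ≤ (Nat.nth Nat.Prime (n + i + 2) : ℝ) - Nat.nth Nat.Prime (n + i + 1) - 1}.ncard : ℝ) ∧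
  c * (x / Real.log x) ≤ ({n : ℕ | (Nat.nth Nat.Prime (n + k) : ℝ) ≤ x ∧
    L * Real.log x ≤ (Nat.nth Nat.Prime (n + k) : ℝ) - Nat.nth Nat.Prime (n + k - 1) - 1 ∧
    ∀ i, i + 1 < k → R * ((Nat.nth Nat.Prime (n + i + 2) : ℝ) - Nat.nth Nat.Prime (n + i + 1) - 1)
      ≤ (Nat.nth Nat.Prime (n + i + 1) : ℝ) - Nat.nth Nat.Prime (n + i) - 1}.ncard : ℝ)

/-- PACKET ZF (the supports of the limit distributions of the normalised gaps; may assume ZA).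
`K0 = ⌈2/c⌉₊` with the `c` of ZA; ZA with `k = 1`, `K = K0`, `ε/4` for `ε` (`ε ≤ 1`), `x/2` for `x`,
`H = {⌈β i log (x/2)⌉₊}`, `L = 2 β (K0-1)`: at least `c K0 ≥ 2` blocks contain a prime.  Take two
consecutive non-empty blocks `i < j`: the last prime of the first and the first prime of the second are
consecutive primes (all primes of the window are in the blocks), and their difference is
`(β j - β i) log x ± ε log x`.  By pigeonhole there is a pair `i < j` which belongs to at least a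
proportion `1/K0²` of the `n`; every index comes from at most `L log x + 1` of the `n`. -/
def StmtZF : Prop := ∃ (K0 : ℕ) (c C : ℝ), 0 < c ∧ ∀ ε : ℝ, 0 < ε → ∃ A X : ℝ, ∀ x : ℝ, X ≤ x →
  ∀ β : ℕ → ℝ, 0 ≤ β 0 → (∀ i < K0, β i + ε ≤ β (i + 1)) → β K0 ≤ c * Real.log (Real.log x) →
  ∃ i j : ℕ, i < j ∧ j ≤ K0 ∧ x / Real.log x * Real.exp (-(A * Real.exp (C * β K0)))
    ≤ ({n : ℕ | (Nat.nth Nat.Prime (n + 1) : ℝ) ≤ x ∧
      |(Nat.nth Nat.Prime (n + 1) : ℝ) - Nat.nth Nat.Prime n - (β j - β i) * Real.log x|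
        ≤ ε * Real.log x}.ncard : ℝ)

end Pool.Agent.Helper7.PX
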