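import Pool.Agent.Helper7.PX.Goals2

/-!
# Prescribed blocks at the scale of the mean gap: statements, Part IV (one theorem)

The theorem which is handed in (THEOREM U).  It contains the statements `ZA`, `ZB` of
`Pool/Agent/Helper7/PX/Goals2.lean` and the input `FC2` of `ZC`, `ZG`: many of the `M` blocks contain
at least `R` primes, no block contains many more (at most one, if `R √M` is small), the primes of the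
window are not close to each other, and there is no other prime in the window.
-/

set_option autoImplicit false

open Finset Filter Topology

open scoped Classical

namespace Pool.Agent.Helper7.PX

open Pool.Agent.Helper88.PP (QQ)

/-- Selection (no number theory): from the first and second moments of the numbers of primes of the
blocks.  `R1` is the intensity of the weight. -/
def StmtSel : Prop := ∀ κ c1 C1 : ℝ, 0 < κ → κ ≤ 1 → 0 < c1 → c1 ≤ 1 → 1 ≤ C1 →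
  ∃ c0 C0 : ℝ, 0 < c0 ∧ 0 < C0 ∧ ∀ (M : ℕ) (R : ℝ), 1 ≤ M → 0 < R → ∃ R1 p : ℝ, 0 < R1 ∧ 0 < p ∧
  ∀ (S : Finset ℕ) (w : ℕ → ℝ) (D η : ℝ) (H H' : Finset ℕ) (l : ℕ), H.card = M → H' ⊆ H →
  κ * M ≤ (H'.card : ℝ) → (∀ h ∈ H, ∀ h' ∈ H, h < h' → h + l ≤ h') → 0 < D → η ≤ 1 →
  (∀ n, 0 ≤ w n) → ∑ n ∈ S, w n ≤ (1 + η) * D →
  (∀ h ∈ H', c1 * R1 * D ≤ ∑ n ∈ S, w n * (np n h l : ℝ)) →
  (∀ h ∈ H', ∀ h' ∈ H', ∑ n ∈ S, w n * (np2 n h h' l : ℝ) ≤ C1 * R1 ^ 2 * D) →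
  ∃ Φ : ℕ → ℝ, (∀ n, Φ n ≤ 1) ∧ p * D ≤ ∑ n ∈ S, w n * Φ n ∧ ∀ n, 0 < Φ n →
    c0 * (min 1 R * M) ≤ ((H'.filter (fun h => R ≤ (np n h l : ℝ))).card : ℝ) ∧
    ∀ h ∈ H', (np n h l : ℝ) ≤ max 1 (C0 * (R * √(M : ℝ)))

/-- The theorem in natural numbers (from CB and Sel) -/
def StmtFU : Prop := ∃ c0 C0 c C : ℝ, 0 < c0 ∧ 0 < C0 ∧ 0 < c ∧ 0 < C ∧ ∀ (M : ℕ) (R ε : ℝ),
  1 ≤ M → 0 < R → 0 < ε → ε ≤ 1 → ∃ (δ lam0 : ℝ) (x0 : ℕ), 0 < δ ∧ ∀ x : ℕ, x0 ≤ x → ∀ lam : ℝ,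
  lam0 ≤ lam → lam ≤ c * Real.log (Real.log x) → ∀ H : Finset ℕ, H.card = M →
  (∀ h ∈ H, (h : ℝ) + ε * Real.log x ≤ lam * Real.log x) →
  (∀ h ∈ H, ∀ h' ∈ H, h < h' → (h : ℝ) + ε * Real.log x ≤ h') →
  x * Real.exp (-Real.exp (C * lam)) ≤ (((Ioc (x / 32) x).filter (fun n =>
    Wd x n lam H ⌊ε * Real.log x⌋₊ ∧
    c0 * (min 1 R * M) ≤ ((H.filter (fun h => R ≤ (np n h ⌊ε * Real.log x⌋₊ : ℝ))).card : ℝ) ∧
    (∀ h ∈ H, (np n h ⌊ε * Real.log x⌋₊ : ℝ) ≤ max 1 (C0 * (R * √(M : ℝ)))) ∧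
    ∀ i j : ℕ, 1 ≤ i → i < j → (j : ℝ) ≤ lam * Real.log x → (n + i).Prime → (n + j).Prime →
      δ * Real.log x ≤ (j : ℝ) - i)).card : ℝ)

/-- THEOREM U (from FU) -/
def StmtZU : Prop := ∃ c C : ℝ, 0 < c ∧ ∀ (M : ℕ) (R ε : ℝ), 1 ≤ M → 0 < R → 0 < ε →
  ∃ A X δ : ℝ, 0 < δ ∧ ∀ x : ℝ, X ≤ x → ∀ L : ℝ, 0 ≤ L → L ≤ c * Real.log (Real.log x) →
  ∀ H : Finset ℕ, H.card = M → (∀ h ∈ H, (h : ℝ) ≤ L * Real.log x) →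
  (∀ h ∈ H, ∀ h' ∈ H, h < h' → (h : ℝ) + ε * Real.log x ≤ h') →
  x * Real.exp (-(A * Real.exp (C * L))) ≤ ({n : ℕ | (n : ℝ) ≤ x ∧
    (∀ q : ℕ, q.Prime → n < q → (q : ℝ) ≤ n + (L + ε) * Real.log x →
      ∃ h ∈ H, n + h < q ∧ (q : ℝ) ≤ n + h + ε * Real.log x) ∧
    c * (min 1 R * M) ≤ ((H.filter (fun h => R ≤ (pc (n + h) (ε * Real.log x) : ℝ))).card : ℝ) ∧
    (∀ h ∈ H, (pc (n + h) (ε * Real.log x) : ℝ) ≤ max 1 (C * (R * √(M : ℝ)))) ∧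
    ∀ q q' : ℕ, q.Prime → q'.Prime → n < q → q < q' → (q' : ℝ) ≤ n + (L + ε) * Real.log x →
      δ * Real.log x ≤ (q' : ℝ) - q}.ncard : ℝ)

end Pool.Agent.Helper7.PX
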