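import Pool.Agent.Helper7.PX.Goals4
import Pool.Agent.Helper35.PX.ZB

/-! # THEOREM U, real form -/

set_option autoImplicit false

open Finset Filter Topology

open scoped Classical

namespace Pool.Agent.Helper7.PX

open Pool.Agent.Helper35.PX (log_floor loglog_floor wd_use pc_eq_np)

theorem zu (hFU : StmtFU) : StmtZU := by
  obtain ⟨c0, C0, c, C, hc0, hC0, hc, hC, hF⟩ := hFU
  refine ⟨min c0 (c / 8), max C0 (2 * C), lt_min hc0 (by positivity), ?_⟩
  intro M R ε hM hR hε
  obtain ⟨e, he⟩ : ∃ e : ℝ, e = min ε 1 := ⟨_, rfl⟩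
  have he0 : 0 < e := by rw [he]; exact lt_min hε one_pos
  have heε : e ≤ ε := by rw [he]; exact min_le_left _ _
  have he1 : e ≤ 1 := by rw [he]; exact min_le_right _ _
  obtain ⟨δ, lam0, x0, hδ, hF⟩ := hF M R e hM hR he0 he1
  have hll : Tendsto (fun x : ℝ => Real.log (Real.log x)) atTop atTop :=
    Real.tendsto_log_atTop.comp Real.tendsto_log_atTop
  have hev : ∀ᶠ x : ℝ in atTop, 16 ≤ x ∧ (x0 : ℝ) + 1 ≤ x ∧
      max (4 * (2 * ε + |lam0|) / c) 2 ≤ Real.log (Real.log x) :=
    (eventually_ge_atTop 16).and ((eventually_ge_atTop _).and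
      (hll.eventually_ge_atTop _))
  obtain ⟨X, hX⟩ := Filter.eventually_atTop.1 hev
  refine ⟨1 + Real.exp (C * (2 * ε + |lam0|)), X, δ / 2, by positivity, ?_⟩
  intro x hx L hL hLc H hHM hHL hsep
  obtain ⟨hx16, hx0, hxl⟩ := hX x hx
  have hxl1 : 4 * (2 * ε + |lam0|) / c ≤ Real.log (Real.log x) := (le_max_left _ _).trans hxl
  have hxl2 : 2 ≤ Real.log (Real.log x) := (le_max_right _ _).trans hxl
  have hxpos : (0 : ℝ) < x := by linarith
  set x' : ℕ := ⌊x⌋₊ with hx'
  have hfl1 : (x' : ℝ) ≤ x := Nat.floor_le hxpos.le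
  have hfl2 : x < (x' : ℝ) + 1 := Nat.lt_floor_add_one x
  obtain ⟨hlog1, hlog2⟩ := log_floor hx16 (x' := x') (by linarith) hfl1
  have hlogx1 : 1 ≤ Real.log x := by
    by_contra hcon
    push Not at hcon
    have h0 : 0 ≤ Real.log x := Real.log_nonneg (by linarith)
    have : Real.log (Real.log x) ≤ 0 := Real.log_nonpos h0 hcon.le
    linarith
  have hlogx' : 0 < Real.log x' := by linarith
  have hll' := loglog_floor hlogx' hlog2 hlogx1 hxl2
  have hlam0 : 0 ≤ |lam0| := abs_nonneg _
  set lam : ℝ := 2 * L + 2 * ε + |lam0| with hlam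
  have hge : lam0 ≤ lam := by
    have := le_abs_self lam0
    linarith
  have hLc' : L ≤ c / 8 * Real.log (Real.log x) :=
    hLc.trans (mul_le_mul_of_nonneg_right (min_le_right _ _) (by linarith))
  have hle : lam ≤ c * Real.log (Real.log x') := by
    have h1 : 2 * ε + |lam0| ≤ c / 4 * Real.log (Real.log x) := by
      rw [div_le_iff₀ hc] at hxl1
      linarith
    have h2 : c * (Real.log (Real.log x) / 2) ≤ c * Real.log (Real.log x') :=
      mul_le_mul_of_nonneg_left hll' hc.le
    linarith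
  -- the windows
  have hwin : (L + ε) * Real.log x ≤ lam * Real.log x' := by
    have h2 : (L + ε) * Real.log x ≤ (L + ε) * (2 * Real.log x') :=
      mul_le_mul_of_nonneg_left hlog2 (by linarith)
    have h4 : 0 ≤ |lam0| * Real.log x' := by positivity
    have h5 : lam * Real.log x' = (L + ε) * (2 * Real.log x') + |lam0| * Real.log x' := by
      rw [hlam]
      ring
    rw [h5]
    linarith
  have hHlam : ∀ h ∈ H, (h : ℝ) + ε * Real.log x ≤ lam * Real.log x' := by
    intro h hh
    have h1 := hHL h hh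
    linarith
  have hεlog : e * Real.log x' ≤ ε * Real.log x :=
    mul_le_mul heε hlog1 hlogx'.le hε.le
  have hx'0 : x0 ≤ x' := by
    have h1 : (x0 : ℝ) ≤ x' := by linarith
    exact_mod_cast h1
  have key := hF x' hx'0 lam hge hle H hHM
    (fun h hh => by have := hHlam h hh; linarith)
    (fun h hh h' hh' hlt => by have := hsep h hh h' hh' hlt; linarith)
  set l : ℕ := ⌊e * Real.log x'⌋₊ with hl
  have hl1 : (l : ℝ) ≤ e * Real.log x' := Nat.floor_le (by positivity)
  have hl2 : l ≤ ⌊ε * Real.log x⌋₊ := Nat.floor_le_floor hεlog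
  have hfloorx : ((⌊ε * Real.log x⌋₊ : ℕ) : ℝ) ≤ ε * Real.log x := Nat.floor_le (by positivity)
  -- the quantities
  have hquant : x * Real.exp (-((1 + Real.exp (C * (2 * ε + |lam0|))) *
      Real.exp (max C0 (2 * C) * L))) ≤ (x' : ℝ) * Real.exp (-Real.exp (C * lam)) := by
    have h0 : Real.exp (2 * C * L) ≤ Real.exp (max C0 (2 * C) * L) :=
      Real.exp_le_exp.2 (mul_le_mul_of_nonneg_right (le_max_right _ _) hL)
    have h1 : Real.exp (C * lam) = Real.exp (C * (2 * ε + |lam0|)) * Real.exp (2 * C * L) := by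
      rw [← Real.exp_add]; congr 1; rw [hlam]; ring
    have h2 : (1 : ℝ) ≤ Real.exp (2 * C * L) := Real.one_le_exp (by positivity)
    have h3 : -((1 + Real.exp (C * (2 * ε + |lam0|))) * Real.exp (max C0 (2 * C) * L))
        ≤ -1 + -Real.exp (C * lam) := by
      have h4 : (1 + Real.exp (C * (2 * ε + |lam0|))) * Real.exp (2 * C * L)
          ≤ (1 + Real.exp (C * (2 * ε + |lam0|))) * Real.exp (max C0 (2 * C) * L) :=
        mul_le_mul_of_nonneg_left h0 (by positivity)
      rw [h1]
      linarith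
    have h4 : Real.exp (-((1 + Real.exp (C * (2 * ε + |lam0|))) * Real.exp (max C0 (2 * C) * L)))
        ≤ Real.exp (-1) * Real.exp (-Real.exp (C * lam)) := by
      rw [← Real.exp_add]; exact Real.exp_le_exp.2 h3
    have h5 : Real.exp (-1) ≤ 1 / 2 := by
      rw [Real.exp_neg]
      have : (2 : ℝ) ≤ Real.exp 1 := by
        have := Real.add_one_le_exp (1 : ℝ)
        linarith
      rw [one_div]
      exact inv_anti₀ (by norm_num) this
    have h6 : 0 < Real.exp (-Real.exp (C * lam)) := Real.exp_pos _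
    calc x * Real.exp (-((1 + Real.exp (C * (2 * ε + |lam0|))) * Real.exp (max C0 (2 * C) * L)))
        ≤ x * (1 / 2 * Real.exp (-Real.exp (C * lam))) := by
          refine mul_le_mul_of_nonneg_left (h4.trans ?_) hxpos.le
          exact mul_le_mul_of_nonneg_right h5 h6.le
      _ = (x / 2) * Real.exp (-Real.exp (C * lam)) := by ring
      _ ≤ _ := mul_le_mul_of_nonneg_right (by linarith) h6.le
  refine hquant.trans (key.trans ?_)
  rw [← Set.ncard_coe_finset]
  refine Nat.cast_le.2 (Set.ncard_le_ncard ?_ ?_)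
  swap
  · refine (Set.finite_Iic x').subset ?_
    intro n hn
    exact Nat.le_floor hn.1
  intro n hn
  rw [mem_coe, mem_filter, mem_Ioc] at hn
  obtain ⟨⟨_, hnx⟩, hW, hrich, hupper, hδn⟩ := hn
  have hin : ∀ h ∈ H, ∀ q : ℕ, q.Prime → n + h < q → q ≤ n + h + ⌊ε * Real.log x⌋₊ →
      q ≤ n + h + l := by
    intro h hh q hq h1 h2
    have h2' : (q : ℝ) ≤ (n : ℝ) + h + ⌊ε * Real.log x⌋₊ := by exact_mod_cast h2
    have h3 := hHlam h hh
    obtain ⟨h', hh', h4, h5⟩ := wd_use hW hq (by omega) (by linarith)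
    have h5' : (q : ℝ) ≤ (n : ℝ) + h' + l := by exact_mod_cast h5
    have h4' : (n : ℝ) + h' < q := by exact_mod_cast h4
    have h1' : (n : ℝ) + h < q := by exact_mod_cast h1
    have heq : h' = h := by
      rcases lt_trichotomy h' h with hlt | heq | hgt
      · have := hsep h' hh' h hh hlt
        exfalso
        linarith
      · exact heq
      · have := hsep h hh h' hh' hgt
        exfalso
        linarith
    rw [heq] at h5
    exact h5
  have hpc : ∀ h ∈ H, pc (n + h) (ε * Real.log x) = np n h l := fun h hh =>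
    pc_eq_np hfl1 hl2 (hin h hh)
  refine ⟨(by exact_mod_cast hnx : (n : ℝ) ≤ (x' : ℝ)).trans hfl1, ?_, ?_, ?_, ?_⟩
  · intro q hq hnq hqle
    obtain ⟨h, hh, h1, h2⟩ := wd_use hW hq hnq (by linarith)
    refine ⟨h, hh, h1, ?_⟩
    have h2' : (q : ℝ) ≤ (n : ℝ) + h + l := by exact_mod_cast h2
    linarith
  · have h1 : H.filter (fun h => R ≤ (pc (n + h) (ε * Real.log x) : ℝ))
        = H.filter (fun h => R ≤ (np n h l : ℝ)) :=
      Finset.filter_congr fun h hh => by rw [hpc h hh]
    rw [h1]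
    refine le_trans ?_ hrich
    exact mul_le_mul_of_nonneg_right (min_le_left _ _)
      (mul_nonneg (le_min zero_le_one hR.le) (Nat.cast_nonneg _))
  · intro h hh
    rw [hpc h hh]
    refine (hupper h hh).trans (max_le_max le_rfl ?_)
    exact mul_le_mul_of_nonneg_right (le_max_left _ _) (by positivity)
  · intro q q' hq hq' hnq hqq' hq'le
    obtain ⟨i, rfl⟩ := Nat.exists_eq_add_of_lt hnq
    obtain ⟨j, rfl⟩ := Nat.exists_eq_add_of_lt (hnq.trans hqq')
    have h1 : ((j + 1 : ℕ) : ℝ) ≤ lam * Real.log x' := by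
      have e1 : ((n + j + 1 : ℕ) : ℝ) = (n : ℝ) + ((j + 1 : ℕ) : ℝ) := by
        push_cast
        ring
      rw [e1] at hq'le
      linarith
    have h2 := hδn (i + 1) (j + 1) (by omega) (by omega) h1
      (by rw [← add_assoc]; exact hq) (by rw [← add_assoc]; exact hq')
    have h3 : δ / 2 * Real.log x ≤ δ * Real.log x' := by
      have h4 : δ / 2 * Real.log x ≤ δ / 2 * (2 * Real.log x') :=
        mul_le_mul_of_nonneg_left hlog2 (by positivity)
      linarith
    push_cast at h2 ⊢
    linarith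

end Pool.Agent.Helper7.PX
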