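import Pool.Agent.Helper7.PX.Goals
import Pool.Agent.Helper28.RR.RA

/-!
Packet RA of project PX (MP_69be96_nt): the part of large cost is very small; adapted from
`Pool/Agent/Helper28/RR/RA.lean`.
-/

set_option autoImplicit false

open Finset
open scoped Classical

namespace Pool.Agent.Helper7.PX

open Pool.Agent.Helper88.RR

open Pool.Agent.Helper28.RR (nz_update)

theorem ra : StmtRA := by
  intro ι _ _ S e w g o M m j h0 he hw ho hg0 hg1 hjm hmu
  set Ω : Finset (ι → ℕ) := Fintype.piFinset (fun _ : ι => insert 0 S) with hΩ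
  set cost : (ι → ℕ) → ℕ := fun r => ∑ i, (if r i = 0 then 0 else e (r i)) with hcost
  set P : (ι → ℕ) → ℝ := fun r => g (nz r) * ∏ i, (if r i = 0 then 1 else w i (r i)) with hP
  have hnz : ∀ r : ι → ℕ, nz r ≤ Fintype.card ι := by
    intro r
    unfold nz
    exact Finset.card_le_univ _
  have hprod0 : ∀ r : ι → ℕ, 0 ≤ ∏ i, (if r i = 0 then (1 : ℝ) else w i (r i)) := by
    intro r
    refine Finset.prod_nonneg fun i _ => ?_
    split_ifs
    · exact zero_le_one
    · exact hw _ _
  have hPnn : ∀ r, 0 ≤ P r := fun r => mul_nonneg (hg0 _ (hnz r)) (hprod0 r)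
  set A : ℕ → Finset (ι → ℕ) := fun k => Ω.filter (fun r => cost r ≤ M ∧ M < cost r + k * m)
    with hA
  set B : Finset (ι → ℕ) := Ω.filter (fun r => cost r ≤ M) with hB
  set mu : ℝ := o * ∑ i, ∑ r ∈ S, (e r : ℝ) * w i r with hmudef
  have hAB : ∀ k, A k ⊆ B := by
    intro k r hr
    rw [hA] at hr
    rw [hB, Finset.mem_filter]
    rw [Finset.mem_filter] at hr
    exact ⟨hr.1, hr.2.1⟩
  -- one step
  have hstep : ∀ k : ℕ, ((M : ℝ) - k * m) * ∑ r ∈ A k, P r ≤ mu * ∑ r ∈ A (k + 1), P r := by
    intro k
    have h1 : ((M : ℝ) - k * m) * ∑ r ∈ A k, P r ≤ ∑ r ∈ A k, (cost r : ℝ) * P r := by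
      rw [Finset.mul_sum]
      refine Finset.sum_le_sum fun r hr => ?_
      refine mul_le_mul_of_nonneg_right ?_ (hPnn r)
      rw [hA, Finset.mem_filter] at hr
      have h2 : (M : ℝ) < (cost r : ℝ) + k * m := by exact_mod_cast hr.2.2
      linarith
    have h2 : ∀ i : ι, ∑ r ∈ A k, ((if r i = 0 then 0 else e (r i) : ℕ) : ℝ) * P r ≤
        (o * ∑ s ∈ S, (e s : ℝ) * w i s) * ∑ r ∈ A (k + 1), P r := by
      intro i
      have hsplit : ∀ r : ι → ℕ, r i ≠ 0 → P r ≤ o * w i (r i) * P (Function.update r i 0) := by
        intro r hr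
        have e1 : ∏ i, (if r i = 0 then (1 : ℝ) else w i (r i)) =
            w i (r i) * ∏ j, (if Function.update r i 0 j = 0 then (1 : ℝ)
              else w j (Function.update r i 0 j)) := by
          rw [← Finset.mul_prod_erase Finset.univ _ (Finset.mem_univ i),
            ← Finset.mul_prod_erase Finset.univ (fun j => if Function.update r i 0 j = 0
              then (1 : ℝ) else w j (Function.update r i 0 j)) (Finset.mem_univ i)]
          rw [if_neg hr, Function.update_self, if_pos rfl, one_mul]
          congr 1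
          refine Finset.prod_congr rfl fun j hj => ?_
          rw [Function.update_of_ne (Finset.ne_of_mem_erase hj)]
        have e2 := nz_update r i hr
        have e3 : nz (Function.update r i 0) < Fintype.card ι := by
          have := hnz r
          omega
        have e4 := hg1 _ e3
        change g (nz r) * ∏ i, (if r i = 0 then (1 : ℝ) else w i (r i)) ≤
          o * w i (r i) * (g (nz (Function.update r i 0)) *
            ∏ j, (if Function.update r i 0 j = 0 then (1 : ℝ) else w j (Function.update r i 0 j)))
        rw [e1, e2]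
        have e5 := mul_le_mul_of_nonneg_right e4
          (mul_nonneg (hw i (r i)) (hprod0 (Function.update r i 0)))
        calc _ ≤ _ := e5
          _ = _ := by ring
      have hceq : ∀ r : ι → ℕ, r i ≠ 0 → cost r = e (r i) + cost (Function.update r i 0) := by
        intro r hr
        simp only [hcost]
        rw [← Finset.add_sum_erase Finset.univ _ (Finset.mem_univ i),
          ← Finset.add_sum_erase Finset.univ (fun j => if Function.update r i 0 j = 0 then 0
            else e (Function.update r i 0 j)) (Finset.mem_univ i)]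
        rw [if_neg hr, Function.update_self, if_pos rfl, zero_add]
        congr 1
        refine Finset.sum_congr rfl fun j hj => ?_
        rw [Function.update_of_ne (Finset.ne_of_mem_erase hj)]
      set φ : (ι → ℕ) → ℕ × (ι → ℕ) := fun r => (r i, Function.update r i 0) with hφ
      set G : ℕ × (ι → ℕ) → ℝ := fun y => o * ((e y.1 : ℝ) * w i y.1) * P y.2 with hG
      have hinj : Function.Injective φ := by
        intro r r' hrr
        have e1 : r i = r' i := congrArg Prod.fst hrr
        have e2 : Function.update r i 0 = Function.update r' i 0 := congrArg Prod.snd hrr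
        funext j
        by_cases hj : j = i
        · rw [hj]; exact e1
        · have := congrFun e2 j
          rwa [Function.update_of_ne hj, Function.update_of_ne hj] at this
      calc ∑ r ∈ A k, ((if r i = 0 then 0 else e (r i) : ℕ) : ℝ) * P r
          = ∑ r ∈ (A k).filter (fun r => r i ≠ 0),
              ((if r i = 0 then 0 else e (r i) : ℕ) : ℝ) * P r := by
            symm
            refine Finset.sum_filter_of_ne fun r _ hne h => hne ?_
            rw [if_pos h]
            simp
        _ ≤ ∑ r ∈ (A k).filter (fun r => r i ≠ 0), G (φ r) := by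
            refine Finset.sum_le_sum fun r hr => ?_
            have hr0 : r i ≠ 0 := (Finset.mem_filter.1 hr).2
            simp only [hG, hφ]
            rw [if_neg hr0]
            have := mul_le_mul_of_nonneg_left (hsplit r hr0) (Nat.cast_nonneg (e (r i)) (α := ℝ))
            calc _ ≤ _ := this
              _ = _ := by ring
        _ = ∑ y ∈ ((A k).filter (fun r => r i ≠ 0)).image φ, G y := by
            rw [Finset.sum_image (fun a _ b _ h => hinj h)]
        _ ≤ ∑ y ∈ S ×ˢ A (k + 1), G y := by
            refine Finset.sum_le_sum_of_subset_of_nonneg ?_ fun y _ _ =>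
              mul_nonneg (mul_nonneg ho (mul_nonneg (Nat.cast_nonneg _) (hw _ _))) (hPnn _)
            intro y hy
            rw [Finset.mem_image] at hy
            obtain ⟨r, hr, rfl⟩ := hy
            rw [Finset.mem_filter] at hr
            obtain ⟨hrB, hr0⟩ := hr
            rw [hA, Finset.mem_filter, hΩ, Fintype.mem_piFinset] at hrB
            have hrS : r i ∈ S := by
              have := hrB.1 i
              rw [Finset.mem_insert] at this
              exact this.resolve_left hr0
            rw [Finset.mem_product]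
            refine ⟨hrS, ?_⟩
            show Function.update r i 0 ∈ A (k + 1)
            rw [hA, Finset.mem_filter, hΩ, Fintype.mem_piFinset]
            have hc := hceq r hr0
            have hei := he (r i) hrS
            have h3 := hrB.2.1
            have h4 := hrB.2.2
            refine ⟨fun j => ?_, by omega, ?_⟩
            · by_cases hj : j = i
              · rw [hj, Function.update_self]
                exact Finset.mem_insert_self _ _
              · rw [Function.update_of_ne hj]
                exact hrB.1 j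
            · have h5 : (k + 1) * m = k * m + m := by ring
              rw [h5]
              omega
        _ = (o * ∑ s ∈ S, (e s : ℝ) * w i s) * ∑ r ∈ A (k + 1), P r := by
            have h6 : o * ∑ s ∈ S, (e s : ℝ) * w i s = ∑ s ∈ S, o * ((e s : ℝ) * w i s) :=
              Finset.mul_sum _ _ _
            rw [h6, Finset.sum_product, Finset.sum_mul_sum]
    refine h1.trans ?_
    calc ∑ r ∈ A k, (cost r : ℝ) * P r
        = ∑ r ∈ A k, ∑ i, ((if r i = 0 then 0 else e (r i) : ℕ) : ℝ) * P r := by
          refine Finset.sum_congr rfl fun r _ => ?_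
          rw [← Finset.sum_mul]
          congr 1
          simp only [hcost]
          rw [Nat.cast_sum]
      _ = ∑ i, ∑ r ∈ A k, ((if r i = 0 then 0 else e (r i) : ℕ) : ℝ) * P r := Finset.sum_comm
      _ ≤ ∑ i : ι, (o * ∑ s ∈ S, (e s : ℝ) * w i s) * ∑ r ∈ A (k + 1), P r :=
          Finset.sum_le_sum fun i _ => h2 i
      _ = mu * ∑ r ∈ A (k + 1), P r := by
          rw [← Finset.sum_mul, ← Finset.mul_sum, hmudef]
  have hS0 : ∀ k, 0 ≤ ∑ r ∈ A k, P r := fun k => Finset.sum_nonneg fun r _ => hPnn r
  have hA1 : (Ω.filter (fun r => cost r ≤ M ∧ M < cost r + m)) = A 1 := by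
    rw [hA]
    refine Finset.filter_congr fun r _ => ?_
    rw [one_mul]
  have hle : ∀ k, ∑ r ∈ A k, P r ≤ ∑ r ∈ B, P r := fun k =>
    Finset.sum_le_sum_of_subset_of_nonneg (hAB k) fun r _ _ => hPnn r
  show (2 : ℝ) ^ j * ∑ r ∈ Ω.filter (fun r => cost r ≤ M ∧ M < cost r + m), P r ≤
    ∑ r ∈ B, P r
  rw [hA1]
  rcases Nat.eq_zero_or_pos M with hM | hM
  · -- `M = 0`
    rcases Nat.eq_zero_or_pos (j * m) with h3 | h3
    · rcases Nat.mul_eq_zero.1 h3 with h4 | h4
      · rw [h4, pow_zero, one_mul]
        exact hle 1
      · have h5 : A 1 = ∅ := by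
          rw [hA]
          refine Finset.filter_eq_empty_iff.2 fun r _ h6 => ?_
          rw [h4] at h6
          omega
        rw [h5, Finset.sum_empty, mul_zero]
        exact Finset.sum_nonneg fun r _ => hPnn r
    · omega
  · have hM0 : (0 : ℝ) < M := by exact_mod_cast hM
    have h3 : ∀ k, k ≤ j → 2 * ∑ r ∈ A k, P r ≤ ∑ r ∈ A (k + 1), P r := by
      intro k hk
      have h4 := hstep k
      have h5 : (k : ℝ) * m ≤ M / 2 := by
        have h6 : 2 * (k * m) ≤ M := (Nat.mul_le_mul_left 2 (Nat.mul_le_mul_right m hk)).trans hjm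
        have h7 : (2 : ℝ) * (k * m) ≤ M := by exact_mod_cast h6
        linarith
      have h8 : (M : ℝ) / 2 * ∑ r ∈ A k, P r ≤ ((M : ℝ) - k * m) * ∑ r ∈ A k, P r :=
        mul_le_mul_of_nonneg_right (by linarith) (hS0 k)
      have h9 : mu * ∑ r ∈ A (k + 1), P r ≤ (M : ℝ) / 4 * ∑ r ∈ A (k + 1), P r :=
        mul_le_mul_of_nonneg_right (by linarith) (hS0 _)
      have h10 : (M : ℝ) / 4 * (2 * ∑ r ∈ A k, P r) ≤ (M : ℝ) / 4 * ∑ r ∈ A (k + 1), P r := by
        linarith
      exact le_of_mul_le_mul_left h10 (by positivity)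
    have h4 : ∀ i, i ≤ j → (2 : ℝ) ^ i * ∑ r ∈ A 1, P r ≤ ∑ r ∈ A (i + 1), P r := by
      intro i
      induction i with
      | zero => intro _; simp
      | succ i ih =>
        intro hi
        have h5 := ih (by omega)
        have h6 := h3 (i + 1) hi
        calc (2 : ℝ) ^ (i + 1) * ∑ r ∈ A 1, P r = 2 * ((2 : ℝ) ^ i * ∑ r ∈ A 1, P r) := by ring
          _ ≤ 2 * ∑ r ∈ A (i + 1), P r := by linarith
          _ ≤ _ := h6
    exact (h4 j le_rfl).trans (hle _)

end Pool.Agent.Helper7.PX
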