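import Pool.Agent.Helper7.PX.CB
import Pool.Agent.Helper7.PX.FU
import Pool.Agent.Helper7.PX.ZU
import Pool.Agent.Helper12.PX.MS
import Pool.Agent.Helper94.PX.MJ
import Pool.Agent.Helper39.PX.LW
import Pool.Agent.Helper53.PX.RC
import Pool.Agent.Helper86.PX.SU
import Pool.Agent.Helper13.PX.FD
import Pool.Agent.Helper32.PX.FC
import Pool.Agent.Helper77.PX.TL
import Pool.Agent.Helper95.PX.KQ
import Pool.Agent.Helper30.PX.PB
import Pool.Agent.Helper69.PX.CM
import Pool.Agent.Helper82.PX.LB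
import Pool.Agent.Helper19.PX.EX
import Pool.Agent.Helper49.PX.CL
import Pool.Agent.Helper13.CG.VA
import Pool.Agent.Helper9.CG.VK
import Pool.Agent.Helper2.CG.BI
import Pool.Agent.Helper5.CG.TF
import Pool.Agent.Helper55.CG.BW
import Pool.Agent.Helper49.CG.VI
import Pool.Agent.Helper37.CG.TA
import Pool.Agent.Helper25.CG.T1
import Pool.Agent.Helper58.CG.RB
import Pool.Agent.Helper88.TU.TE
import Pool.Agent.Helper10.TU.BH
import Pool.Agent.Helper57.TU.BM
import Pool.Agent.Helper51.TU.TL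
import Pool.Agent.Helper60.TU.EB
import Pool.Agent.Helper16.TU.TG
import Pool.Agent.Helper80.TU.BT
import Pool.Agent.Helper70.TU.CO
import Pool.Agent.Helper46.TU.ER
import Pool.Agent.Helper61.CG.A1
import Pool.Agent.Helper5.CG.A3
import Pool.Agent.Helper56.TU.A4

/-! # THEOREM U: the assembly

The imports are only the files which are used (not `Pool.Agent.Helper88.TU.Main`), to keep the build
short. -/

set_option autoImplicit false

namespace Pool.Agent.Helper7.PX

/-! ## From the library -/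

theorem lRB : Pool.Agent.Helper88.CG.StmtRB :=
  Pool.Agent.Helper58.CG.rb
    (Pool.Agent.Helper55.CG.bw
      (Pool.Agent.Helper2.CG.bi (Pool.Agent.Helper9.CG.vk Pool.Agent.Helper13.CG.va))
      Pool.Agent.Helper5.CG.tf)
    Pool.Agent.Helper49.CG.vi Pool.Agent.Helper37.CG.ta Pool.Agent.Helper25.CG.t1

theorem lTL : Pool.Agent.Helper88.TU.StmtTL :=
  Pool.Agent.Helper51.TU.tl Pool.Agent.Helper10.TU.bh Pool.Agent.Helper57.TU.bm

theorem lTG : Pool.Agent.Helper88.TU.StmtTG := Pool.Agent.Helper16.TU.tg lTL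

theorem lEB : Pool.Agent.Helper88.TU.StmtEB :=
  Pool.Agent.Helper60.TU.eb Pool.Agent.Helper10.TU.bh Pool.Agent.Helper57.TU.bm lTL

theorem lER : Pool.Agent.Helper88.TU.StmtER :=
  Pool.Agent.Helper46.TU.er lEB (Pool.Agent.Helper88.TU.te lRB) Pool.Agent.Helper57.TU.bm

theorem lCO : Pool.Agent.Helper88.TU.StmtCO := Pool.Agent.Helper70.TU.co lTG

theorem lBT : Pool.Agent.Helper88.TU.StmtBT := Pool.Agent.Helper80.TU.bt lTG

/-! ## The weight -/

theorem mMS : StmtMS := Pool.Agent.Helper12.PX.ms lTG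

theorem mMJ : StmtMJ := Pool.Agent.Helper94.PX.mj lTG

theorem mLW : StmtLW := Pool.Agent.Helper39.PX.lw lER

theorem mRC : StmtRC := Pool.Agent.Helper53.PX.rc lTG

theorem mSU : StmtSU := Pool.Agent.Helper86.PX.su

theorem mFD : StmtFD := Pool.Agent.Helper13.PX.fd

theorem mFC : StmtFC := Pool.Agent.Helper32.PX.fc

theorem mTL : StmtTL := Pool.Agent.Helper77.PX.tl

theorem mKQ : StmtKQ := Pool.Agent.Helper95.PX.kq mMJ mFD mFC mTL

theorem mPB : StmtPB := Pool.Agent.Helper30.PX.pb mMJ mFD mFC mTL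

theorem mCM : StmtCM := Pool.Agent.Helper69.PX.cm mTL

theorem mLB : StmtLB := Pool.Agent.Helper82.PX.lb mLW mFD mFC mTL mCM lCO

theorem mEX : StmtEX := Pool.Agent.Helper19.PX.ex mKQ mRC mSU mTL

theorem mCL : StmtCL :=
  Pool.Agent.Helper49.PX.cl lBT Pool.Agent.Helper61.CG.a1 Pool.Agent.Helper5.CG.a3
    Pool.Agent.Helper56.TU.a4

theorem mCB : StmtCB := cb mCL mTL mMS mLB mPB mEX

/-! ## The theorem -/

theorem mFU : StmtFU := fu mCB

/-- THEOREM U -/
theorem mZU : StmtZU := zu mFU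

end Pool.Agent.Helper7.PX
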