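import Pool.Agent.Helper7.PX.Goals4
import Pool.Agent.Helper85.PX.FA
import Pool.Agent.Helper91.PX.FB

/-! # Selection: from moments to the numbers of primes in the blocks -/

set_option autoImplicit false

open Finset Filter Topology

open scoped Classical

namespace Pool.Agent.Helper7.PX

open Pool.Agent.Helper85.PX (mul_pred_nonneg np2_self one_block)
open Pool.Agent.Helper91.PX (sum_pairs)

/-- the statement for one pair `(M, R)` -/
def Sl (κ c1 C1 c0 C0 : ℝ) (M : ℕ) (R : ℝ) : Prop := ∃ R1 p : ℝ, 0 < R1 ∧ 0 < p ∧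
  ∀ (S : Finset ℕ) (w : ℕ → ℝ) (D η : ℝ) (H H' : Finset ℕ) (l : ℕ), H.card = M → H' ⊆ H →
  κ * M ≤ (H'.card : ℝ) → (∀ h ∈ H, ∀ h' ∈ H, h < h' → h + l ≤ h') → 0 < D → η ≤ 1 →
  (∀ n, 0 ≤ w n) → ∑ n ∈ S, w n ≤ (1 + η) * D →
  (∀ h ∈ H', c1 * R1 * D ≤ ∑ n ∈ S, w n * (np n h l : ℝ)) →
  (∀ h ∈ H', ∀ h' ∈ H', ∑ n ∈ S, w n * (np2 n h h' l : ℝ) ≤ C1 * R1 ^ 2 * D) →
  ∃ Φ : ℕ → ℝ, (∀ n, Φ n ≤ 1) ∧ p * D ≤ ∑ n ∈ S, w n * Φ n ∧ ∀ n, 0 < Φ n →
    c0 * (min 1 R * M) ≤ ((H'.filter (fun h => R ≤ (np n h l : ℝ))).card : ℝ) ∧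
    ∀ h ∈ H', (np n h l : ℝ) ≤ max 1 (C0 * (R * √(M : ℝ)))

lemma Sl.mono {κ c1 C1 c0 C0 c0' C0' : ℝ} {M : ℕ} {R : ℝ} (hR : 0 < R) (h0 : c0' ≤ c0)
    (h1 : C0 ≤ C0') (h : Sl κ c1 C1 c0 C0 M R) : Sl κ c1 C1 c0' C0' M R := by
  obtain ⟨R1, p, hR1, hp, h⟩ := h
  refine ⟨R1, p, hR1, hp, fun S w D η H H' l a1 a2 a3 a4 a5 a6 a7 a8 a9 a10 => ?_⟩
  obtain ⟨Φ, b1, b2, b3⟩ := h S w D η H H' l a1 a2 a3 a4 a5 a6 a7 a8 a9 a10
  refine ⟨Φ, b1, b2, fun n hn => ?_⟩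
  obtain ⟨b4, b5⟩ := b3 n hn
  have hmR : 0 ≤ min 1 R * (M : ℝ) := mul_nonneg (le_min zero_le_one hR.le) (Nat.cast_nonneg _)
  refine ⟨le_trans (mul_le_mul_of_nonneg_right h0 hmR) b4, fun h hh => (b5 h hh).trans ?_⟩
  exact max_le_max le_rfl (mul_le_mul_of_nonneg_right h1 (by positivity))

/-- the bad blocks -/
noncomputable def bd (H' : Finset ℕ) (l : ℕ) (m : ℝ) (n : ℕ) : ℝ :=
  2 / m ^ 2 * ∑ h ∈ H', (np n h l : ℝ) * ((np n h l : ℝ) - 1)

lemma bd_nonneg (H' : Finset ℕ) (l : ℕ) (m : ℝ) (n : ℕ) : 0 ≤ bd H' l m n :=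
  mul_nonneg (by positivity) (Finset.sum_nonneg fun h _ => mul_pred_nonneg _)

lemma bd_use {H' : Finset ℕ} {l : ℕ} {m : ℝ} {n : ℕ} (hm : 1 ≤ m) (h : bd H' l m n < 1) :
    ∀ h ∈ H', (np n h l : ℝ) ≤ m := by
  intro h0 hh
  by_contra hcon
  push Not at hcon
  have h1 : (1 : ℝ) < (np n h0 l : ℝ) := lt_of_le_of_lt hm hcon
  have h2 : 2 ≤ np n h0 l := by
    have h3 : 1 < np n h0 l := by exact_mod_cast h1
    omega
  have h2' : (2 : ℝ) ≤ (np n h0 l : ℝ) := by exact_mod_cast h2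
  have h3 : (np n h0 l : ℝ) * ((np n h0 l : ℝ) - 1)
      ≤ ∑ h ∈ H', (np n h l : ℝ) * ((np n h l : ℝ) - 1) :=
    Finset.single_le_sum (f := fun h => (np n h l : ℝ) * ((np n h l : ℝ) - 1))
      (fun h _ => mul_pred_nonneg _) hh
  have h4 : m ^ 2 / 2 ≤ (np n h0 l : ℝ) * ((np n h0 l : ℝ) - 1) := by nlinarith
  have hm2 : 0 < m ^ 2 := by positivity
  have h5 : 2 / m ^ 2 * (m ^ 2 / 2) ≤ bd H' l m n :=
    mul_le_mul_of_nonneg_left (h4.trans h3) (by positivity)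
  have h6 : 2 / m ^ 2 * (m ^ 2 / 2) = 1 := by field_simp
  linarith

lemma bd_sum {S : Finset ℕ} {w : ℕ → ℝ} {D C1 R1 : ℝ} {H' : Finset ℕ} {l M : ℕ} {m y : ℝ}
    (hm : 0 < m) (hM : H'.card ≤ M) (hC1 : 0 ≤ C1) (hD : 0 < D)
    (h2 : ∀ h ∈ H', ∀ h' ∈ H', ∑ n ∈ S, w n * (np2 n h h' l : ℝ) ≤ C1 * R1 ^ 2 * D)
    (hy : 2 * (M * (C1 * R1 ^ 2)) ≤ y * m ^ 2) :
    ∑ n ∈ S, w n * bd H' l m n ≤ y * D := by
  have h3 : ∑ n ∈ S, w n * bd H' l m n
      = 2 / m ^ 2 * ∑ h ∈ H', ∑ n ∈ S, w n * (np2 n h h l : ℝ) := by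
    rw [Finset.sum_comm, Finset.mul_sum]
    refine Finset.sum_congr rfl fun n _ => ?_
    rw [bd, ← Finset.mul_sum]
    simp only [np2_self]
    ring
  rw [h3]
  have hm2 : 0 < m ^ 2 := by positivity
  have h4 : ∑ h ∈ H', ∑ n ∈ S, w n * (np2 n h h l : ℝ) ≤ M * (C1 * R1 ^ 2 * D) := by
    calc ∑ h ∈ H', ∑ n ∈ S, w n * (np2 n h h l : ℝ) ≤ ∑ _h ∈ H', C1 * R1 ^ 2 * D :=
          Finset.sum_le_sum fun h hh => h2 h hh h hh
      _ = H'.card * (C1 * R1 ^ 2 * D) := by rw [Finset.sum_const, nsmul_eq_mul]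
      _ ≤ M * (C1 * R1 ^ 2 * D) :=
          mul_le_mul_of_nonneg_right (by exact_mod_cast hM) (by positivity)
  calc 2 / m ^ 2 * ∑ h ∈ H', ∑ n ∈ S, w n * (np2 n h h l : ℝ)
      ≤ 2 / m ^ 2 * (M * (C1 * R1 ^ 2 * D)) := mul_le_mul_of_nonneg_left h4 (by positivity)
    _ = 2 * (M * (C1 * R1 ^ 2)) / m ^ 2 * D := by ring
    _ ≤ y * D := by
        refine mul_le_mul_of_nonneg_right ?_ hD.le
        rw [div_le_iff₀ hm2]
        exact hy

/-- the square of the size of the blocks -/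
lemma m_sq {C0 R : ℝ} {M : ℕ} (hC : 0 ≤ C0) (hR : 0 ≤ R) :
    C0 ^ 2 * (R ^ 2 * M) ≤ (max 1 (C0 * (R * √(M : ℝ)))) ^ 2 := by
  have h1 : 0 ≤ C0 * (R * √(M : ℝ)) := by positivity
  calc C0 ^ 2 * (R ^ 2 * M) = (C0 * (R * √(M : ℝ))) ^ 2 := by
        rw [mul_pow, mul_pow, Real.sq_sqrt (Nat.cast_nonneg _)]
    _ ≤ _ := pow_le_pow_left₀ h1 (le_max_right _ _) 2

/-- case A: `R ≥ 1` -/
lemma selA {κ c1 C1 : ℝ} (hκ : 0 < κ) (hc1 : 0 < c1) (hc11 : c1 ≤ 1) (hC1 : 1 ≤ C1) :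
    ∃ c0 C0 : ℝ, 0 < c0 ∧ 0 < C0 ∧ ∀ (M : ℕ) (R : ℝ), 1 ≤ M → 1 ≤ R → Sl κ c1 C1 c0 C0 M R := by
  have hC10 : 0 < C1 := by linarith
  set c2 : ℝ := c1 ^ 2 / (64 * C1) with hc2
  have hc20 : 0 < c2 := by positivity
  set q : ℝ := c2 * κ with hq
  have hq0 : 0 < q := by positivity
  set C0 : ℝ := √(2048 * C1 / (c1 ^ 2 * q)) with hC0
  have hC00 : 0 < C0 := Real.sqrt_pos.2 (by positivity)
  have hC02 : C0 ^ 2 = 2048 * C1 / (c1 ^ 2 * q) := Real.sq_sqrt (by positivity)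
  refine ⟨q / 8, C0, by positivity, hC00, fun M R hM hR => ?_⟩
  have hMr : (1 : ℝ) ≤ M := by exact_mod_cast hM
  set k : ℕ := ⌈R⌉₊ with hk
  have hk1 : R ≤ k := Nat.le_ceil _
  have hk2 : (k : ℝ) ≤ 2 * R := by
    have := Nat.ceil_lt_add_one (by linarith : (0 : ℝ) ≤ R)
    linarith
  refine ⟨8 * k / c1, q / 4, by positivity, by positivity, ?_⟩
  intro S w D η H H' l hHM hH' hκM _ hD hη hw h1 h2 h3
  set R1 : ℝ := 8 * k / c1 with hR1
  have hR8 : 8 ≤ R1 := by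
    rw [hR1, le_div_iff₀ hc1]
    nlinarith
  have hR1R : R1 ≤ 16 * R / c1 := by
    rw [hR1]
    exact div_le_div_of_nonneg_right (by linarith) hc1.le
  have hR10 : 0 < R1 := by linarith
  have hcard : H'.card ≤ M := by
    rw [← hHM]
    exact Finset.card_le_card hH'
  have hcard' : (H'.card : ℝ) ≤ M := by exact_mod_cast hcard
  set m : ℝ := max 1 (C0 * (R * √(M : ℝ))) with hm
  have hm1 : 1 ≤ m := le_max_left _ _
  set I : ℕ → ℕ → ℝ := fun h n => if k ≤ np n h l then (1 : ℝ) else 0 with hI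
  have hblock : ∀ h ∈ H', c2 * D ≤ ∑ n ∈ S, w n * I h n := by
    intro h hh
    refine one_block S w (fun n => np n h l) k c1 C1 R1 D η hw hc1 hc11 hC1 hR1 hR8 hD hη h1
      (h2 h hh) ?_
    have h6 := h3 h hh h hh
    refine le_trans (le_of_eq ?_) h6
    refine Finset.sum_congr rfl fun n _ => ?_
    rw [np2_self]
  have hI1 : ∀ h n, I h n ≤ 1 := fun h n => by
    simp only [hI]
    split_ifs <;> norm_num
  have hG : ∀ n, ∑ h ∈ H', I h n = ((H'.filter (fun h => R ≤ (np n h l : ℝ))).card : ℝ) := by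
    intro n
    simp only [hI]
    rw [Finset.sum_boole]
    congr 2
    refine Finset.filter_congr fun h _ => ?_
    rw [hk, Nat.ceil_le]
  have hGM : ∀ n, (∑ h ∈ H', I h n) / M ≤ 1 := by
    intro n
    rw [div_le_one (by linarith)]
    calc ∑ h ∈ H', I h n ≤ ∑ _h ∈ H', (1 : ℝ) := Finset.sum_le_sum fun h _ => hI1 h n
      _ = H'.card := by rw [Finset.sum_const, nsmul_eq_mul, mul_one]
      _ ≤ M := hcard'
  refine ⟨fun n => (∑ h ∈ H', I h n) / M - q / 8 - bd H' l m n, ?_, ?_, ?_⟩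
  · intro n
    have h4 := hGM n
    have h5 := bd_nonneg H' l m n
    show (∑ h ∈ H', I h n) / M - q / 8 - bd H' l m n ≤ 1
    linarith
  · have h6 : ∑ n ∈ S, w n * ((∑ h ∈ H', I h n) / M - q / 8 - bd H' l m n) =
        (∑ h ∈ H', ∑ n ∈ S, w n * I h n) / M - q / 8 * ∑ n ∈ S, w n
          - ∑ n ∈ S, w n * bd H' l m n := by
      rw [Finset.sum_comm, Finset.mul_sum, Finset.sum_div, ← Finset.sum_sub_distrib,
        ← Finset.sum_sub_distrib]
      refine Finset.sum_congr rfl fun n _ => ?_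
      rw [← Finset.mul_sum]
      ring
    have h7 : q * D ≤ (∑ h ∈ H', ∑ n ∈ S, w n * I h n) / M := by
      rw [le_div_iff₀ (by linarith)]
      calc q * D * M = κ * M * (c2 * D) := by rw [hq]; ring
        _ ≤ H'.card * (c2 * D) := mul_le_mul_of_nonneg_right hκM (by positivity)
        _ = ∑ _h ∈ H', c2 * D := by rw [Finset.sum_const, nsmul_eq_mul]
        _ ≤ _ := Finset.sum_le_sum hblock
    have h8 : q / 8 * ∑ n ∈ S, w n ≤ q / 8 * (2 * D) :=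
      mul_le_mul_of_nonneg_left (h1.trans (mul_le_mul_of_nonneg_right (by linarith) hD.le))
        (by positivity)
    have h9 : ∑ n ∈ S, w n * bd H' l m n ≤ q / 4 * D := by
      refine bd_sum (by linarith) hcard hC10.le hD h3 ?_
      have h10 := m_sq (C0 := C0) (R := R) (M := M) hC00.le (by linarith)
      rw [← hm] at h10
      have h11 : R1 ^ 2 ≤ (16 * R / c1) ^ 2 := pow_le_pow_left₀ hR10.le hR1R 2
      calc 2 * (M * (C1 * R1 ^ 2)) ≤ 2 * (M * (C1 * (16 * R / c1) ^ 2)) := by gcongr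
        _ = q / 4 * (C0 ^ 2 * (R ^ 2 * M)) := by
            rw [hC02]
            field_simp
            ring
        _ ≤ q / 4 * m ^ 2 := mul_le_mul_of_nonneg_left h10 (by positivity)
    show q / 4 * D ≤ ∑ n ∈ S, w n * ((∑ h ∈ H', I h n) / M - q / 8 - bd H' l m n)
    rw [h6]
    have h12 : 0 < q * D := by positivity
    linarith
  · intro n hn
    have hn' : 0 < (∑ h ∈ H', I h n) / M - q / 8 - bd H' l m n := hn
    have h4 := hGM n
    have h5 := bd_nonneg H' l m n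
    refine ⟨?_, bd_use hm1 (by linarith)⟩
    rw [min_eq_left hR, ← hG]
    have h6 : q / 8 < (∑ h ∈ H', I h n) / M := by linarith
    rw [lt_div_iff₀ (by linarith)] at h6
    linarith

/-- the number of the blocks with a prime -/
noncomputable def gb (H' : Finset ℕ) (l n : ℕ) : ℝ :=
  ((H'.filter (fun h => 1 ≤ np n h l)).card : ℝ)

lemma gb_le (H' : Finset ℕ) (l n : ℕ) : gb H' l n ≤ ((∑ h ∈ H', np n h l : ℕ) : ℝ) := by
  rw [gb]
  have h1 : (H'.filter (fun h => 1 ≤ np n h l)).card ≤ ∑ h ∈ H', np n h l := by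
    rw [Finset.card_filter]
    refine Finset.sum_le_sum fun h _ => ?_
    split_ifs with h0
    · exact h0
    · exact Nat.zero_le _
  exact_mod_cast h1

lemma le_gb (H' : Finset ℕ) (l n : ℕ) :
    ∑ h ∈ H', ((np n h l : ℝ) - (np2 n h h l : ℝ)) ≤ gb H' l n := by
  rw [gb, Finset.card_filter]
  push_cast
  refine Finset.sum_le_sum fun h _ => ?_
  rw [np2_self]
  have h1 : ∀ N : ℕ, (N : ℝ) - (N : ℝ) * ((N : ℝ) - 1) ≤ if 1 ≤ N then (1 : ℝ) else 0 := by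
    intro N
    split_ifs with h0
    · nlinarith [sq_nonneg ((N : ℝ) - 1)]
    · have h2 : N = 0 := by omega
      subst h2
      simp
  exact h1 _

lemma gb_sq (H' : Finset ℕ) (l n : ℕ) (hd : ∀ h ∈ H', ∀ h' ∈ H', h < h' → h + l ≤ h') :
    gb H' l n ^ 2 ≤ 1 + 2 * ∑ h ∈ H', ∑ h' ∈ H', (np2 n h h' l : ℝ) := by
  have h1 := sum_pairs n l H' hd
  have h2 := gb_le H' l n
  have h3 : 0 ≤ gb H' l n := by rw [gb]; positivity
  set N : ℝ := ((∑ h ∈ H', np n h l : ℕ) : ℝ) with hN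
  have h4 : gb H' l n ^ 2 ≤ N ^ 2 := pow_le_pow_left₀ h3 h2 2
  nlinarith [sq_nonneg (N - 1)]

/-- case B: `R < 1 ≤ R M` -/
lemma selB {κ c1 C1 : ℝ} (hκ : 0 < κ) (hκ1 : κ ≤ 1) (hc1 : 0 < c1)
    (hC1 : 1 ≤ C1) :
    ∃ c0 C0 : ℝ, 0 < c0 ∧ 0 < C0 ∧ ∀ (M : ℕ) (R : ℝ), 1 ≤ M → 0 < R → R < 1 → 1 ≤ R * M →
      Sl κ c1 C1 c0 C0 M R := by
  have hC10 : 0 < C1 := by linarith
  obtain ⟨b, hb⟩ : ∃ b : ℝ, b = κ * c1 / (2 * C1) := ⟨_, rfl⟩
  have hb0 : 0 < b := by rw [hb]; positivity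
  have hbC : C1 * b = κ * c1 / 2 := by rw [hb]; field_simp
  have hκc : κ * c1 ≤ c1 := by nlinarith
  obtain ⟨μ, hμ⟩ : ∃ μ : ℝ, μ = κ * c1 / 2 := ⟨_, rfl⟩
  have hμ0 : 0 < μ := by rw [hμ]; positivity
  obtain ⟨V, hV⟩ : ∃ V : ℝ, V = 2 * C1 + 2 / b ^ 2 := ⟨_, rfl⟩
  have hV0 : 0 < V := by rw [hV]; positivity
  obtain ⟨p, hp⟩ : ∃ p : ℝ, p = μ ^ 2 / (4 * V) := ⟨_, rfl⟩
  have hp0 : 0 < p := by rw [hp]; positivity
  set C0 : ℝ := √(4 * C1 * b ^ 2 / p) with hC0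
  have hC00 : 0 < C0 := Real.sqrt_pos.2 (by positivity)
  have hC02 : C0 ^ 2 = 4 * C1 * b ^ 2 / p := Real.sq_sqrt (by positivity)
  refine ⟨b * μ / 4, C0, by positivity, hC00, fun M R hM hR0 hR1 hRM => ?_⟩
  have hMr : (1 : ℝ) ≤ M := by exact_mod_cast hM
  refine ⟨b * R, p / 2, by positivity, by positivity, ?_⟩
  intro S w D η H H' l hHM hH' hκM hd hD hη hw h1 h2 h3
  have hcard : H'.card ≤ M := by
    rw [← hHM]
    exact Finset.card_le_card hH'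
  have hcard' : (H'.card : ℝ) ≤ M := by exact_mod_cast hcard
  have hd' : ∀ h ∈ H', ∀ h' ∈ H', h < h' → h + l ≤ h' := fun h hh h' hh' =>
    hd h (hH' hh) h' (hH' hh')
  set m : ℝ := max 1 (C0 * (R * √(M : ℝ))) with hm
  have hm1 : 1 ≤ m := le_max_left _ _
  obtain ⟨Y, hY⟩ : ∃ Y : ℝ, Y = b * R * M := ⟨_, rfl⟩
  have hY0 : 0 < Y := by rw [hY]; positivity
  have hYb : b ≤ Y := by rw [hY]; nlinarith
  -- moments of `G`
  have hw2 : ∑ n ∈ S, w n ≤ 2 * D := h1.trans (mul_le_mul_of_nonneg_right (by linarith) hD.le)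
  have hwn : 0 ≤ ∑ n ∈ S, w n := Finset.sum_nonneg fun n _ => hw n
  have hE1 : μ * Y * D ≤ ∑ n ∈ S, w n * gb H' l n := by
    have h4 : ∑ n ∈ S, w n * (∑ h ∈ H', ((np n h l : ℝ) - (np2 n h h l : ℝ)))
        ≤ ∑ n ∈ S, w n * gb H' l n :=
      Finset.sum_le_sum fun n _ => mul_le_mul_of_nonneg_left (le_gb H' l n) (hw n)
    refine le_trans ?_ h4
    have h5 : ∑ n ∈ S, w n * (∑ h ∈ H', ((np n h l : ℝ) - (np2 n h h l : ℝ)))
        = ∑ h ∈ H', (∑ n ∈ S, w n * (np n h l : ℝ) - ∑ n ∈ S, w n * (np2 n h h l : ℝ)) := by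
      rw [Finset.sum_sub_distrib, Finset.sum_comm (s := H'), Finset.sum_comm (s := H'),
        ← Finset.sum_sub_distrib]
      refine Finset.sum_congr rfl fun n _ => ?_
      rw [← Finset.mul_sum, ← Finset.mul_sum, ← mul_sub, Finset.sum_sub_distrib]
    rw [h5]
    have h6 : ∀ h ∈ H', c1 * (b * R) / 2 * D ≤
        ∑ n ∈ S, w n * (np n h l : ℝ) - ∑ n ∈ S, w n * (np2 n h h l : ℝ) := by
      intro h hh
      have h7 := h2 h hh
      have h8 := h3 h hh h hh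
      have h9 : C1 * (b * R) ^ 2 * D ≤ c1 * (b * R) / 2 * D := by
        refine mul_le_mul_of_nonneg_right ?_ hD.le
        calc C1 * (b * R) ^ 2 = (C1 * b) * R * (b * R) := by ring
          _ ≤ c1 / 2 * 1 * (b * R) := by
              rw [hbC]
              gcongr
          _ = c1 * (b * R) / 2 := by ring
      linarith
    calc μ * Y * D = κ * M * (c1 * (b * R) / 2 * D) := by rw [hμ, hY]; ring
      _ ≤ H'.card * (c1 * (b * R) / 2 * D) := mul_le_mul_of_nonneg_right hκM (by positivity)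
      _ = ∑ _h ∈ H', c1 * (b * R) / 2 * D := by rw [Finset.sum_const, nsmul_eq_mul]
      _ ≤ _ := Finset.sum_le_sum h6
  have hE2 : ∑ n ∈ S, w n * gb H' l n ^ 2 ≤ V * Y ^ 2 * D := by
    have h4 : ∑ n ∈ S, w n * gb H' l n ^ 2
        ≤ ∑ n ∈ S, w n * (1 + 2 * ∑ h ∈ H', ∑ h' ∈ H', (np2 n h h' l : ℝ)) :=
      Finset.sum_le_sum fun n _ => mul_le_mul_of_nonneg_left (gb_sq H' l n hd') (hw n)
    have h5 : ∑ n ∈ S, w n * (1 + 2 * ∑ h ∈ H', ∑ h' ∈ H', (np2 n h h' l : ℝ))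
        = ∑ n ∈ S, w n + 2 * ∑ h ∈ H', ∑ h' ∈ H', ∑ n ∈ S, w n * (np2 n h h' l : ℝ) := by
      have h6 : ∑ h ∈ H', ∑ h' ∈ H', ∑ n ∈ S, w n * (np2 n h h' l : ℝ)
          = ∑ n ∈ S, w n * ∑ h ∈ H', ∑ h' ∈ H', (np2 n h h' l : ℝ) := by
        have h7 : ∀ h ∈ H', ∑ h' ∈ H', ∑ n ∈ S, w n * (np2 n h h' l : ℝ)
            = ∑ n ∈ S, w n * ∑ h' ∈ H', (np2 n h h' l : ℝ) := fun h _ => by
          rw [Finset.sum_comm]
          exact Finset.sum_congr rfl fun n _ => by rw [Finset.mul_sum]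
        rw [Finset.sum_congr rfl h7, Finset.sum_comm]
        exact Finset.sum_congr rfl fun n _ => by rw [← Finset.mul_sum]
      rw [h6, Finset.mul_sum, ← Finset.sum_add_distrib]
      refine Finset.sum_congr rfl fun n _ => ?_
      ring
    have h8 : ∑ h ∈ H', ∑ h' ∈ H', ∑ n ∈ S, w n * (np2 n h h' l : ℝ)
        ≤ M * (M * (C1 * (b * R) ^ 2 * D)) := by
      calc ∑ h ∈ H', ∑ h' ∈ H', ∑ n ∈ S, w n * (np2 n h h' l : ℝ)
          ≤ ∑ _h ∈ H', ∑ _h' ∈ H', C1 * (b * R) ^ 2 * D :=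
            Finset.sum_le_sum fun h hh => Finset.sum_le_sum fun h' hh' => h3 h hh h' hh'
        _ = H'.card * (H'.card * (C1 * (b * R) ^ 2 * D)) := by
            simp only [Finset.sum_const, nsmul_eq_mul]
        _ ≤ M * (M * (C1 * (b * R) ^ 2 * D)) := by gcongr
    have h9 : 2 * D ≤ 2 / b ^ 2 * Y ^ 2 * D := by
      refine mul_le_mul_of_nonneg_right ?_ hD.le
      have h10 : b ^ 2 ≤ Y ^ 2 := pow_le_pow_left₀ hb0.le hYb 2
      rw [div_mul_eq_mul_div, le_div_iff₀ (by positivity)]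
      linarith
    have h11 : M * (M * (C1 * (b * R) ^ 2 * D)) = C1 * Y ^ 2 * D := by rw [hY]; ring
    rw [h11] at h8
    have h12 : V * Y ^ 2 * D = 2 * (C1 * Y ^ 2 * D) + 2 / b ^ 2 * Y ^ 2 * D := by
      rw [hV]; ring
    rw [h12]
    linarith
  obtain ⟨A, hA⟩ : ∃ A : ℝ, A = 4 * V / μ * Y := ⟨_, rfl⟩
  have hA0 : 0 < A := by rw [hA]; positivity
  obtain ⟨g0, hg0⟩ : ∃ g0 : ℝ, g0 = b * μ / 4 * (R * M) := ⟨_, rfl⟩
  have hg0Y : g0 = μ / 4 * Y := by rw [hg0, hY]; ring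
  have hg00 : 0 < g0 := by rw [hg0Y]; positivity
  have hpt : ∀ n, 4 / A * (gb H' l n - g0 - gb H' l n ^ 2 / A) ≤ 1 := by
    intro n
    have h4 : gb H' l n - gb H' l n ^ 2 / A ≤ A / 4 := by
      have h5 : gb H' l n - A / 4 ≤ gb H' l n ^ 2 / A := by
        rw [le_div_iff₀ hA0]
        nlinarith [sq_nonneg (gb H' l n - A / 2)]
      linarith
    calc 4 / A * (gb H' l n - g0 - gb H' l n ^ 2 / A) ≤ 4 / A * (A / 4) :=
          mul_le_mul_of_nonneg_left (by linarith) (by positivity)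
      _ = 1 := by field_simp
  refine ⟨fun n => 4 / A * (gb H' l n - g0 - gb H' l n ^ 2 / A) - bd H' l m n, ?_, ?_, ?_⟩
  · intro n
    have h4 := hpt n
    have h5 := bd_nonneg H' l m n
    show 4 / A * (gb H' l n - g0 - gb H' l n ^ 2 / A) - bd H' l m n ≤ 1
    linarith
  · have h6 : ∑ n ∈ S, w n * (4 / A * (gb H' l n - g0 - gb H' l n ^ 2 / A) - bd H' l m n) =
        4 / A * (∑ n ∈ S, w n * gb H' l n - g0 * ∑ n ∈ S, w n
          - (∑ n ∈ S, w n * gb H' l n ^ 2) / A) - ∑ n ∈ S, w n * bd H' l m n := by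
      rw [Finset.mul_sum (a := g0), Finset.sum_div, ← Finset.sum_sub_distrib,
        ← Finset.sum_sub_distrib, Finset.mul_sum, ← Finset.sum_sub_distrib]
      refine Finset.sum_congr rfl fun n _ => ?_
      ring
    have h7 : μ * Y / 4 * D ≤ ∑ n ∈ S, w n * gb H' l n - g0 * ∑ n ∈ S, w n
          - (∑ n ∈ S, w n * gb H' l n ^ 2) / A := by
      have h8 : g0 * ∑ n ∈ S, w n ≤ μ / 4 * Y * (2 * D) := by
        rw [hg0Y]
        exact mul_le_mul_of_nonneg_left hw2 (by positivity)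
      have h9 : (∑ n ∈ S, w n * gb H' l n ^ 2) / A ≤ μ * Y / 4 * D := by
        rw [div_le_iff₀ hA0]
        refine hE2.trans (le_of_eq ?_)
        rw [hA]
        field_simp
      linarith
    have h10 : p * D ≤ 4 / A * (∑ n ∈ S, w n * gb H' l n - g0 * ∑ n ∈ S, w n
          - (∑ n ∈ S, w n * gb H' l n ^ 2) / A) := by
      calc p * D = 4 / A * (μ * Y / 4 * D) := by
            rw [hp, hA]
            field_simp
        _ ≤ _ := mul_le_mul_of_nonneg_left h7 (by positivity)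
    have h11 : ∑ n ∈ S, w n * bd H' l m n ≤ p / 2 * D := by
      refine bd_sum (by linarith) hcard hC10.le hD h3 ?_
      have h12 := m_sq (C0 := C0) (R := R) (M := M) hC00.le hR0.le
      rw [← hm] at h12
      calc 2 * (M * (C1 * (b * R) ^ 2)) = p / 2 * (C0 ^ 2 * (R ^ 2 * M)) := by
            rw [hC02]
            field_simp
            ring
        _ ≤ p / 2 * m ^ 2 := mul_le_mul_of_nonneg_left h12 (by positivity)
    show p / 2 * D ≤
      ∑ n ∈ S, w n * (4 / A * (gb H' l n - g0 - gb H' l n ^ 2 / A) - bd H' l m n)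
    rw [h6]
    linarith
  · intro n hn
    have hn' : 0 < 4 / A * (gb H' l n - g0 - gb H' l n ^ 2 / A) - bd H' l m n := hn
    have h4 := hpt n
    have h5 := bd_nonneg H' l m n
    refine ⟨?_, bd_use hm1 (by linarith)⟩
    have h6 : 0 < 4 / A * (gb H' l n - g0 - gb H' l n ^ 2 / A) := by linarith
    have h7 : 0 < gb H' l n - g0 - gb H' l n ^ 2 / A :=
      (mul_pos_iff_of_pos_left (by positivity)).1 h6
    have h8 : 0 ≤ gb H' l n ^ 2 / A := by positivity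
    have h9 : gb H' l n = ((H'.filter (fun h => R ≤ (np n h l : ℝ))).card : ℝ) := by
      rw [gb]
      congr 2
      refine Finset.filter_congr fun h _ => ⟨fun h10 => ?_, fun h10 => ?_⟩
      · have h11 : (1 : ℝ) ≤ (np n h l : ℝ) := by exact_mod_cast h10
        linarith
      · have h11 : (0 : ℝ) < (np n h l : ℝ) := by linarith
        have h12 : 0 < np n h l := by exact_mod_cast h11
        omega
    rw [min_eq_right hR1.le, ← h9, ← hg0]
    linarith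

/-- case C: `R M < 1` -/
lemma selC {κ c1 C1 : ℝ} (hκ : 0 < κ) (hc1 : 0 < c1) (hC1 : 1 ≤ C1) (M : ℕ) (R : ℝ) (hM : 1 ≤ M) (hR0 : 0 < R) (hRM : R * M < 1) :
      Sl κ c1 C1 1 1 M R := by
  have hC10 : 0 < C1 := by linarith
  have hMr : (1 : ℝ) ≤ M := by exact_mod_cast hM
  have hR1 : R < 1 := by nlinarith
  obtain ⟨b, hb⟩ : ∃ b : ℝ, b = κ * c1 / (2 * C1) := ⟨_, rfl⟩
  have hb0 : 0 < b := by rw [hb]; positivity
  have hbC : C1 * b = κ * c1 / 2 := by rw [hb]; field_simp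
  obtain ⟨Y, hY⟩ : ∃ Y : ℝ, Y = b * R * M := ⟨_, rfl⟩
  have hY0 : 0 < Y := by rw [hY]; positivity
  have hYb : Y ≤ b := by rw [hY]; nlinarith
  refine ⟨b * R, κ * c1 / 2 * Y, by positivity, by positivity, ?_⟩
  intro S w D η H H' l hHM hH' hκM hd hD hη hw h1 h2 h3
  have hcard : H'.card ≤ M := by
    rw [← hHM]
    exact Finset.card_le_card hH'
  have hcard' : (H'.card : ℝ) ≤ M := by exact_mod_cast hcard
  have hd' : ∀ h ∈ H', ∀ h' ∈ H', h < h' → h + l ≤ h' := fun h hh h' hh' =>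
    hd h (hH' hh) h' (hH' hh')
  set N : ℕ → ℕ := fun n => ∑ h ∈ H', np n h l with hN
  set T : ℕ → ℝ := fun n => ∑ h ∈ H', ∑ h' ∈ H', (np2 n h h' l : ℝ) with hT
  have hNT : ∀ n, (N n : ℝ) * ((N n : ℝ) - 1) ≤ T n := fun n => sum_pairs n l H' hd'
  refine ⟨fun n => (N n : ℝ) - T n, ?_, ?_, ?_⟩
  · intro n
    have h4 := hNT n
    show (N n : ℝ) - T n ≤ 1
    nlinarith [sq_nonneg ((N n : ℝ) - 1)]
  · have h5 : ∑ n ∈ S, w n * (N n : ℝ) = ∑ h ∈ H', ∑ n ∈ S, w n * (np n h l : ℝ) := by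
      rw [Finset.sum_comm]
      refine Finset.sum_congr rfl fun n _ => ?_
      simp only [hN]
      push_cast
      rw [Finset.mul_sum]
    have h6 : κ * c1 * Y * D ≤ ∑ n ∈ S, w n * (N n : ℝ) := by
      rw [h5]
      calc κ * c1 * Y * D = κ * M * (c1 * (b * R) * D) := by rw [hY]; ring
        _ ≤ H'.card * (c1 * (b * R) * D) := mul_le_mul_of_nonneg_right hκM (by positivity)
        _ = ∑ _h ∈ H', c1 * (b * R) * D := by rw [Finset.sum_const, nsmul_eq_mul]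
        _ ≤ _ := Finset.sum_le_sum h2
    have h7 : ∑ n ∈ S, w n * T n = ∑ h ∈ H', ∑ h' ∈ H', ∑ n ∈ S, w n * (np2 n h h' l : ℝ) := by
      have h7 : ∀ h ∈ H', ∑ h' ∈ H', ∑ n ∈ S, w n * (np2 n h h' l : ℝ)
          = ∑ n ∈ S, w n * ∑ h' ∈ H', (np2 n h h' l : ℝ) := fun h _ => by
        rw [Finset.sum_comm]
        exact Finset.sum_congr rfl fun n _ => by rw [Finset.mul_sum]
      rw [Finset.sum_congr rfl h7, Finset.sum_comm]
      exact Finset.sum_congr rfl fun n _ => by rw [← Finset.mul_sum]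
    have h8 : ∑ n ∈ S, w n * T n ≤ κ * c1 / 2 * Y * D := by
      rw [h7]
      calc ∑ h ∈ H', ∑ h' ∈ H', ∑ n ∈ S, w n * (np2 n h h' l : ℝ)
          ≤ ∑ _h ∈ H', ∑ _h' ∈ H', C1 * (b * R) ^ 2 * D :=
            Finset.sum_le_sum fun h hh => Finset.sum_le_sum fun h' hh' => h3 h hh h' hh'
        _ = H'.card * (H'.card * (C1 * (b * R) ^ 2 * D)) := by
            simp only [Finset.sum_const, nsmul_eq_mul]
        _ ≤ M * (M * (C1 * (b * R) ^ 2 * D)) := by gcongr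
        _ = C1 * Y * Y * D := by rw [hY]; ring
        _ ≤ C1 * b * Y * D := by gcongr
        _ = κ * c1 / 2 * Y * D := by rw [hbC]
    have h9 : ∑ n ∈ S, w n * ((N n : ℝ) - T n) = ∑ n ∈ S, w n * (N n : ℝ) - ∑ n ∈ S, w n * T n := by
      rw [← Finset.sum_sub_distrib]
      exact Finset.sum_congr rfl fun n _ => by ring
    show κ * c1 / 2 * Y * D ≤ ∑ n ∈ S, w n * ((N n : ℝ) - T n)
    rw [h9]
    linarith
  · intro n hn
    have hn' : 0 < (N n : ℝ) - T n := hn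
    have h4 := hNT n
    have h5 : N n = 1 := by
      have h6 : 0 < (N n : ℝ) * (2 - (N n : ℝ)) := by linarith
      have h7 : 0 < N n := by
        rcases Nat.eq_zero_or_pos (N n) with h0 | h0
        · rw [h0] at h6
          simp at h6
        · exact h0
      have h8 : N n < 2 := by
        by_contra hcon
        have h9 : (2 : ℝ) ≤ (N n : ℝ) := by exact_mod_cast (not_lt.1 hcon)
        have h10 : (0 : ℝ) ≤ (N n : ℝ) := Nat.cast_nonneg _
        nlinarith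
      omega
    have h6 : ∀ h ∈ H', np n h l ≤ 1 := by
      intro h hh
      rw [← h5]
      exact Finset.single_le_sum (f := fun h => np n h l) (fun _ _ => Nat.zero_le _) hh
    refine ⟨?_, fun h hh => ?_⟩
    · have h7 : 0 < (H'.filter (fun h => R ≤ (np n h l : ℝ))).card := by
        rw [Finset.card_pos]
        have h8 : ∃ h ∈ H', np n h l ≠ 0 := by
          by_contra hcon
          push Not at hcon
          have h9 : N n = 0 := Finset.sum_eq_zero hcon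
          omega
        obtain ⟨h, hh, hne⟩ := h8
        refine ⟨h, Finset.mem_filter.2 ⟨hh, ?_⟩⟩
        have h9 : (1 : ℝ) ≤ (np n h l : ℝ) := by exact_mod_cast Nat.one_le_iff_ne_zero.2 hne
        linarith
      have h8 : (1 : ℝ) ≤ ((H'.filter (fun h => R ≤ (np n h l : ℝ))).card : ℝ) := by
        exact_mod_cast h7
      rw [min_eq_right hR1.le]
      linarith
    · have h7 : (np n h l : ℝ) ≤ 1 := by exact_mod_cast h6 h hh
      exact h7.trans (le_max_left _ _)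

theorem sel : StmtSel := by
  intro κ c1 C1 hκ hκ1 hc1 hc11 hC1
  obtain ⟨a, A, ha, hA, h1⟩ := selA hκ hc1 hc11 hC1
  obtain ⟨b, B, hb, hB, h2⟩ := selB hκ hκ1 hc1 hC1
  refine ⟨min a (min b 1), max A (max B 1), lt_min ha (lt_min hb one_pos),
    lt_max_of_lt_left hA, fun M R hM hR => ?_⟩
  rcases le_or_gt 1 R with h | h
  · exact (h1 M R hM h).mono hR (min_le_left _ _) (le_max_left _ _)
  · rcases le_or_gt 1 (R * M) with h' | h'
    · exact (h2 M R hM hR h h').mono hR ((min_le_right _ _).trans (min_le_left _ _))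
        ((le_max_left _ _).trans (le_max_right _ _))
    · exact (selC hκ hc1 hC1 M R hM hR h').mono hR
        ((min_le_right _ _).trans (min_le_right _ _))
        ((le_max_right _ _).trans (le_max_right _ _))

end Pool.Agent.Helper7.PX
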